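import Mathlib

/-!
Cayley graphs and word length of a group with respect to a set.
-/

namespace Q32

variable {G : Type*} [Group G]

/-- The (right) Cayley graph of a group with respect to a set `S`: the vertices `g ≠ h` are
adjacent when `h = g * s` or `g = h * s` for some `s ∈ S`. -/
def cay (S : Set G) : SimpleGraph G where
  Adj g h := g ≠ h ∧ ∃ s ∈ S, h = g * s ∨ g = h * s
  symm := ⟨fun _ _ h => ⟨h.1.symm, h.2.imp fun _ h => ⟨h.1, h.2.symm⟩⟩⟩
  loopless := ⟨fun _ h => h.1 rfl⟩

theorem cay_adj {S : Set G} {g h : G} :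
    (cay S).Adj g h ↔ g ≠ h ∧ ∃ s ∈ S, h = g * s ∨ g = h * s := Iff.rfl

/-- Left translation as an automorphism of the Cayley graph. -/
def cayShift (S : Set G) (a : G) : cay S ≃g cay S where
  toEquiv := Equiv.mulLeft a
  map_rel_iff' := by
    intro g h
    simp [cay_adj, mul_assoc]

/-- The word length. -/
noncomputable def wlen (S : Set G) (g : G) : ℕ := (cay S).dist 1 g

theorem cay_reachable_one {S : Set G} {g : G} (hg : g ∈ Subgroup.closure S) :
    (cay S).Reachable 1 g := by
  induction hg using Subgroup.closure_induction_right with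
  | one => exact SimpleGraph.Reachable.refl _
  | mul_right x _ y hy ih =>
    refine ih.trans ?_
    by_cases h : x = x * y
    · rw [← h]
    · exact SimpleGraph.Adj.reachable ⟨h, y, hy, Or.inl rfl⟩
  | mul_inv_cancel x _ y hy ih =>
    refine ih.trans ?_
    by_cases h : x = x * y⁻¹
    · rw [← h]
    · exact SimpleGraph.Adj.reachable ⟨h, y, hy, Or.inr (by simp)⟩

theorem cay_connected {S : Set G} (hS : Subgroup.closure S = ⊤) : (cay S).Connected := by
  have : Nonempty G := ⟨1⟩
  refine ⟨fun g h => ?_⟩
  have h1 : ∀ g : G, (cay S).Reachable 1 g := fun g => cay_reachable_one (by simp [hS])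
  exact (h1 g).symm.trans (h1 h)

theorem dist_mul_left {S : Set G} (hS : Subgroup.closure S = ⊤) (a g h : G) :
    (cay S).dist (a * g) (a * h) = (cay S).dist g h := by
  have hle : ∀ a g h : G, (cay S).dist (a * g) (a * h) ≤ (cay S).dist g h := by
    intro a g h
    obtain ⟨p, hp⟩ := (cay_connected hS).exists_walk_length_eq_dist g h
    have := SimpleGraph.dist_le (p.map (cayShift S a).toHom)
    rw [SimpleGraph.Walk.length_map, hp] at this
    exact this
  refine le_antisymm (hle a g h) ?_
  have := hle a⁻¹ (a * g) (a * h)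
  simpa using this

theorem dist_eq_wlen {S : Set G} (hS : Subgroup.closure S = ⊤) (g h : G) :
    (cay S).dist g h = wlen S (g⁻¹ * h) := by
  have := dist_mul_left hS g⁻¹ g h
  simpa [wlen] using this.symm

theorem wlen_one (S : Set G) : wlen S 1 = 0 := by simp [wlen]

theorem wlen_inv {S : Set G} (hS : Subgroup.closure S = ⊤) (g : G) : wlen S g⁻¹ = wlen S g := by
  have := dist_eq_wlen hS g 1
  rw [SimpleGraph.dist_comm] at this
  simpa [wlen] using this.symm

theorem wlen_mul_le {S : Set G} (hS : Subgroup.closure S = ⊤) (g h : G) :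
    wlen S (g * h) ≤ wlen S g + wlen S h := by
  have h1 : (cay S).dist 1 (g * h) ≤ (cay S).dist 1 g + (cay S).dist g (g * h) :=
    (cay_connected hS).dist_triangle
  have h2 := dist_eq_wlen hS g (g * h)
  rw [h2] at h1
  simpa [wlen] using h1

theorem wlen_le_one {S : Set G} {s : G} (hs : s ∈ S) : wlen S s ≤ 1 := by
  by_cases h : s = 1
  · simp [h, wlen]
  · have hadj : (cay S).Adj 1 s := ⟨fun h' => h h'.symm, s, hs, Or.inl (by simp)⟩
    rw [wlen, SimpleGraph.dist_eq_one_iff_adj.2 hadj]

theorem wlen_pow_le {S : Set G} (hS : Subgroup.closure S = ⊤) (g : G) (n : ℕ) :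
    wlen S (g ^ n) ≤ n * wlen S g := by
  induction n with
  | zero => simp [wlen_one]
  | succ n ih =>
    rw [pow_succ]
    calc wlen S (g ^ n * g) ≤ wlen S (g ^ n) + wlen S g := wlen_mul_le hS _ _
      _ ≤ n * wlen S g + wlen S g := by omega
      _ = (n + 1) * wlen S g := by ring

theorem wlen_mul_gen_le {S : Set G} (hS : Subgroup.closure S = ⊤) (g : G) {s : G} (hs : s ∈ S) :
    wlen S (g * s) ≤ wlen S g + 1 :=
  (wlen_mul_le hS g s).trans (by have := wlen_le_one hs; omega)

end Q32
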