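import Mathlib

/-!
A nondecreasing subadditive function `f : ℕ → ℕ` with `x ≤ f x ≤ 2 x` and arbitrarily long
plateaus: `f x` is the least cost of covering `x` by coins of size `8 ^ i` and cost `8 ^ i + 4 ^ i`.
-/

namespace Q32.Coin

/-- Total size of a collection of coins. -/
def size (a : ℕ →₀ ℕ) : ℕ := a.sum fun i c => c * 8 ^ i

/-- Total cost of a collection of coins. -/
def cost (a : ℕ →₀ ℕ) : ℕ := a.sum fun i c => c * (8 ^ i + 4 ^ i)

theorem size_add (a b : ℕ →₀ ℕ) : size (a + b) = size a + size b :=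
  Finsupp.sum_add_index' (by simp) (by intros; ring)

theorem cost_add (a b : ℕ →₀ ℕ) : cost (a + b) = cost a + cost b :=
  Finsupp.sum_add_index' (by simp) (by intros; ring)

theorem size_single (i c : ℕ) : size (Finsupp.single i c) = c * 8 ^ i :=
  Finsupp.sum_single_index (by simp)

theorem cost_single (i c : ℕ) : cost (Finsupp.single i c) = c * (8 ^ i + 4 ^ i) :=
  Finsupp.sum_single_index (by simp)

/-- The least cost of covering `x`. -/
noncomputable def f (x : ℕ) : ℕ := sInf {c | ∃ a, x ≤ size a ∧ cost a = c}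

theorem f_le {x : ℕ} {a : ℕ →₀ ℕ} (h : x ≤ size a) : f x ≤ cost a :=
  Nat.sInf_le ⟨a, h, rfl⟩

theorem exists_f (x : ℕ) : ∃ a, x ≤ size a ∧ cost a = f x :=
  Nat.sInf_mem (s := {c | ∃ a, x ≤ size a ∧ cost a = c})
    ⟨cost (Finsupp.single 0 x), Finsupp.single 0 x, by simp [size_single], rfl⟩

theorem f_mono : Monotone f := by
  intro x y h
  obtain ⟨a, ha, hc⟩ := exists_f y
  rw [← hc]; exact f_le (h.trans ha)

theorem f_add (x y : ℕ) : f (x + y) ≤ f x + f y := by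
  obtain ⟨a, ha, hc⟩ := exists_f x
  obtain ⟨b, hb, hd⟩ := exists_f y
  rw [← hc, ← hd, ← cost_add]
  exact f_le (by rw [size_add]; omega)

theorem f_zero : f 0 = 0 := by
  have : f 0 ≤ cost 0 := f_le (Nat.zero_le _)
  simpa [cost] using this

theorem size_le_cost (a : ℕ →₀ ℕ) : size a ≤ cost a :=
  Finset.sum_le_sum fun _ _ => Nat.mul_le_mul_left _ (Nat.le_add_right _ _)

theorem le_f (x : ℕ) : x ≤ f x := by
  obtain ⟨a, ha, hc⟩ := exists_f x
  rw [← hc]; exact ha.trans (size_le_cost a)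

theorem f_le_two (x : ℕ) : f x ≤ 2 * x := by
  have : f x ≤ cost (Finsupp.single 0 x) := f_le (by simp [size_single])
  rw [cost_single] at this
  omega

theorem plateau (m x : ℕ) (h1 : 2 * 8 ^ (m + 1) ≤ 2 * x + 4 ^ (m + 1)) (h2 : x ≤ 8 ^ (m + 1)) :
    f x = 8 ^ (m + 1) + 4 ^ (m + 1) := by
  refine le_antisymm ?_ ?_
  · have : f x ≤ cost (Finsupp.single (m + 1) 1) := f_le (by simpa [size_single] using h2)
    simpa [cost_single] using this
  · obtain ⟨a, ha, hc⟩ := exists_f x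
    rw [← hc]
    by_cases hbig : ∃ i, m + 1 ≤ i ∧ a i ≠ 0
    · obtain ⟨i, hi, hai⟩ := hbig
      have hmem : i ∈ a.support := Finsupp.mem_support_iff.2 hai
      have h3 : a i * (8 ^ i + 4 ^ i) ≤ cost a :=
        Finset.single_le_sum (f := fun i => a i * (8 ^ i + 4 ^ i)) (fun _ _ => Nat.zero_le _) hmem
      have h4 : 1 * (8 ^ i + 4 ^ i) ≤ a i * (8 ^ i + 4 ^ i) :=
        Nat.mul_le_mul_right _ (Nat.one_le_iff_ne_zero.2 hai)
      have h5 : 8 ^ (m + 1) ≤ 8 ^ i := Nat.pow_le_pow_right (by norm_num) hi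
      have h6 : 4 ^ (m + 1) ≤ 4 ^ i := Nat.pow_le_pow_right (by norm_num) hi
      omega
    · push Not at hbig
      have h3 : (2 ^ m + 1) * size a ≤ 2 ^ m * cost a := by
        unfold size cost Finsupp.sum
        rw [Finset.mul_sum, Finset.mul_sum]
        refine Finset.sum_le_sum fun i hi => ?_
        have him : i ≤ m := by
          by_contra hlt
          exact (Finsupp.mem_support_iff.1 hi) (hbig i (by omega))
        have h7 : 2 ^ i ≤ 2 ^ m := Nat.pow_le_pow_right (by norm_num) him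
        have h8 : (8 : ℕ) ^ i = 2 ^ i * 4 ^ i := by rw [← mul_pow]; norm_num
        have h9 : 8 ^ i ≤ 2 ^ m * 4 ^ i := by rw [h8]; exact Nat.mul_le_mul_right _ h7
        calc (2 ^ m + 1) * (a i * 8 ^ i) = a i * (2 ^ m * 8 ^ i + 8 ^ i) := by ring
          _ ≤ a i * (2 ^ m * 8 ^ i + 2 ^ m * 4 ^ i) := Nat.mul_le_mul_left _ (by omega)
          _ = 2 ^ m * (a i * (8 ^ i + 4 ^ i)) := by ring
      have h4 : (2 ^ m + 1) * x ≤ 2 ^ m * cost a := (Nat.mul_le_mul_left _ ha).trans h3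
      have hu : 1 ≤ 2 ^ m := Nat.one_le_two_pow
      have e8 : 8 ^ (m + 1) = 8 * (2 ^ m) ^ 3 := by
        rw [pow_succ, ← pow_mul, mul_comm m 3, pow_mul]; norm_num; ring
      have e4 : 4 ^ (m + 1) = 4 * (2 ^ m) ^ 2 := by
        rw [pow_succ, ← pow_mul, mul_comm m 2, pow_mul]; norm_num; ring
      rw [e8, e4] at h1 ⊢
      generalize 2 ^ m = u at h4 hu h1 ⊢
      by_contra hlt
      push Not at hlt
      have h10 : u * (cost a + 1) ≤ u * (8 * u ^ 3 + 4 * u ^ 2) := Nat.mul_le_mul_left _ hlt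
      zify at h1 h4 h10 hu
      nlinarith [mul_le_mul_of_nonneg_left h1 (by positivity : (0 : ℤ) ≤ u + 1),
        mul_nonneg (by positivity : (0 : ℤ) ≤ (u : ℤ) ^ 2) (by linarith : (0 : ℤ) ≤ (u : ℤ) - 1)]

end Q32.Coin

namespace Q32.Coin

/-- The function `f` is asymptotic to the identity. -/
theorem f_asymp (n x : ℕ) : 2 ^ n * f x ≤ (2 ^ n + 1) * x + 2 ^ n * (2 * 8 ^ n) := by
  have hpos : 0 < 8 ^ n := by positivity
  have hx := Nat.div_add_mod x (8 ^ n)
  have hlt := Nat.mod_lt x hpos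
  have h1 : f (8 ^ n * (x / 8 ^ n)) ≤ (x / 8 ^ n) * (8 ^ n + 4 ^ n) := by
    have : f (8 ^ n * (x / 8 ^ n)) ≤ cost (Finsupp.single n (x / 8 ^ n)) :=
      f_le (by rw [size_single]; exact (mul_comm _ _).le)
    rwa [cost_single] at this
  have h2 := f_le_two (x % 8 ^ n)
  have h3 := f_add (8 ^ n * (x / 8 ^ n)) (x % 8 ^ n)
  rw [hx] at h3
  have h8 : (8 : ℕ) ^ n = 2 ^ n * 4 ^ n := by rw [← mul_pow]; norm_num
  calc 2 ^ n * f x ≤ 2 ^ n * ((x / 8 ^ n) * (8 ^ n + 4 ^ n) + 2 * 8 ^ n) :=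
        Nat.mul_le_mul_left _ (by omega)
    _ = (2 ^ n + 1) * (8 ^ n * (x / 8 ^ n)) + 2 ^ n * (2 * 8 ^ n) := by rw [h8]; ring
    _ ≤ (2 ^ n + 1) * x + 2 ^ n * (2 * 8 ^ n) := by
        gcongr
        omega

end Q32.Coin
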