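import Pool.Agent.Q32.HypDefs

/-!
A family of hyperbolic structures on groups mapping onto `ℤ ≀ ℤ`.
-/

namespace Q32.Hyp

open Finsupp

/-! ### The weighted norm -/

/-- The weighted `ℓ¹`-norm `∑ |f i| b ^ (-i)`. -/
noncomputable def nrm (b : ℝ) (f : ℤ →₀ ℤ) : ℝ := f.sum fun i c => |(c : ℝ)| * b ^ (-i)

theorem nrm_eq_sum {b : ℝ} {f : ℤ →₀ ℤ} {s : Finset ℤ} (hs : f.support ⊆ s) :
    nrm b f = ∑ i ∈ s, |(f i : ℝ)| * b ^ (-i) :=
  Finsupp.sum_of_support_subset _ hs _ (by simp)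

theorem nrm_nonneg {b : ℝ} (hb : 0 < b) (f : ℤ →₀ ℤ) : 0 ≤ nrm b f :=
  Finset.sum_nonneg fun _ _ => mul_nonneg (abs_nonneg _) (zpow_pos hb _).le

theorem nrm_zero (b : ℝ) : nrm b 0 = 0 := by simp [nrm]

theorem nrm_add_le {b : ℝ} (hb : 0 < b) (f g : ℤ →₀ ℤ) : nrm b (f + g) ≤ nrm b f + nrm b g := by
  classical
  rw [nrm_eq_sum (s := f.support ∪ g.support) (Finsupp.support_add),
    nrm_eq_sum (s := f.support ∪ g.support) Finset.subset_union_left,
    nrm_eq_sum (s := f.support ∪ g.support) Finset.subset_union_right, ← Finset.sum_add_distrib]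
  refine Finset.sum_le_sum fun i _ => ?_
  rw [← add_mul]
  refine mul_le_mul_of_nonneg_right ?_ (zpow_pos hb _).le
  rw [Finsupp.add_apply]
  push_cast
  exact abs_add_le _ _

theorem nrm_neg (b : ℝ) (f : ℤ →₀ ℤ) : nrm b (-f) = nrm b f := by
  rw [nrm_eq_sum (s := f.support) (by simp), nrm]
  refine Finset.sum_congr rfl fun i _ => ?_
  simp

theorem nrm_pos {b : ℝ} (hb : 0 < b) {f : ℤ →₀ ℤ} (hf : f ≠ 0) : 0 < nrm b f := by
  obtain ⟨i, hi⟩ := Finsupp.ne_iff.1 hf
  rw [Finsupp.zero_apply] at hi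
  refine Finset.sum_pos' (fun i _ => mul_nonneg (abs_nonneg _) (zpow_pos hb _).le) ⟨i, ?_, ?_⟩
  · exact Finsupp.mem_support_iff.2 hi
  · exact mul_pos (abs_pos.2 (by exact_mod_cast hi)) (zpow_pos hb _)

/-- The shift. -/
noncomputable def sh (n : ℤ) : (ℤ →₀ ℤ) ≃+ (ℤ →₀ ℤ) := Finsupp.domCongr (Equiv.addLeft n)

theorem sh_apply (n : ℤ) (f : ℤ →₀ ℤ) (i : ℤ) : sh n f i = f (-n + i) := rfl

theorem nrm_sh {b : ℝ} (hb : 0 < b) (n : ℤ) (f : ℤ →₀ ℤ) :
    nrm b (sh n f) = b ^ (-n) * nrm b f := by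
  have h : sh n f = f.equivMapDomain (Equiv.addLeft n) := rfl
  rw [h, nrm, Finsupp.sum_equivMapDomain, nrm, Finsupp.sum, Finsupp.sum, Finset.mul_sum]
  refine Finset.sum_congr rfl fun i _ => ?_
  simp only [Equiv.coe_addLeft]
  rw [neg_add, zpow_add₀ hb.ne']
  ring

theorem nrm_single (b : ℝ) (i c : ℤ) : nrm b (Finsupp.single i c) = |(c : ℝ)| * b ^ (-i) := by
  rw [nrm, Finsupp.sum_single_index (by simp)]

/-! ### Coordinates on `ℤ ≀ ℤ` -/

/-- The lamp configuration. -/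
def lamp (g : ZwrZ) : ℤ →₀ ℤ := Multiplicative.toAdd g.left

/-- The height. -/
def ht (g : ZwrZ) : ℤ := Multiplicative.toAdd g.right

/-- The element with given coordinates. -/
def mkW (f : ℤ →₀ ℤ) (n : ℤ) : ZwrZ := ⟨Multiplicative.ofAdd f, Multiplicative.ofAdd n⟩

theorem lamp_mk (f : ℤ →₀ ℤ) (n : ℤ) : lamp (mkW f n) = f := rfl
theorem ht_mk (f : ℤ →₀ ℤ) (n : ℤ) : ht (mkW f n) = n := rfl
theorem lamp_one : lamp 1 = 0 := rfl
theorem ht_one : ht 1 = 0 := rfl
theorem lamp_mul (g h : ZwrZ) : lamp (g * h) = lamp g + sh (ht g) (lamp h) := rfl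
theorem ht_mul (g h : ZwrZ) : ht (g * h) = ht g + ht h := rfl
theorem ht_inv (g : ZwrZ) : ht g⁻¹ = -ht g := rfl

theorem ext_W {g h : ZwrZ} (h1 : lamp g = lamp h) (h2 : ht g = ht h) : g = h := by
  cases g; cases h
  have h1' := Multiplicative.toAdd.injective h1
  have h2' := Multiplicative.toAdd.injective h2
  simp only at h1' h2'
  rw [h1', h2']

theorem sh_sh (m n : ℤ) (f : ℤ →₀ ℤ) : sh m (sh n f) = sh (m + n) f := by
  ext i
  rw [sh_apply, sh_apply, sh_apply]
  congr 1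
  ring

theorem sh_zero (f : ℤ →₀ ℤ) : sh 0 f = f := by
  ext i
  rw [sh_apply]
  simp

theorem lamp_inv (g : ZwrZ) : lamp g⁻¹ = -sh (-ht g) (lamp g) := by
  have h := lamp_mul g⁻¹ g
  rw [inv_mul_cancel, lamp_one, ht_inv] at h
  exact eq_neg_of_add_eq_zero_left h.symm

theorem lamp_inv_mul (g h : ZwrZ) : lamp (g⁻¹ * h) = sh (-ht g) (lamp h - lamp g) := by
  rw [lamp_mul, lamp_inv, ht_inv, map_sub]
  abel

variable {G : Type*} [Group G] (π : G →* ZwrZ)

/-- The generating set. -/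
def XX (b : ℝ) : Set G :=
  {g | (lamp (π g) = 0 ∧ ht (π g) = 1) ∨ (ht (π g) = 0 ∧ nrm b (lamp (π g)) ≤ 1)}

/-- Auxiliary quantity. -/
noncomputable def EE (b : ℝ) (g : ZwrZ) : ℝ := max (max 1 (b ^ (-ht g))) (nrm b (lamp g))

/-- The model of the length. -/
noncomputable def Lam (b : ℝ) (g : ZwrZ) : ℝ := 2 * Real.logb b (EE b g) + ht g

theorem one_le_EE (b : ℝ) (g : ZwrZ) : 1 ≤ EE b g := (le_max_left _ _).trans (le_max_left _ _)

theorem lamp_pow_t {t : ZwrZ} (h1 : lamp t = 0) (h2 : ht t = 1) (n : ℕ) :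
    lamp (t ^ n) = 0 ∧ ht (t ^ n) = n := by
  induction n with
  | zero => exact ⟨by rw [pow_zero]; rfl, by rw [pow_zero]; rfl⟩
  | succ n ih =>
    rw [pow_succ]
    refine ⟨?_, ?_⟩
    · rw [lamp_mul, ih.1, h1, map_zero, add_zero]
    · rw [ht_mul, ih.2, h2]; push_cast; ring

theorem exists_word {π : G →* ZwrZ} (hπ : Function.Surjective π) {b : ℝ} (hb : 1 < b) (g : G) :
    ∃ l : List G, (∀ x ∈ l, x ∈ XX π b ∨ x⁻¹ ∈ XX π b) ∧ l.prod = g ∧
      (l.length : ℝ) ≤ Lam b (π g) + 3 := by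
  obtain ⟨t, ht'⟩ := hπ (mkW 0 1)
  have t1 : lamp (π t) = 0 := by rw [ht']; rfl
  have t2 : ht (π t) = 1 := by rw [ht']; rfl
  have hb0 : 0 < b := by linarith
  have hE := one_le_EE b (π g)
  have hE0 : 0 < EE b (π g) := by linarith
  have hlog : 0 ≤ Real.logb b (EE b (π g)) := Real.logb_nonneg hb hE
  set M := ⌈Real.logb b (EE b (π g))⌉₊ with hM
  have hM1 : Real.logb b (EE b (π g)) ≤ M := Nat.le_ceil _
  have hM2 : (M : ℝ) < Real.logb b (EE b (π g)) + 1 := Nat.ceil_lt_add_one hlog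
  have hbM : EE b (π g) ≤ b ^ M := by
    rw [Real.logb_le_iff_le_rpow hb hE0] at hM1
    exact_mod_cast hM1
  have hMh : 0 ≤ (M : ℤ) + ht (π g) := by
    have h1 : b ^ (-ht (π g)) ≤ b ^ (M : ℤ) := by
      rw [zpow_natCast]
      exact ((le_max_right _ _).trans (le_max_left _ _)).trans hbM
    have := (zpow_le_zpow_iff_right₀ hb).1 h1
    omega
  obtain ⟨N, hN⟩ := Int.eq_ofNat_of_zero_le hMh
  have pM := lamp_pow_t t1 t2 M
  have pN := lamp_pow_t t1 t2 N
  let q : G := t ^ M * g * (t ^ N)⁻¹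
  have hq : q ∈ XX π b := by
    right
    refine ⟨?_, ?_⟩
    · simp only [q, map_mul, map_inv, map_pow, ht_mul, ht_inv, pM.2, pN.2]
      omega
    · simp only [q, map_mul, map_inv, map_pow, lamp_mul, lamp_inv, pM.1, pM.2, pN.1]
      simp only [map_zero, neg_zero, add_zero, zero_add]
      rw [nrm_sh hb0, zpow_neg, zpow_natCast]
      have h1 : nrm b (lamp (π g)) ≤ b ^ M := (le_max_right _ _).trans hbM
      have h2 : 0 < b ^ M := pow_pos hb0 _
      rw [inv_mul_le_iff₀ h2, mul_one]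
      exact h1
  have ht0 : t ∈ XX π b := Or.inl ⟨t1, t2⟩
  refine ⟨List.replicate M t⁻¹ ++ [q] ++ List.replicate N t, ?_, ?_, ?_⟩
  · intro x hx
    simp only [List.mem_append, List.mem_replicate, List.mem_singleton] at hx
    rcases hx with (⟨_, rfl⟩ | rfl) | ⟨_, rfl⟩
    · right; rwa [inv_inv]
    · left; exact hq
    · left; exact ht0
  · simp only [List.prod_append, List.prod_replicate, List.prod_singleton, q, inv_pow]
    simp [mul_assoc]
  · simp only [List.length_append, List.length_replicate, List.length_singleton]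
    have hN' : (N : ℝ) = M + ht (π g) := by
      have : ((N : ℤ) : ℝ) = ((M + ht (π g) : ℤ) : ℝ) := by rw [hN]
      push_cast at this
      exact this
    push_cast
    rw [Lam, hN']
    linarith

theorem XX_gen {π : G →* ZwrZ} (hπ : Function.Surjective π) {b : ℝ} (hb : 1 < b) :
    Subgroup.closure (XX π b) = ⊤ := by
  rw [eq_top_iff]
  intro g _
  obtain ⟨l, hl, hp, _⟩ := exists_word hπ hb g
  rw [← hp]
  refine Subgroup.list_prod_mem _ fun x hx => ?_
  rcases hl x hx with h | h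
  · exact Subgroup.subset_closure h
  · exact (Subgroup.inv_mem_iff _).1 (Subgroup.subset_closure h)

theorem wordLen_le {π : G →* ZwrZ} (hπ : Function.Surjective π) {b : ℝ} (hb : 1 < b) (g : G) :
    (wordLen (XX π b) g : ℝ) ≤ Lam b (π g) + 3 := by
  obtain ⟨l, hl, hp, hlen⟩ := exists_word hπ hb g
  refine le_trans ?_ hlen
  have : wordLen (XX π b) g ≤ l.length := Nat.sInf_le ⟨l, hl, hp, rfl⟩
  exact_mod_cast this

/-- Structure of words. -/
theorem word_bound {π : G →* ZwrZ} {b : ℝ} (hb : 1 < b) (l : List G)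
    (hl : ∀ x ∈ l, x ∈ XX π b ∨ x⁻¹ ∈ XX π b) :
    ∃ D k : ℕ, 2 * (D : ℤ) + ht (π l.prod) + k ≤ l.length ∧ -ht (π l.prod) ≤ D ∧
      nrm b (lamp (π l.prod)) ≤ k * b ^ D := by
  have hb0 : 0 < b := by linarith
  induction l using List.reverseRecOn with
  | nil =>
    refine ⟨0, 0, ?_, ?_, ?_⟩
    · simp [ht_one]
    · simp [ht_one]
    · simp [lamp_one, nrm_zero]
  | append_singleton l x ih =>
    obtain ⟨D, k, h1, h2, h3⟩ := ih fun y hy => hl y (by simp [hy])
    have hx := hl x (by simp)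
    rw [List.prod_append, List.prod_singleton, map_mul, ht_mul, lamp_mul, List.length_append,
      List.length_singleton]
    -- normal form of the letter
    have hcase : (lamp (π x) = 0 ∧ ht (π x) = 1) ∨ (lamp (π x) = 0 ∧ ht (π x) = -1) ∨
        (ht (π x) = 0 ∧ nrm b (lamp (π x)) ≤ 1) := by
      rcases hx with (h | h) | (h | h)
      · exact Or.inl h
      · exact Or.inr (Or.inr h)
      · rw [map_inv, ht_inv, lamp_inv] at h
        refine Or.inr (Or.inl ⟨?_, by omega⟩)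
        have := neg_eq_zero.1 h.1
        exact (map_eq_zero_iff _ (sh _).injective).1 this
      · rw [map_inv, ht_inv, lamp_inv] at h
        have h0 : ht (π x) = 0 := by omega
        refine Or.inr (Or.inr ⟨h0, ?_⟩)
        have := h.2
        rwa [h0, neg_zero, sh_zero, nrm_neg] at this
    rcases hcase with ⟨hx1, hx2⟩ | ⟨hx1, hx2⟩ | ⟨hx1, hx2⟩
    · refine ⟨D, k, ?_, ?_, ?_⟩
      · rw [hx2]; push_cast; omega
      · rw [hx2]; omega
      · rw [hx1, map_zero, add_zero]; exact h3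
    · rw [hx1, hx2, map_zero, add_zero]
      by_cases hD : -ht (π l.prod) + 1 ≤ D
      · refine ⟨D, k, ?_, ?_, h3⟩
        · push_cast; omega
        · omega
      · refine ⟨D + 1, k, ?_, ?_, h3.trans ?_⟩
        · push_cast; omega
        · push_cast; omega
        · refine mul_le_mul_of_nonneg_left ?_ (Nat.cast_nonneg _)
          exact pow_le_pow_right₀ hb.le (Nat.le_succ D)
    · refine ⟨D, k + 1, ?_, ?_, ?_⟩
      · rw [hx1]; push_cast; omega
      · rw [hx1]; omega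
      · refine (nrm_add_le hb0 _ _).trans ?_
        rw [nrm_sh hb0]
        have h4 : b ^ (-ht (π l.prod)) ≤ b ^ D := by
          rw [← zpow_natCast]
          exact (zpow_le_zpow_iff_right₀ hb).2 h2
        have h5 : b ^ (-ht (π l.prod)) * nrm b (lamp (π x)) ≤ b ^ D * 1 :=
          mul_le_mul h4 hx2 (nrm_nonneg hb0 _) (pow_pos hb0 _).le
        push_cast
        linarith

/-- The additive error. -/
noncomputable def CC (b : ℝ) : ℝ := max 0 (2 / Real.log b * (-1 - Real.log (Real.log b / 2)))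

theorem log_bound {b : ℝ} (hb : 1 < b) (k : ℕ) :
    2 * Real.logb b (max 1 (k : ℝ)) ≤ k + CC b := by
  have hlb : 0 < Real.log b := Real.log_pos hb
  rcases Nat.eq_zero_or_pos k with rfl | hk
  · simp only [Nat.cast_zero]
    rw [max_eq_left (by norm_num), Real.logb_one]
    have : 0 ≤ CC b := le_max_left _ _
    linarith
  · have hk1 : (1 : ℝ) ≤ k := by exact_mod_cast hk
    rw [max_eq_right hk1]
    have hc : 0 < Real.log b / 2 := by positivity
    have hk0 : (0 : ℝ) < k := by linarith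
    have h1 := Real.log_le_sub_one_of_pos (mul_pos hk0 hc)
    rw [Real.log_mul hk0.ne' hc.ne'] at h1
    have h2 : 2 * Real.logb b k = 2 / Real.log b * Real.log k := by
      rw [Real.logb]; ring
    have h3 : 2 / Real.log b * Real.log k ≤
        2 / Real.log b * (k * (Real.log b / 2) - 1 - Real.log (Real.log b / 2)) :=
      mul_le_mul_of_nonneg_left (by linarith) (by positivity)
    have h4 : 2 / Real.log b * (k * (Real.log b / 2) - 1 - Real.log (Real.log b / 2)) =
        k + 2 / Real.log b * (-1 - Real.log (Real.log b / 2)) := by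
      field_simp
      ring
    have h5 : 2 / Real.log b * (-1 - Real.log (Real.log b / 2)) ≤ CC b := le_max_right _ _
    linarith

theorem Lam_le {π : G →* ZwrZ} (hπ : Function.Surjective π) {b : ℝ} (hb : 1 < b) (g : G) :
    Lam b (π g) ≤ wordLen (XX π b) g + CC b := by
  have hb0 : 0 < b := by linarith
  obtain ⟨l0, hl0, hp0, _⟩ := exists_word hπ hb g
  obtain ⟨l, hl, hp, hlen⟩ : ∃ l : List G, (∀ x ∈ l, x ∈ XX π b ∨ x⁻¹ ∈ XX π b) ∧ l.prod = g ∧
      l.length = wordLen (XX π b) g :=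
    Nat.sInf_mem (s := {n | ∃ l : List G, (∀ x ∈ l, x ∈ XX π b ∨ x⁻¹ ∈ XX π b) ∧
      l.prod = g ∧ l.length = n}) ⟨l0.length, l0, hl0, hp0, rfl⟩
  obtain ⟨D, k, h1, h2, h3⟩ := word_bound hb l hl
  rw [hp] at h1 h2 h3
  have hbD : 1 ≤ b ^ D := one_le_pow₀ hb.le
  have hk : 1 ≤ max 1 (k : ℝ) := le_max_left _ _
  have hE : EE b (π g) ≤ max 1 (k : ℝ) * b ^ D := by
    refine max_le (max_le ?_ ?_) ?_
    · nlinarith
    · have h4 : b ^ (-ht (π g)) ≤ b ^ D := by
        rw [← zpow_natCast]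
        exact (zpow_le_zpow_iff_right₀ hb).2 h2
      nlinarith
    · exact h3.trans (mul_le_mul_of_nonneg_right (le_max_right _ _) (by linarith))
  have hE0 : 0 < EE b (π g) := by have := one_le_EE b (π g); linarith
  have h5 : Real.logb b (EE b (π g)) ≤ Real.logb b (max 1 (k : ℝ)) + D := by
    have h6 := Real.logb_le_logb_of_le hb hE0 hE
    rw [Real.logb_mul (by linarith) (by linarith), Real.logb_pow, Real.logb_self_eq_one hb,
      mul_one] at h6
    exact h6
  have h7 := log_bound hb k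
  have h8 : 2 * (D : ℝ) + ht (π g) + k ≤ wordLen (XX π b) g := by
    rw [← hlen]
    exact_mod_cast h1
  rw [Lam]
  linarith

/-! ### The four-point condition -/

/-- The symmetric form of the distance. -/
noncomputable def FF (b : ℝ) (x y : ZwrZ) : ℝ :=
  max (max (b ^ (-ht x)) (b ^ (-ht y))) (nrm b (lamp y - lamp x))

theorem FF_pos {b : ℝ} (hb : 0 < b) (x y : ZwrZ) : 0 < FF b x y :=
  (zpow_pos hb _).trans_le ((le_max_left _ _).trans (le_max_left _ _))

theorem EE_inv_mul {b : ℝ} (hb : 0 < b) (x y : ZwrZ) :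
    EE b (x⁻¹ * y) = b ^ (ht x) * FF b x y := by
  have h0 : 0 ≤ b ^ (ht x) := (zpow_pos hb _).le
  rw [EE, FF, mul_max_of_nonneg _ _ h0, mul_max_of_nonneg _ _ h0, lamp_inv_mul, nrm_sh hb,
    ht_mul, ht_inv, neg_neg, neg_add, neg_neg, ← zpow_add₀ hb.ne', ← zpow_add₀ hb.ne',
    add_neg_cancel, zpow_zero]

theorem logb_zpow_self {b : ℝ} (hb : 1 < b) (n : ℤ) : Real.logb b (b ^ n) = n := by
  have : Real.log b ≠ 0 := (Real.log_pos hb).ne'
  rw [Real.logb, Real.log_zpow, mul_div_assoc, div_self this, mul_one]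

theorem Lam_inv_mul {b : ℝ} (hb : 1 < b) (x y : ZwrZ) :
    Lam b (x⁻¹ * y) = 2 * Real.logb b (FF b x y) + ht x + ht y := by
  have hb0 : 0 < b := by linarith
  rw [Lam, EE_inv_mul hb0, Real.logb_mul (zpow_pos hb0 _).ne' (FF_pos hb0 x y).ne',
    logb_zpow_self hb, ht_mul, ht_inv]
  push_cast
  ring

theorem FF_triangle {b : ℝ} (hb : 0 < b) (x y z : ZwrZ) :
    FF b x z ≤ 2 * max (FF b x y) (FF b y z) := by
  have h1 : 0 < FF b x y := FF_pos hb x y
  have h2 : 0 < FF b y z := FF_pos hb y z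
  have h3 : b ^ (-ht x) ≤ FF b x y := (le_max_left _ _).trans (le_max_left _ _)
  have h4 : b ^ (-ht z) ≤ FF b y z := (le_max_right _ _).trans (le_max_left _ _)
  have h5 : nrm b (lamp y - lamp x) ≤ FF b x y := le_max_right _ _
  have h6 : nrm b (lamp z - lamp y) ≤ FF b y z := le_max_right _ _
  have h7 : nrm b (lamp z - lamp x) ≤ nrm b (lamp z - lamp y) + nrm b (lamp y - lamp x) := by
    have := nrm_add_le hb (lamp z - lamp y) (lamp y - lamp x)
    rwa [sub_add_sub_cancel] at this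
  have h8 := le_max_left (FF b x y) (FF b y z)
  have h9 := le_max_right (FF b x y) (FF b y z)
  refine max_le (max_le ?_ ?_) ?_ <;> linarith

/-- The logarithmic quasi-ultrametric. -/
noncomputable def NN (b : ℝ) (x y : ZwrZ) : ℝ := Real.logb b (FF b x y)

theorem NN_triangle {b : ℝ} (hb : 1 < b) (x y z : ZwrZ) :
    NN b x z ≤ max (NN b x y) (NN b y z) + Real.logb b 2 := by
  have hb0 : 0 < b := by linarith
  have h1 := Real.logb_le_logb_of_le hb (FF_pos hb0 x z) (FF_triangle hb0 x y z)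
  have h2 : 0 < max (FF b x y) (FF b y z) := lt_max_of_lt_left (FF_pos hb0 x y)
  rw [Real.logb_mul (by norm_num) h2.ne'] at h1
  rcases max_choice (FF b x y) (FF b y z) with h | h
  · rw [h] at h1
    have := le_max_left (NN b x y) (NN b y z)
    unfold NN at *
    linarith
  · rw [h] at h1
    have := le_max_right (NN b x y) (NN b y z)
    unfold NN at *
    linarith

theorem NN_comm {b : ℝ} (x y : ZwrZ) : NN b x y = NN b y x := by
  unfold NN FF
  rw [max_comm (b ^ (-ht x)), ← nrm_neg b (lamp y - lamp x), neg_sub]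

/-- The four-point inequality for a symmetric quasi-ultrametric. -/
theorem four_point {α : Type*} (N : α → α → ℝ) (hs : ∀ x y, N x y = N y x) (k : ℝ)
    (h : ∀ x y z, N x z ≤ max (N x y) (N y z) + k) (x y z w : α) :
    N x z + N y w ≤ max (N x y + N z w) (N y z + N x w) + 2 * k := by
  have a1 := h x y z
  have a2 := h x w z
  have b1 := h y x w
  have b2 := h y z w
  rw [hs y x] at b1
  rw [hs w z] at a2
  have c1 := le_max_left (N x y + N z w) (N y z + N x w)
  have c2 := le_max_right (N x y + N z w) (N y z + N x w)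
  -- the smallest of the four cross terms
  rcases le_total (N x y) (N y z) with p1 | p1 <;> rcases le_total (N x w) (N z w) with p2 | p2 <;>
    rcases le_total (N x y) (N x w) with p3 | p3 <;> rcases le_total (N y z) (N z w) with p4 | p4 <;>
    simp only [max_eq_left, max_eq_right, p1, p2, p3, p4] at a1 a2 b1 b2 <;>
    linarith

theorem wdist_bounds {π : G →* ZwrZ} (hπ : Function.Surjective π) {b : ℝ} (hb : 1 < b)
    (x y : G) :
    2 * NN b (π x) (π y) + ht (π x) + ht (π y) - CC b ≤ wdist (XX π b) x y ∧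
      wdist (XX π b) x y ≤ 2 * NN b (π x) (π y) + ht (π x) + ht (π y) + 3 := by
  have h1 := Lam_le hπ hb (x⁻¹ * y)
  have h2 := wordLen_le hπ hb (x⁻¹ * y)
  rw [map_mul, map_inv, Lam_inv_mul hb] at h1 h2
  unfold wdist NN
  constructor <;> linarith

theorem CC_nonneg (b : ℝ) : 0 ≤ CC b := le_max_left _ _

theorem XX_hyp {π : G →* ZwrZ} (hπ : Function.Surjective π) {b : ℝ} (hb : 1 < b) :
    IsHyperbolic (XX π b) := by
  refine ⟨2 * Real.logb b 2 + CC b + 3, fun x y z w => ?_⟩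
  have hfp := four_point (NN b) NN_comm _ (NN_triangle hb) (π x) (π y) (π z) (π w)
  have d1 := wdist_bounds hπ hb x w
  have d2 := wdist_bounds hπ hb y w
  have d3 := wdist_bounds hπ hb z w
  have d4 := wdist_bounds hπ hb x y
  have d5 := wdist_bounds hπ hb y z
  have d6 := wdist_bounds hπ hb x z
  have hC := CC_nonneg b
  unfold gromovProd
  rcases max_choice (NN b (π x) (π y) + NN b (π z) (π w))
    (NN b (π y) (π z) + NN b (π x) (π w)) with h | h
  · rw [h] at hfp
    have := min_le_right ((wdist (XX π b) x w + wdist (XX π b) y w - wdist (XX π b) x y) / 2)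
      ((wdist (XX π b) y w + wdist (XX π b) z w - wdist (XX π b) y z) / 2)
    have := min_le_left ((wdist (XX π b) x w + wdist (XX π b) y w - wdist (XX π b) x y) / 2)
      ((wdist (XX π b) y w + wdist (XX π b) z w - wdist (XX π b) y z) / 2)
    linarith
  · rw [h] at hfp
    have := min_le_right ((wdist (XX π b) x w + wdist (XX π b) y w - wdist (XX π b) x y) / 2)
      ((wdist (XX π b) y w + wdist (XX π b) z w - wdist (XX π b) y z) / 2)
    have := min_le_left ((wdist (XX π b) x w + wdist (XX π b) y w - wdist (XX π b) x y) / 2)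
      ((wdist (XX π b) y w + wdist (XX π b) z w - wdist (XX π b) y z) / 2)
    linarith

/-! ### Boundary points -/

theorem prod_lower {π : G →* ZwrZ} (hπ : Function.Surjective π) {b : ℝ} (hb : 1 < b) (x y : G) :
    NN b (π x) 1 + NN b (π y) 1 - NN b (π x) (π y) - CC b - 2 ≤ gromovProd (XX π b) x y 1 := by
  have d1 := (wdist_bounds hπ hb x 1).1
  have d2 := (wdist_bounds hπ hb y 1).1
  have d3 := (wdist_bounds hπ hb x y).2
  rw [map_one, ht_one] at d1 d2
  push_cast at d1 d2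
  unfold gromovProd
  linarith

theorem prod_upper {π : G →* ZwrZ} (hπ : Function.Surjective π) {b : ℝ} (hb : 1 < b) (x y : G) :
    gromovProd (XX π b) x y 1 ≤ NN b (π x) 1 + NN b (π y) 1 - NN b (π x) (π y) + CC b + 3 := by
  have d1 := (wdist_bounds hπ hb x 1).2
  have d2 := (wdist_bounds hπ hb y 1).2
  have d3 := (wdist_bounds hπ hb x y).1
  have hC := CC_nonneg b
  rw [map_one, ht_one] at d1 d2
  push_cast at d1 d2
  unfold gromovProd
  linarith

theorem le_NN_left {b : ℝ} (hb : 1 < b) (x y : ZwrZ) : -(ht x : ℝ) ≤ NN b x y := by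
  have hb0 : 0 < b := by linarith
  have h1 : b ^ (-ht x) ≤ FF b x y := (le_max_left _ _).trans (le_max_left _ _)
  have h2 := Real.logb_le_logb_of_le hb (zpow_pos hb0 _) h1
  rw [logb_zpow_self hb] at h2
  push_cast at h2
  exact h2

theorem le_NN_right {b : ℝ} (hb : 1 < b) (x y : ZwrZ) : -(ht y : ℝ) ≤ NN b x y := by
  rw [NN_comm]; exact le_NN_left hb y x

theorem NN_le {b : ℝ} (hb : 1 < b) {x y : ZwrZ} {n : ℤ} (h1 : -ht x ≤ n) (h2 : -ht y ≤ n)
    (h3 : nrm b (lamp y - lamp x) ≤ b ^ n) : NN b x y ≤ n := by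
  have hb0 : 0 < b := by linarith
  have h4 : FF b x y ≤ b ^ n :=
    max_le (max_le ((zpow_le_zpow_iff_right₀ hb).2 h1) ((zpow_le_zpow_iff_right₀ hb).2 h2)) h3
  have h5 := Real.logb_le_logb_of_le hb (FF_pos hb0 x y) h4
  rwa [logb_zpow_self hb] at h5

theorem loxo {π : G →* ZwrZ} (hπ : Function.Surjective π) {b : ℝ} (hb : 1 < b) {t : G}
    (t1 : lamp (π t) = 0) (t2 : ht (π t) = 1) : IsLoxodromic (XX π b) t := by
  refine ⟨1, CC b + 3, one_pos, fun n => ?_⟩
  have hpow : lamp (π (t ^ n)) = 0 ∧ ht (π (t ^ n)) = n := by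
    rw [map_zpow]
    obtain ⟨k, rfl | rfl⟩ := n.eq_nat_or_neg
    · rw [zpow_natCast]; exact lamp_pow_t t1 t2 k
    · have := lamp_pow_t t1 t2 k
      rw [zpow_neg, zpow_natCast, lamp_inv, ht_inv, this.1, this.2, map_zero, neg_zero]
      exact ⟨rfl, rfl⟩
  have hN : NN b 1 (π (t ^ n)) = max 0 (-(n : ℝ)) := by
    have hFF : FF b 1 (π (t ^ n)) = b ^ (max 0 (-n)) := by
      rw [FF, hpow.1, hpow.2, ht_one, lamp_one, sub_zero, nrm_zero, neg_zero]
      rcases le_total 0 (-n) with h | h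
      · rw [max_eq_right h, max_eq_right ((zpow_le_zpow_iff_right₀ hb).2 h),
          max_eq_left (zpow_pos (by linarith) _).le]
      · rw [max_eq_left h, max_eq_left ((zpow_le_zpow_iff_right₀ hb).2 h),
          max_eq_left (zpow_pos (by linarith) _).le]
    rw [NN, hFF, logb_zpow_self hb]
    push_cast
    rfl
  have h := wdist_bounds hπ hb 1 (t ^ n)
  rw [map_one, hN, hpow.2, ht_one] at h
  have habs : 2 * max 0 (-(n : ℝ)) + n = |(n : ℝ)| := by
    rcases le_total 0 (n : ℝ) with h | h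
    · rw [abs_of_nonneg h, max_eq_left (by linarith)]; ring
    · rw [abs_of_nonpos h, max_eq_right (by linarith)]; ring
  have hC := CC_nonneg b
  push_cast at h
  rw [one_mul, inv_one, one_mul]
  constructor <;> linarith [h.1, h.2]

theorem qp {π : G →* ZwrZ} (hπ : Function.Surjective π) {b : ℝ} (hb : 1 < b) :
    IsQuasiParabolic (XX π b) := by
  have hb0 : 0 < b := by linarith
  obtain ⟨t, ht'⟩ := hπ (mkW 0 1)
  have t1 : lamp (π t) = 0 := by rw [ht']; rfl
  have t2 : ht (π t) = 1 := by rw [ht']; rfl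
  refine ⟨XX_gen hπ hb, XX_hyp hπ hb, ⟨t, loxo hπ hb t1 t2⟩, ?_, ?_⟩
  · -- the fixed point
    have hs : ∀ n : ℕ, lamp (π ((t ^ n)⁻¹)) = 0 ∧ ht (π ((t ^ n)⁻¹)) = -n := by
      intro n
      have := lamp_pow_t t1 t2 n
      rw [map_inv, map_pow, lamp_inv, ht_inv, this.1, this.2, map_zero, neg_zero]
      exact ⟨rfl, rfl⟩
    have hconv : ConvInfty (XX π b) fun n => (t ^ n)⁻¹ := by
      intro R
      obtain ⟨N, hN⟩ := exists_nat_ge (R + CC b + 2)
      refine ⟨N, fun m n hm hn => ?_⟩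
      have h1 := prod_lower hπ hb ((t ^ m)⁻¹) ((t ^ n)⁻¹)
      have h2 := le_NN_left hb (π ((t ^ m)⁻¹)) 1
      have h3 := le_NN_left hb (π ((t ^ n)⁻¹)) 1
      have h4 : NN b (π ((t ^ m)⁻¹)) (π ((t ^ n)⁻¹)) ≤ ((max m n : ℕ) : ℤ) := by
        refine NN_le hb ?_ ?_ ?_
        · rw [(hs m).2]; push_cast; simp
        · rw [(hs n).2]; push_cast; simp
        · rw [(hs m).1, (hs n).1, sub_zero, nrm_zero]; exact (zpow_pos hb0 _).le
      rw [(hs m).2] at h2
      rw [(hs n).2] at h3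
      push_cast at h2 h3 h4
      have hm' : (N : ℝ) ≤ m := by exact_mod_cast hm
      have hn' : (N : ℝ) ≤ n := by exact_mod_cast hn
      rcases le_total (m : ℝ) n with h | h
      · rw [max_eq_right h] at h4; linarith
      · rw [max_eq_left h] at h4; linarith
    refine ⟨Quotient.mk (bdSetoid (XX π b) (XX_gen hπ hb) (XX_hyp hπ hb)) ⟨_, hconv⟩, fun g => ?_⟩
    refine Quotient.sound (s := bdSetoid (XX π b) (XX_gen hπ hb) (XX_hyp hπ hb)) ?_
    intro R
    -- choose `K` bounding the data of `g`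
    obtain ⟨K, hK⟩ := exists_nat_ge (|((ht (π g) : ℤ) : ℝ)|)
    obtain ⟨L, hL⟩ := pow_unbounded_of_one_lt (nrm b (lamp (π g))) hb
    obtain ⟨N, hN⟩ := exists_nat_ge (R + CC b + 2 + 2 * K)
    refine ⟨max N L, fun n hn => ?_⟩
    have hnN : N ≤ n := (le_max_left _ _).trans hn
    have hnL : L ≤ n := (le_max_right _ _).trans hn
    change R ≤ gromovProd (XX π b) (g * (t ^ n)⁻¹) ((t ^ n)⁻¹) 1
    have e1 : lamp (π (g * (t ^ n)⁻¹)) = lamp (π g) := by
      rw [map_mul, lamp_mul, (hs n).1, map_zero, add_zero]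
    have e2 : ht (π (g * (t ^ n)⁻¹)) = ht (π g) - n := by
      rw [map_mul, ht_mul, (hs n).2]; ring
    have hKi : |ht (π g)| ≤ K := by
      have : ((|ht (π g)| : ℤ) : ℝ) ≤ ((K : ℤ) : ℝ) := by push_cast; exact hK
      exact_mod_cast this
    have hK1 := neg_abs_le (ht (π g))
    have hK2 := le_abs_self (ht (π g))
    have h1 := prod_lower hπ hb (g * (t ^ n)⁻¹) ((t ^ n)⁻¹)
    have h2 := le_NN_left hb (π (g * (t ^ n)⁻¹)) 1
    have h3 := le_NN_left hb (π ((t ^ n)⁻¹)) 1
    have h4 : NN b (π (g * (t ^ n)⁻¹)) (π ((t ^ n)⁻¹)) ≤ ((n + K : ℕ) : ℤ) := by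
      refine NN_le hb ?_ ?_ ?_
      · rw [e2]; push_cast; omega
      · rw [(hs n).2]; push_cast; omega
      · rw [e1, (hs n).1, zero_sub, nrm_neg, zpow_natCast]
        exact hL.le.trans (pow_le_pow_right₀ hb.le (by omega))
    rw [e2] at h2
    rw [(hs n).2] at h3
    push_cast at h2 h3 h4
    have hn' : (N : ℝ) ≤ n := by exact_mod_cast hnN
    have hKr : ((ht (π g) : ℤ) : ℝ) ≤ K := (le_abs_self _).trans hK
    linarith
  · -- infinitely many boundary points
    choose h hh using fun j : ℕ => hπ (mkW (Finsupp.single 0 (j : ℤ)) 0)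
    have hs : ∀ j n : ℕ, lamp (π (h j * t ^ n)) = Finsupp.single 0 (j : ℤ) ∧
        ht (π (h j * t ^ n)) = n := by
      intro j n
      have := lamp_pow_t t1 t2 n
      rw [map_mul, map_pow, lamp_mul, ht_mul, this.1, this.2, hh j, map_zero, add_zero, lamp_mk,
        ht_mk, zero_add]
      exact ⟨rfl, rfl⟩
    have hN0 : ∀ x : ZwrZ, 0 ≤ NN b x 1 := by
      intro x
      have := le_NN_right hb x 1
      rw [ht_one] at this
      simpa using this
    have hconv : ∀ j : ℕ, ConvInfty (XX π b) fun n => h j * t ^ n := by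
      intro j R
      obtain ⟨N, hN⟩ := exists_nat_ge (R + CC b + 2)
      refine ⟨N, fun m n hm hn => ?_⟩
      have h1 := prod_lower hπ hb (h j * t ^ m) (h j * t ^ n)
      have h2 := hN0 (π (h j * t ^ m))
      have h3 := hN0 (π (h j * t ^ n))
      have h4 : NN b (π (h j * t ^ m)) (π (h j * t ^ n)) ≤ ((-(N : ℤ) : ℤ) : ℝ) := by
        refine NN_le hb ?_ ?_ ?_
        · rw [(hs j m).2]; omega
        · rw [(hs j n).2]; omega
        · rw [(hs j m).1, (hs j n).1, sub_self, nrm_zero]; exact (zpow_pos hb0 _).le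
      push_cast at h4
      linarith
    let p : ℕ → {s : ℕ → G // ConvInfty (XX π b) s} := fun j => ⟨fun n => h j * t ^ n, hconv j⟩
    have hlim : ∀ j : ℕ, Quotient.mk (bdSetoid (XX π b) (XX_gen hπ hb) (XX_hyp hπ hb))
        (p j) ∈ limitSet (XX π b) (XX_gen hπ hb) (XX_hyp hπ hb) :=
      fun j => ⟨p j, fun n => ⟨h j * t ^ n, (mul_one _).symm⟩, rfl⟩
    refine Set.infinite_of_injective_forall_mem
      (f := fun j => Quotient.mk (bdSetoid (XX π b) (XX_gen hπ hb) (XX_hyp hπ hb)) (p j)) ?_ hlim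
    intro j k hjk
    by_contra hne
    have heq' : (bdSetoid (XX π b) (XX_gen hπ hb) (XX_hyp hπ hb)).r (p j) (p k) :=
      Quotient.exact hjk
    have heq : SeqEquiv (XX π b) (fun n => h j * t ^ n) (fun n => h k * t ^ n) := heq'
    -- an upper bound for the Gromov products
    obtain ⟨L, hL⟩ := pow_unbounded_of_one_lt (max 1 (max (j : ℝ) (k : ℝ))) hb
    obtain ⟨N, hN⟩ := heq (2 * L + CC b + 4)
    have h1 := hN N le_rfl
    have h2 := prod_upper hπ hb (h j * t ^ N) (h k * t ^ N)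
    have hj : NN b (π (h j * t ^ N)) 1 ≤ ((L : ℤ) : ℝ) := by
      refine NN_le hb ?_ ?_ ?_
      · rw [(hs j N).2]; omega
      · rw [ht_one]; omega
      · rw [(hs j N).1, lamp_one, zero_sub, nrm_neg, nrm_single, zpow_natCast]
        have : (j : ℝ) ≤ b ^ L := ((le_max_left _ _).trans (le_max_right _ _)).trans hL.le
        simpa using this
    have hk : NN b (π (h k * t ^ N)) 1 ≤ ((L : ℤ) : ℝ) := by
      refine NN_le hb ?_ ?_ ?_
      · rw [(hs k N).2]; omega
      · rw [ht_one]; omega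
      · rw [(hs k N).1, lamp_one, zero_sub, nrm_neg, nrm_single, zpow_natCast]
        have : (k : ℝ) ≤ b ^ L := ((le_max_right _ _).trans (le_max_right _ _)).trans hL.le
        simpa using this
    have hjk0 : 0 ≤ NN b (π (h j * t ^ N)) (π (h k * t ^ N)) := by
      refine Real.logb_nonneg hb ?_
      refine le_trans ?_ (le_max_right _ _)
      rw [(hs j N).1, (hs k N).1, ← Finsupp.single_sub, nrm_single]
      have hz : ((k : ℤ) - j) ≠ 0 := by
        intro h
        apply hne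
        omega
      have : (1 : ℝ) ≤ |(((k : ℤ) - j : ℤ) : ℝ)| := by
        have h5 : (1 : ℤ) ≤ |(k : ℤ) - j| := Int.one_le_abs hz
        exact_mod_cast h5
      simpa using this
    push_cast at hj hk
    linarith

/-! ### The order -/

theorem XX_mono {π : G →* ZwrZ} {b b' : ℝ} (hb : 1 < b) (hbb : b ≤ b') : XX π b ⊆ XX π b' := by
  have hb0 : 0 < b := by linarith
  rintro g (h | ⟨h1, h2⟩)
  · exact Or.inl h
  · refine Or.inr ⟨h1, le_trans (Finset.sum_le_sum fun i hi => ?_) h2⟩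
    refine mul_le_mul_of_nonneg_left ?_ (abs_nonneg _)
    have hi0 : 0 ≤ i := by
      have h3 : |((lamp (π g) i : ℤ) : ℝ)| * b ^ (-i) ≤ nrm b (lamp (π g)) :=
        Finset.single_le_sum (f := fun i => |((lamp (π g) i : ℤ) : ℝ)| * b ^ (-i))
          (fun _ _ => mul_nonneg (abs_nonneg _) (zpow_pos hb0 _).le) hi
      have h4 : (1 : ℝ) ≤ |((lamp (π g) i : ℤ) : ℝ)| := by
        have h5 : (1 : ℤ) ≤ |lamp (π g) i| := Int.one_le_abs (Finsupp.mem_support_iff.1 hi)
        exact_mod_cast h5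
      have h6 : b ^ (-i) ≤ b ^ (0 : ℤ) := by
        rw [zpow_zero]
        have h7 : 0 < b ^ (-i) := zpow_pos hb0 _
        nlinarith
      have := (zpow_le_zpow_iff_right₀ hb).1 h6
      omega
    rw [zpow_neg, zpow_neg]
    exact inv_anti₀ (zpow_pos hb0 _) (zpow_le_zpow_left₀ hi0 hb0.le hbb)

/-- The generating set as an element of the preorder. -/
def genX {π : G →* ZwrZ} (hπ : Function.Surjective π) {b : ℝ} (hb : 1 < b) : GenSet G :=
  ⟨XX π b, XX_gen hπ hb⟩

theorem genX_le {π : G →* ZwrZ} (hπ : Function.Surjective π) {b b' : ℝ} (hb : 1 < b)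
    (hb' : 1 < b') (hbb : b ≤ b') : genX hπ hb' ≤ genX hπ hb :=
  ⟨1, fun _ hy => wordLen_le_one _ (XX_mono hb hbb hy)⟩

theorem genX_not_le {π : G →* ZwrZ} (hπ : Function.Surjective π) {b b' : ℝ} (hb : 1 < b)
    (hb' : 1 < b') (hbb : b < b') : ¬ genX hπ hb ≤ genX hπ hb' := by
  have hb0 : 0 < b := by linarith
  have hb0' : 0 < b' := by linarith
  rintro ⟨C, hC⟩
  -- elements of norm at most one for `b'` and of large norm for `b`
  have hratio : 1 < b' / b := (one_lt_div hb0).2 hbb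
  obtain ⟨i, hi⟩ := pow_unbounded_of_one_lt ((C : ℝ) * b ^ C + 1) hratio
  obtain ⟨y, hy⟩ := hπ (mkW (Finsupp.single (i : ℤ) ⌊b' ^ i⌋) 0)
  have hfl : (⌊b' ^ i⌋ : ℝ) ≤ b' ^ i := Int.floor_le _
  have hfl0 : (0 : ℝ) ≤ (⌊b' ^ i⌋ : ℝ) := by
    exact_mod_cast Int.floor_nonneg.2 (pow_pos hb0' _).le
  have hymem : y ∈ XX π b' := by
    right
    rw [hy, ht_mk, lamp_mk, nrm_single, abs_of_nonneg hfl0, zpow_neg, zpow_natCast]
    refine ⟨rfl, ?_⟩
    rw [mul_inv_le_iff₀ (pow_pos hb0' _), one_mul]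
    exact hfl
  have h1 := hC y hymem
  obtain ⟨l0, hl0, hp0, _⟩ := exists_word hπ hb y
  obtain ⟨l, hl, hp, hlen⟩ : ∃ l : List G, (∀ x ∈ l, x ∈ XX π b ∨ x⁻¹ ∈ XX π b) ∧ l.prod = y ∧
      l.length = wordLen (XX π b) y :=
    Nat.sInf_mem (s := {n | ∃ l : List G, (∀ x ∈ l, x ∈ XX π b ∨ x⁻¹ ∈ XX π b) ∧
      l.prod = y ∧ l.length = n}) ⟨l0.length, l0, hl0, hp0, rfl⟩
  obtain ⟨D, k, h2, h3, h4⟩ := word_bound hb l hl
  rw [hp, hy, ht_mk, hlen] at h2
  have h1' : wordLen (XX π b) y ≤ C := h1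
  rw [hp, hy, lamp_mk, nrm_single, abs_of_nonneg hfl0, zpow_neg, zpow_natCast] at h4
  have hD : D ≤ C := by omega
  have hk : k ≤ C := by omega
  have h5 : (k : ℝ) * b ^ D ≤ C * b ^ C :=
    mul_le_mul (by exact_mod_cast hk) (pow_le_pow_right₀ hb.le hD) (pow_pos hb0 _).le
      (Nat.cast_nonneg _)
  have h6 : b' ^ i - 1 < (⌊b' ^ i⌋ : ℝ) := Int.sub_one_lt_floor _
  have hbi : 0 < b ^ i := pow_pos hb0 _
  have hbi1 : 1 ≤ b ^ i := one_le_pow₀ hb.le
  rw [div_pow, lt_div_iff₀ hbi] at hi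
  have h7 : (⌊b' ^ i⌋ : ℝ) ≤ C * b ^ C * b ^ i := by
    rw [← div_eq_mul_inv, div_le_iff₀ hbi] at h4
    exact h4.trans (mul_le_mul_of_nonneg_right h5 hbi.le)
  have h8 : ((C : ℝ) * b ^ C + 1) * b ^ i = C * b ^ C * b ^ i + b ^ i := by ring
  linarith

/-- **Chains of the order type of the real line.** -/
theorem exists_chain {π : G →* ZwrZ} (hπ : Function.Surjective π) :
    ∃ f : ℝ → Classes G, StrictMono f ∧ ∀ r, f r ∈ Hqp G := by
  have hb : ∀ r : ℝ, 1 < 1 + Real.exp (-r) := fun r => by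
    have := Real.exp_pos (-r); linarith
  refine ⟨fun r => toAntisymmetrization (· ≤ ·) (genX hπ (hb r)), ?_, ?_⟩
  · intro r s hrs
    have hlt : 1 + Real.exp (-s) < 1 + Real.exp (-r) := by
      have := Real.exp_lt_exp.2 (neg_lt_neg hrs)
      linarith
    rw [toAntisymmetrization_lt_toAntisymmetrization_iff]
    exact lt_of_le_not_ge (genX_le hπ (hb s) (hb r) hlt.le) (genX_not_le hπ (hb s) (hb r) hlt)
  · intro r
    exact ⟨genX hπ (hb r), rfl, qp hπ (hb r)⟩

end Q32.Hyp
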