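import Pool.Agent.Q32.Word

/-!
Hyperbolic structures on groups: definitions.
-/

namespace Q32.Hyp

variable {G : Type*} [Group G]

/-- The word length `|g|_X`: the least `n` such that `g` is a product of `n` elements of
`X ∪ X⁻¹`. -/
noncomputable def wordLen (X : Set G) (g : G) : ℕ :=
  sInf {n | ∃ l : List G, (∀ x ∈ l, x ∈ X ∨ x⁻¹ ∈ X) ∧ l.prod = g ∧ l.length = n}

/-- The metric of the vertex set of the Cayley graph `Γ(G,X)`. -/
noncomputable def wdist (X : Set G) (x y : G) : ℝ := wordLen X (x⁻¹ * y)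

/-- The Gromov product `(x|y)_w`. -/
noncomputable def gromovProd (X : Set G) (x y w : G) : ℝ :=
  (wdist X x w + wdist X y w - wdist X x y) / 2

/-- Gromov hyperbolicity of `Γ(G,X)` (the four-point condition on the vertex set). -/
def IsHyperbolic (X : Set G) : Prop :=
  ∃ δ : ℝ, ∀ x y z w : G,
    min (gromovProd X x y w) (gromovProd X y z w) - δ ≤ gromovProd X x z w

/-- The sequence `s` of vertices of `Γ(G,X)` converges at infinity:
`(s_m | s_n)_1 → ∞` as `m, n → ∞`. -/
def ConvInfty (X : Set G) (s : ℕ → G) : Prop :=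
  ∀ R : ℝ, ∃ N : ℕ, ∀ m n, N ≤ m → N ≤ n → R ≤ gromovProd X (s m) (s n) 1

/-- Two sequences are equivalent when `(s_n | s'_n)_1 → ∞`. -/
def SeqEquiv (X : Set G) (s s' : ℕ → G) : Prop :=
  ∀ R : ℝ, ∃ N : ℕ, ∀ n, N ≤ n → R ≤ gromovProd X (s n) (s' n) 1

theorem gromovProd_comm (X : Set G) (hgen : Subgroup.closure X = ⊤) (x y w : G) :
    gromovProd X x y w = gromovProd X y x w := by
  have hS : Subgroup.closure {x : G | x ∈ X ∨ x⁻¹ ∈ X} = ⊤ := by
    rw [eq_top_iff, ← hgen]; exact Subgroup.closure_mono fun x hx => Or.inl hx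
  have hinv : ∀ s ∈ {x : G | x ∈ X ∨ x⁻¹ ∈ X}, s⁻¹ ∈ {x : G | x ∈ X ∨ x⁻¹ ∈ X} := by
    rintro s (h | h)
    · exact Or.inr (by simpa using h)
    · exact Or.inl h
  have h := wl_inv hS hinv (x⁻¹ * y)
  have h' : wordLen X (y⁻¹ * x) = wordLen X (x⁻¹ * y) := by
    rw [mul_inv_rev, inv_inv] at h; exact h
  unfold gromovProd wdist
  rw [h']; ring

/-- The equivalence relation on sequences converging at infinity. -/
def bdSetoid (X : Set G) (hgen : Subgroup.closure X = ⊤) (hX : IsHyperbolic X) :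
    Setoid {s : ℕ → G // ConvInfty X s} where
  r s s' := SeqEquiv X s.1 s'.1
  iseqv :=
    { refl := fun s R => (s.2 R).imp fun _ h n hn => h n n hn hn
      symm := fun {s s'} h R => (h R).imp fun _ h n hn => by
        rw [gromovProd_comm X hgen]; exact h n hn
      trans := fun {s s' s''} h h' R => by
        obtain ⟨δ, hδ⟩ := hX
        obtain ⟨N, hN⟩ := h (R + δ)
        obtain ⟨N', hN'⟩ := h' (R + δ)
        refine ⟨max N N', fun n hn => ?_⟩
        have h1 := hN n (le_trans (le_max_left _ _) hn)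
        have h2 := hN' n (le_trans (le_max_right _ _) hn)
        have h3 := hδ (s.1 n) (s'.1 n) (s''.1 n) 1
        have h4 := le_min h1 h2
        linarith }

/-- The Gromov boundary of `Γ(G,X)`: classes of sequences of vertices converging at infinity. -/
def Boundary (X : Set G) (hgen : Subgroup.closure X = ⊤) (hX : IsHyperbolic X) : Type _ :=
  Quotient (bdSetoid X hgen hX)

theorem wdist_mul_left (X : Set G) (g x y : G) : wdist X (g * x) (g * y) = wdist X x y := by
  unfold wdist
  rw [mul_inv_rev, mul_assoc, inv_mul_cancel_left]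

theorem wdist_triangle (X : Set G) (hgen : Subgroup.closure X = ⊤) (x y z : G) :
    wdist X x z ≤ wdist X x y + wdist X y z := by
  have hS : Subgroup.closure {x : G | x ∈ X ∨ x⁻¹ ∈ X} = ⊤ := by
    rw [eq_top_iff, ← hgen]; exact Subgroup.closure_mono fun x hx => Or.inl hx
  have hinv : ∀ s ∈ {x : G | x ∈ X ∨ x⁻¹ ∈ X}, s⁻¹ ∈ {x : G | x ∈ X ∨ x⁻¹ ∈ X} := by
    rintro s (h | h)
    · exact Or.inr (by simpa using h)
    · exact Or.inl h
  have h := wl_mul_le hS hinv (x⁻¹ * y) (y⁻¹ * z)
  rw [mul_assoc, mul_inv_cancel_left] at h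
  have h' : wordLen X (x⁻¹ * z) ≤ wordLen X (x⁻¹ * y) + wordLen X (y⁻¹ * z) := h
  unfold wdist
  exact_mod_cast h'

theorem wdist_comm (X : Set G) (hgen : Subgroup.closure X = ⊤) (x y : G) :
    wdist X x y = wdist X y x := by
  have h := gromovProd_comm X hgen x y 1
  unfold gromovProd at h
  linarith

/-- Translating the two points changes the Gromov product by a bounded amount. -/
theorem gromovProd_translate (X : Set G) (hgen : Subgroup.closure X = ⊤) (g x y : G) :
    gromovProd X x y 1 - wdist X 1 g ≤ gromovProd X (g * x) (g * y) 1 := by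
  have h1 := wdist_triangle X hgen x g⁻¹ 1
  have h2 := wdist_triangle X hgen y g⁻¹ 1
  have e1 : wdist X (g * x) 1 = wdist X x g⁻¹ := by
    have := wdist_mul_left X g x g⁻¹
    rwa [mul_inv_cancel] at this
  have e2 : wdist X (g * y) 1 = wdist X y g⁻¹ := by
    have := wdist_mul_left X g y g⁻¹
    rwa [mul_inv_cancel] at this
  have e3 : wdist X g⁻¹ 1 = wdist X 1 g := by
    have := wdist_mul_left X g g⁻¹ 1
    rw [mul_inv_cancel, mul_one] at this
    exact this.symm
  unfold gromovProd
  rw [e1, e2, wdist_mul_left]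
  linarith

theorem ConvInfty.translate {X : Set G} (hgen : Subgroup.closure X = ⊤) {s : ℕ → G}
    (hs : ConvInfty X s) (g : G) : ConvInfty X fun n => g * s n := by
  intro R
  obtain ⟨N, hN⟩ := hs (R + wdist X 1 g)
  refine ⟨N, fun m n hm hn => ?_⟩
  have h1 := hN m n hm hn
  have h2 := gromovProd_translate X hgen g (s m) (s n)
  linarith

/-- The action of `G` on the boundary, induced by left multiplication. -/
def bdAct (X : Set G) (hgen : Subgroup.closure X = ⊤) (hX : IsHyperbolic X) (g : G) :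
    Boundary X hgen hX → Boundary X hgen hX :=
  Quotient.map' (s₁ := bdSetoid X hgen hX) (s₂ := bdSetoid X hgen hX)
    (fun s => ⟨fun n => g * s.1 n, s.2.translate hgen g⟩) (by
      intro s s' h R
      obtain ⟨N, hN⟩ := h (R + wdist X 1 g)
      refine ⟨N, fun n hn => ?_⟩
      have h1 := hN n hn
      have h2 := gromovProd_translate X hgen g (s.1 n) (s'.1 n)
      change R ≤ gromovProd X (g * s.1 n) (g * s'.1 n) 1
      linarith)

/-- The limit set of `G`: the boundary points that are limits of sequences in the orbit `G · 1`. -/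
def limitSet (X : Set G) (hgen : Subgroup.closure X = ⊤) (hX : IsHyperbolic X) :
    Set (Boundary X hgen hX) :=
  {ξ | ∃ s : {s : ℕ → G // ConvInfty X s}, (∀ n, ∃ g : G, s.1 n = g * 1) ∧
    Quotient.mk (bdSetoid X hgen hX) s = ξ}

/-- `g` is loxodromic: `n ↦ g ^ n` is a quasi-isometric embedding of `ℤ`. -/
def IsLoxodromic (X : Set G) (g : G) : Prop :=
  ∃ c C : ℝ, 0 < c ∧ ∀ n : ℤ,
    c * |(n : ℝ)| - C ≤ wdist X 1 (g ^ n) ∧ wdist X 1 (g ^ n) ≤ c⁻¹ * |(n : ℝ)| + C

/-- `X` is a generating set, `Γ(G,X)` is hyperbolic, and the action of `G` on it is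
quasi-parabolic. -/
def IsQuasiParabolic (X : Set G) : Prop :=
  ∃ (hgen : Subgroup.closure X = ⊤) (hX : IsHyperbolic X),
    (∃ g, IsLoxodromic X g) ∧ (∃ ξ : Boundary X hgen hX, ∀ g, bdAct X hgen hX g ξ = ξ) ∧
    (limitSet X hgen hX).Infinite

/-- Generating sets of `G`. -/
structure GenSet (G : Type*) [Group G] where
  /-- the underlying set -/
  carrier : Set G
  /-- it generates `G` -/
  gen : Subgroup.closure carrier = ⊤

/-- `X ⪯ Y` when `sup_{y ∈ Y} |y|_X < ∞`. -/
def Dominates (X Y : GenSet G) : Prop := ∃ C : ℕ, ∀ y ∈ Y.carrier, wordLen X.carrier y ≤ C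

theorem wordLen_le_one (X : Set G) {x : G} (hx : x ∈ X) : wordLen X x ≤ 1 :=
  Nat.sInf_le ⟨[x], by simpa using Or.inl hx, by simp, rfl⟩

theorem Dominates.trans {X Y Z : GenSet G} (h : Dominates X Y) (h' : Dominates Y Z) :
    Dominates X Z := by
  obtain ⟨C, hC⟩ := h
  obtain ⟨C', hC'⟩ := h'
  have hS : ∀ X : GenSet G, Subgroup.closure {x : G | x ∈ X.carrier ∨ x⁻¹ ∈ X.carrier} = ⊤ := by
    intro X
    rw [eq_top_iff, ← X.gen]; exact Subgroup.closure_mono fun x hx => Or.inl hx
  have hinv : ∀ X : GenSet G, ∀ s ∈ {x : G | x ∈ X.carrier ∨ x⁻¹ ∈ X.carrier},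
      s⁻¹ ∈ {x : G | x ∈ X.carrier ∨ x⁻¹ ∈ X.carrier} := by
    rintro X s (h | h)
    · exact Or.inr (by simpa using h)
    · exact Or.inl h
  have key : ∀ l : List G, (∀ y ∈ l, y ∈ Y.carrier ∨ y⁻¹ ∈ Y.carrier) →
      wordLen X.carrier l.prod ≤ C * l.length := by
    intro l
    induction l with
    | nil =>
      intro _
      have : wordLen X.carrier (1 : G) = 0 := wl_one _
      simp [this]
    | cons y l ih =>
      intro hl
      have h1 : wordLen X.carrier (y * l.prod) ≤ wordLen X.carrier y + wordLen X.carrier l.prod :=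
        wl_mul_le (hS X) (hinv X) _ _
      have h2 := ih fun y hy => hl y (List.mem_cons_of_mem _ hy)
      have h3 : wordLen X.carrier y ≤ C := by
        rcases hl y List.mem_cons_self with hy | hy
        · exact hC y hy
        · have h4 : wordLen X.carrier y⁻¹ = wordLen X.carrier y := wl_inv (hS X) (hinv X) y
          rw [← h4]; exact hC _ hy
      rw [List.prod_cons, List.length_cons, mul_add, mul_one]
      omega
  refine ⟨C * C', fun z hz => ?_⟩
  obtain ⟨l, hl, hp, hlen⟩ := exists_geod (hS Y) (hinv Y) z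
  have h1 := key l hl
  rw [hp, hlen] at h1
  exact h1.trans (Nat.mul_le_mul_left C (hC' z hz))

/-- The preorder on generating sets. -/
instance : Preorder (GenSet G) where
  le := Dominates
  le_refl X := ⟨1, fun _ hy => wordLen_le_one _ hy⟩
  le_trans _ _ _ h h' := h.trans h'

/-- The poset of classes of generating sets, ordered by `⪯`. -/
abbrev Classes (G : Type*) [Group G] : Type _ := Antisymmetrization (GenSet G) (· ≤ ·)

/-- The subset `H_qp(G)` of the poset of classes of generating sets. -/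
def Hqp (G : Type*) [Group G] : Set (Classes G) :=
  {c | ∃ X : GenSet G, toAntisymmetrization (· ≤ ·) X = c ∧ IsQuasiParabolic X.carrier}

/-- The action of `ℤ` on `⨁_ℤ ℤ` by shifting coordinates. -/
noncomputable def shift : Multiplicative ℤ →* MulAut (Multiplicative (ℤ →₀ ℤ)) where
  toFun n := AddEquiv.toMultiplicative
    (Finsupp.domCongr (Equiv.addLeft (Multiplicative.toAdd n)) : (ℤ →₀ ℤ) ≃+ (ℤ →₀ ℤ))
  map_one' := by
    ext f : 1
    apply Multiplicative.toAdd.injective
    ext i
    change (Multiplicative.toAdd f) (-0 + i) = (Multiplicative.toAdd f) i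
    rw [neg_zero, zero_add]
  map_mul' m n := by
    ext f : 1
    apply Multiplicative.toAdd.injective
    ext i
    change (Multiplicative.toAdd f) (-(Multiplicative.toAdd m + Multiplicative.toAdd n) + i) =
      (Multiplicative.toAdd f) (-Multiplicative.toAdd n + (-Multiplicative.toAdd m + i))
    congr 1
    ring

/-- The restricted wreath product `ℤ ≀ ℤ = (⨁_ℤ ℤ) ⋊ ℤ`. -/
abbrev ZwrZ : Type := Multiplicative (ℤ →₀ ℤ) ⋊[shift] Multiplicative ℤ

end Q32.Hyp
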