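import Pool.Agent.Q32.PaintWin

set_option autoImplicit false

/-!
# A small gadget for the painting game

The graph has seven vertices; with token numbers `3, 2, 2, 2, 2, 4, 3` Painter wins.
-/

namespace Pool.Agent.Q32.Paint

/-- the vertices of the gadget -/
inductive X
  | x0 | x1 | x2 | x3 | x4 | x5 | x6
deriving DecidableEq

open X

instance : Fintype X where
  elems := {x0, x1, x2, x3, x4, x5, x6}
  complete := by intro v; cases v <;> decide

/-- adjacency of the gadget -/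
def adj : X → X → Bool
  | x0, x3 => true | x3, x0 => true
  | x0, x4 => true | x4, x0 => true
  | x1, x4 => true | x4, x1 => true
  | x0, x5 => true | x5, x0 => true
  | x1, x5 => true | x5, x1 => true
  | x2, x5 => true | x5, x2 => true
  | x3, x5 => true | x5, x3 => true
  | x0, x6 => true | x6, x0 => true
  | x2, x6 => true | x6, x2 => true
  | x4, x6 => true | x6, x4 => true
  | x5, x6 => true | x6, x5 => true
  | _, _ => false

theorem adj_symm : ∀ u v : X, adj u v = adj v u := by decide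

theorem adj_irrefl : ∀ u : X, adj u u = false := by decide

/-- position in the list of vertices -/
def idx : X → ℕ
  | x0 => 0 | x1 => 1 | x2 => 2 | x3 => 3 | x4 => 4 | x5 => 5 | x6 => 6

/-- all vertices -/
def xs : List X := [x0, x1, x2, x3, x4, x5, x6]

theorem mem_xs (v : X) : v ∈ xs := by cases v <;> decide

/-- twelve positions that are won by Painter (a zero means that the vertex is absent) -/
def posL : List (List ℕ) := [
  [3, 2, 2, 2, 2, 4, 3],
  [0, 2, 0, 0, 2, 2, 2],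
  [2, 2, 1, 0, 2, 3, 0],
  [2, 2, 1, 2, 2, 4, 0],
  [2, 2, 2, 0, 2, 4, 3],
  [2, 1, 2, 0, 0, 4, 2],
  [3, 0, 2, 2, 0, 3, 2],
  [2, 2, 0, 0, 2, 3, 3],
  [2, 2, 0, 0, 2, 2, 0],
  [2, 0, 2, 0, 0, 3, 2],
  [2, 2, 0, 2, 2, 3, 0],
  [3, 1, 2, 2, 0, 4, 2]
]

/-- the tokens of the `i`-th position -/
def pos (i : ℕ) (v : X) : ℕ := (posL.getD i []).getD (idx v) 0

/-- answers of Painter, coded as numbers -/
def tabL : List (List ℕ) := [
  [0, 515219457, 2, 62742531, 4, 64331781, 64172038, 8216583, 8, 520, 64385034, 63416323, 64253964, 64532485, 8024078, 7972871, 4112, 397778945, 1424, 49782787, 63148052, 49651717, 49491974, 6266887, 62687256, 62099480, 49704970, 664, 8161308, 7573532, 6189070, 6238215, 513331232, 351850528, 183703584, 62742531, 265490464, 64331781, 180248608, 8216583, 371118112, 283037728, 180607008, 40364035, 908, 908, 8024078, 7972871, 63342640, 60346416, 63342640, 49782787, 54775828, 49651717, 23623700, 6266887, 62687256, 5272, 23578648,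 35573808, 8161308, 7573532, 6189070, 6238215, 371431488, 515219457, 54745154, 62742531, 448, 448, 64172038, 8216583, 53135432, 44275784, 6998090, 6510666, 64253964, 64532485, 8024078, 7972871, 4880, 397778945, 1424, 49782787, 63148052, 49651717, 1428, 6266887, 62687256, 62099480, 6998090, 664, 8161308, 7573532, 6189070, 6238215, 7488, 7488, 54745154, 62742531, 265490464, 64331781, 32008258, 8216583, 53135432, 44275784, 6998090, 6510666, 31803464, 328, 8024078, 7972871, 63342640, 60346416, 63342640, 49782787, 4884, 49651717, 33065008, 6266887, 62687256, 5272, 6998090, 5478474, 8161308, 7573532, 6189070, 6238215],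
  [0, 0, 1026050, 0, 0, 0, 0, 0, 0, 0, 0, 0, 0, 0, 0, 0, 1019920, 0, 782338, 0, 0, 0, 0, 0, 0, 0, 0, 0, 0, 0, 0, 0, 1003552, 0, 911362, 0, 0, 0, 0, 0, 0, 0, 0, 0, 0, 0, 0, 0, 118832, 0, 118832, 0, 0, 0, 0, 0, 0, 0, 0, 0, 0, 0, 0, 0, 829504, 0, 108610, 0, 0, 0, 0, 0, 0, 0, 0, 0, 0, 0, 0, 0, 1019920, 0, 108610, 0, 0, 0, 0, 0, 0, 0, 0, 0, 0, 0, 0, 0, 1003552, 0, 108610, 0, 0, 0, 0, 0, 0, 0, 0, 0, 0, 0, 0, 0, 118832, 0, 118832, 0, 0, 0, 0, 0, 0, 0, 0, 0, 0, 0, 0, 0],
  [0, 3975169, 3958786, 501763, 5533700, 829445, 813062, 108551, 0, 0, 0, 0, 0, 0, 0, 0, 3966992, 5681153, 5664770, 501763, 821268, 700421, 684038, 108551, 0, 0, 0, 0, 0, 0, 0, 0, 5670944, 3975169, 3958786, 501763, 1028, 829445, 813062, 108551, 0, 0, 0, 0, 0, 0, 0, 0, 428080, 428080, 428080, 501763, 821268, 700421, 684038, 108551, 0, 0, 0, 0, 0, 0, 0, 0, 0, 0, 0, 0, 0, 0, 0, 0, 0, 0, 0, 0, 0, 0, 0, 0, 0, 0, 0, 0, 0, 0, 0, 0, 0, 0, 0, 0, 0, 0, 0, 0, 0, 0, 0, 0, 0, 0, 0, 0, 0, 0, 0, 0, 0,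 0, 0, 0, 0, 0, 0, 0, 0, 0, 0, 0, 0, 0, 0, 0, 0, 0, 0, 0],
  [0, 31809537, 36939778, 4022275, 43560964, 6643717, 4433926, 876551, 45379592, 37529601, 3958794, 4696067, 5533708, 5023749, 813070, 632839, 36933648, 45457409, 43577346, 4022275, 4427796, 5611525, 5451782, 876551, 3967000, 3379224, 5664778, 4696067, 821276, 233500, 684046, 632839, 43569184, 31809537, 22222880, 4022275, 1284, 6643717, 4433926, 876551, 264, 37529601, 3958794, 4696067, 5533708, 5023749, 813070, 632839, 4622384, 1626160, 4622384, 4022275, 4427796, 5611525, 5451782, 876551, 3967000, 3379224, 5664778, 4696067, 821276, 233500, 684046, 632839, 0, 0, 0, 0, 0, 0, 0, 0, 0, 0, 0, 0, 0, 0, 0, 0, 0, 0, 0, 0, 0, 0, 0, 0, 0, 0, 0, 0, 0, 0, 0, 0, 0, 0, 0, 0, 0, 0, 0, 0, 0, 0, 0, 0, 0, 0, 0, 0, 0, 0, 0, 0, 0, 0, 0, 0, 0, 0, 0, 0, 0, 0, 0, 0],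
  [0, 64401409, 43970562, 7841795, 43954180, 8040453, 5500934, 1026055, 0, 0, 0, 0, 0, 0, 0, 0, 62099472, 49721345, 656, 6221827, 7573524, 6205445, 5500934, 782343, 0, 0, 0, 0, 0, 0, 0, 0, 43962400, 14602272, 22272032, 7841795, 900, 8040453, 5500934, 1026055, 0, 0, 0, 0, 0, 0, 0, 0, 7768112, 2019376, 7768112, 6221827, 7573524, 6205445, 5500934, 782343, 0, 0, 0, 0, 0, 0, 0, 0, 44275776, 64401409, 6510658, 7841795, 45379648, 8040453, 3958850, 1026055, 0, 0, 0, 0, 0, 0, 0, 0, 62099472, 49721345, 656, 6221827, 7573524, 6205445, 7630868, 782343, 0, 0, 0, 0, 0, 0, 0, 0, 44275776, 13998144, 6510658, 7841795, 320, 8040453, 3958850, 1026055, 0, 0, 0, 0, 0, 0, 0, 0, 7768112, 2019376, 7768112, 6221827, 7573524, 6205445, 4098096, 782343, 0, 0, 0, 0, 0, 0, 0, 0],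
  [0, 7778305, 7761922, 978947, 7630852, 962565, 946182, 126983, 0, 0, 0, 0, 0, 0, 0, 0, 0, 0, 0, 0, 0, 0, 0, 0, 0, 0, 0, 0, 0, 0, 0, 0, 7768096, 2019360, 1154, 978947, 4098080, 962565, 946182, 126983, 0, 0, 0, 0, 0, 0, 0, 0, 0, 0, 0, 0, 0, 0, 0, 0, 0, 0, 0, 0, 0, 0, 0, 0, 2934848, 7778305, 837698, 978947, 7630852, 962565, 946182, 126983, 0, 0, 0, 0, 0, 0, 0, 0, 0, 0, 0, 0, 0, 0, 0, 0, 0, 0, 0, 0, 0, 0, 0, 0, 7768096, 2332736, 837698, 978947, 3508288, 962565, 946182, 126983, 0, 0, 0, 0, 0, 0, 0, 0, 0, 0, 0, 0, 0, 0, 0, 0, 0, 0, 0, 0, 0, 0, 0, 0],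
  [0, 7839745, 0, 0, 772, 1024005, 0, 0, 7833608, 1160, 0, 0, 1017868, 995333, 0, 0, 0, 0, 0, 0, 0, 0, 0, 0, 0, 0, 0, 0, 0, 0, 0, 0, 7915552, 7542816, 0, 0, 4130848, 1024005, 0, 0, 7915552, 4446240, 0, 0, 1017868, 636933, 0, 0, 0, 0, 0, 0, 0, 0, 0, 0, 0, 0, 0, 0, 0, 0, 0, 0, 6867008, 7839745, 0, 0, 3999808, 1024005, 0, 0, 837704, 837704, 0, 0, 1017868, 995333, 0, 0, 0, 0, 0, 0, 0, 0, 0, 0, 0, 0, 0, 0, 0, 0, 0, 0, 7915552, 7542816, 0, 0, 3999808, 1024005, 0, 0, 837704, 837704, 0, 0, 1017868, 493640, 0, 0, 0, 0, 0, 0, 0, 0, 0, 0, 0, 0, 0, 0, 0, 0, 0, 0],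
  [0, 8040449, 5500930, 1026051, 0, 0, 0, 0, 0, 0, 0, 0, 0, 0, 0, 0, 7573520, 6205441, 5500930, 782339, 0, 0, 0, 0, 0, 0, 0, 0, 0, 0, 0, 0, 5492768, 6649857, 2783264, 1026051, 0, 0, 0, 0, 0, 0, 0, 0, 0, 0, 0, 0, 952368, 249904, 952368, 782339, 0, 0, 0, 0, 0, 0, 0, 0, 0, 0, 0, 0, 5533760, 8040449, 813122, 1026051, 0, 0, 0, 0, 0, 0, 0, 0, 0, 0, 0, 0, 7573520, 6205441, 684098, 782339, 0, 0, 0, 0, 0, 0, 0, 0, 0, 0, 0, 0, 1088, 129, 813122, 1026051, 0, 0, 0, 0, 0, 0, 0, 0, 0, 0, 0, 0, 952368, 249904, 952368, 782339, 0, 0, 0, 0, 0, 0, 0, 0, 0, 0, 0, 0],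
  [0, 829441, 813058, 108547, 0, 0, 0, 0, 0, 0, 0, 0, 0, 0, 0, 0, 821264, 700417, 684034, 108547, 0, 0, 0, 0, 0, 0, 0, 0, 0, 0, 0, 0, 690208, 829441, 813058, 108547, 0, 0, 0, 0, 0, 0, 0, 0, 0, 0, 0, 0, 34864, 34864, 34864, 108547, 0, 0, 0, 0, 0, 0, 0, 0, 0, 0, 0, 0, 0, 0, 0, 0, 0, 0, 0, 0, 0, 0, 0, 0, 0, 0, 0, 0, 0, 0, 0, 0, 0, 0, 0, 0, 0, 0, 0, 0, 0, 0, 0, 0, 0, 0, 0, 0, 0, 0, 0, 0, 0, 0, 0, 0, 0, 0, 0, 0, 0, 0, 0, 0, 0, 0, 0, 0, 0, 0, 0, 0, 0, 0, 0, 0],
  [0, 978945, 0, 0, 946180, 126981, 0, 0, 0, 0, 0, 0, 0, 0, 0, 0, 0, 0, 0, 0, 0, 0, 0, 0, 0, 0, 0, 0, 0, 0, 0, 0, 968736, 251936, 0, 0, 509984, 126981, 0, 0, 0, 0, 0, 0, 0, 0, 0, 0, 0, 0, 0, 0, 0, 0, 0, 0, 0, 0, 0, 0, 0, 0, 0, 0, 837696, 978945, 0, 0, 946180, 126981, 0, 0, 0, 0, 0, 0, 0, 0, 0, 0, 0, 0, 0, 0, 0, 0, 0, 0, 0, 0, 0, 0, 0, 0, 0, 0, 968736, 235584, 0, 0, 493632, 126981, 0, 0, 0, 0, 0, 0, 0, 0, 0, 0, 0, 0, 0, 0, 0, 0, 0, 0, 0, 0, 0, 0, 0, 0, 0, 0],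
  [0, 6643713, 4433922, 876547, 0, 0, 0, 0, 5533704, 5023745, 813066, 632835, 0, 0, 0, 0, 4427792, 5611521, 5451778, 876547, 0, 0, 0, 0, 821272, 233496, 684042, 632835, 0, 0, 0, 0, 5443616, 6643713, 2777120, 876547, 0, 0, 0, 0, 1032, 5023745, 813066, 632835, 0, 0, 0, 0, 559152, 200752, 559152, 876547, 0, 0, 0, 0, 821272, 233496, 684042, 632835, 0, 0, 0, 0, 0, 0, 0, 0, 0, 0, 0, 0, 0, 0, 0, 0, 0, 0, 0, 0, 0, 0, 0, 0, 0, 0, 0, 0, 0, 0, 0, 0, 0, 0, 0, 0, 0, 0, 0, 0, 0, 0, 0, 0, 0, 0, 0, 0, 0, 0, 0, 0, 0, 0, 0, 0, 0, 0, 0, 0, 0, 0, 0, 0, 0, 0, 0, 0],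
  [0, 62234625, 770, 7839747, 1412, 7708677, 7892998, 1024007, 62228488, 648, 7833610, 7925763, 7702540, 7909381, 1017870, 995335, 0, 0, 0, 0, 0, 0, 0, 0, 0, 0, 0, 0, 0, 0, 0, 0, 63342624, 60346400, 770, 7839747, 33064992, 7708677, 774, 1024007, 63342624, 35573792, 7833610, 1162, 7702540, 4569093, 1017870, 995335, 0, 0, 0, 0, 0, 0, 0, 0, 0, 0, 0, 0, 0, 0, 0, 0, 23644224, 62234625, 6867010, 7839747, 28117056, 7708677, 7892998, 1024007, 2934856, 2934856, 837706, 837706, 7702540, 7909381, 1017870, 995335, 0, 0, 0, 0, 0, 0, 0, 0, 0, 0, 0, 0, 0, 0, 0, 0, 63342624, 60346400, 6867010, 7839747, 28117056, 7708677, 3999810, 1024007, 2934856, 2934856, 837706, 837706, 7702540, 3508296, 1017870, 995335, 0, 0, 0, 0, 0, 0, 0, 0, 0, 0, 0, 0, 0, 0, 0, 0]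
]

/-- decoding of a list of vertices -/
def ordList : ℕ → ℕ → List X
  | 0, _ => []
  | n + 1, c => match c % 8 with
    | 1 => x0 :: ordList n (c / 8)
    | 2 => x1 :: ordList n (c / 8)
    | 3 => x2 :: ordList n (c / 8)
    | 4 => x3 :: ordList n (c / 8)
    | 5 => x4 :: ordList n (c / 8)
    | 6 => x5 :: ordList n (c / 8)
    | 7 => x6 :: ordList n (c / 8)
    | _ => []

/-- removal of vertices with many tokens, followed by a comparison with the `q`-th position -/
def red (e : X → ℕ) (q : ℕ) : List X → (X → Bool) → Bool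
  | [], A => xs.all (fun v => !(A v) || (Nat.ble 1 (pos q v) && Nat.ble (pos q v) (e v)))
  | w :: l, A => Nat.ble ((xs.filter (fun u => A u && adj w u)).length + 1) (e w) &&
      red e q l (fun u => A u && !(Nat.beq (idx u) (idx w)))

/-- the check for the `i`-th position, the set `U` and the answer with the given code -/
def chk (i : ℕ) (U : X → Bool) (code : ℕ) : Bool :=
  xs.any (fun v => U v && Nat.beq (pos i v) 0) ||
  (xs.all (fun v => !(U v)) ||
  (xs.all (fun v => !(Nat.testBit code (idx v)) || U v) &&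
  (xs.all (fun u => xs.all (fun v =>
      !(Nat.testBit code (idx u) && Nat.testBit code (idx v)) || !(adj u v))) &&
  (xs.all (fun v => Nat.beq (pos i v) 0 || Nat.testBit code (idx v) ||
      Nat.ble 1 (pos i v - (U v).toNat)) &&
  red (fun v => pos i v - (U v).toNat) ((code / 128) % 16) (ordList 7 (code / 2048))
    (fun v => !(Nat.beq (pos i v) 0) && !(Nat.testBit code (idx v)))))))

/-- the set with the given indicator values -/
def setOf7 (b0 b1 b2 b3 b4 b5 b6 : Bool) : X → Bool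
  | x0 => b0 | x1 => b1 | x2 => b2 | x3 => b3 | x4 => b4 | x5 => b5 | x6 => b6

/-- the code of the answer -/
def codeOf (i : ℕ) (b0 b1 b2 b3 b4 b5 b6 : Bool) : ℕ :=
  (tabL.getD i []).getD (b0.toNat + 2 * b1.toNat + 4 * b2.toNat + 8 * b3.toNat + 16 * b4.toNat +
    32 * b5.toNat + 64 * b6.toNat) 0

theorem chk_all : ∀ i : Fin 12, ∀ b0 b1 b2 b3 b4 b5 b6 : Bool,
    chk i.1 (setOf7 b0 b1 b2 b3 b4 b5 b6) (codeOf i.1 b0 b1 b2 b3 b4 b5 b6) = true := by
  decide +kernel

theorem all_iff (p : X → Bool) : xs.all p = true ↔ ∀ v, p v = true := by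
  rw [List.all_eq_true]
  exact ⟨fun h v => h v (mem_xs v), fun h v _ => h v⟩

theorem red_sound (e e' : X → ℕ) (q : ℕ) : ∀ (l : List X) (A : X → Bool) (A' : Finset X),
    red e q l A = true → (∀ v ∈ A', A v = true) → (∀ v ∈ A', e v ≤ e' v) →
    (∀ B : Finset X, B ⊆ A' → (∀ v ∈ B, 1 ≤ pos q v ∧ pos q v ≤ e' v) → PW adj e' B) →
    PW adj e' A' := by
  intro l
  induction l with
  | nil =>
    intro A A' hr hA he hB
    refine hB A' (Finset.Subset.refl _) ?_
    intro v hv
    simp only [red, all_iff] at hr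
    have h := hr v
    rw [hA v hv] at h
    simp only [Bool.not_true, Bool.false_or, Bool.and_eq_true, Nat.ble_eq] at h
    exact ⟨h.1, h.2.trans (he v hv)⟩
  | cons w l ih =>
    intro A A' hr hA he hB
    simp only [red, Bool.and_eq_true, Nat.ble_eq] at hr
    obtain ⟨h1, h2⟩ := hr
    have h3 : PW adj e' (A'.erase w) := by
      refine ih _ (A'.erase w) h2 ?_ ?_ ?_
      · intro v hv
        rw [Finset.mem_erase] at hv
        simp only [hA v hv.2, Bool.true_and, Bool.not_eq_true']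
        have hne := hv.1
        revert hne
        cases v <;> cases w <;> first
          | (intro h; exact absurd rfl h)
          | (intro _; rfl)
      · intro v hv
        exact he v (Finset.mem_of_mem_erase hv)
      · intro B hBs
        exact hB B (hBs.trans (Finset.erase_subset _ _))
    by_cases hw : w ∈ A'
    · refine h3.insert_free adj_symm adj_irrefl w e' A' (Finset.Subset.refl _)
        (fun _ _ => le_refl _) ?_
      have h4 : (A'.filter (fun u => adj w u = true)).card ≤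
          (xs.filter (fun u => A u && adj w u)).length := by
        have h5 : A'.filter (fun u => adj w u = true) ⊆
            (xs.filter (fun u => A u && adj w u)).toFinset := by
          intro u hu
          rw [Finset.mem_filter] at hu
          rw [List.mem_toFinset, List.mem_filter]
          refine ⟨mem_xs u, ?_⟩
          rw [hA u hu.1, hu.2]
          rfl
        exact (Finset.card_le_card h5).trans (List.toFinset_card_le _)
      have h6 := he w hw
      omega
    · rwa [Finset.erase_eq_of_notMem hw] at h3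

theorem setOf7_eq (U : Finset X) : setOf7 (decide (x0 ∈ U)) (decide (x1 ∈ U)) (decide (x2 ∈ U))
    (decide (x3 ∈ U)) (decide (x4 ∈ U)) (decide (x5 ∈ U)) (decide (x6 ∈ U)) =
    fun v => decide (v ∈ U) := by
  funext v
  cases v <;> rfl

/-- Painter wins from each of the twelve positions, and from all better ones. -/
theorem sound : ∀ (N : ℕ) (e : X → ℕ) (A : Finset X), (∑ v ∈ A, e v) ≤ N → ∀ i : Fin 12,
    (∀ v ∈ A, 1 ≤ pos i.1 v ∧ pos i.1 v ≤ e v) → PW adj e A := by
  intro N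
  induction N using Nat.strong_induction_on with
  | _ N ih =>
  intro e A hN i hi
  refine PW.of_forall (fun v hv => (hi v hv).1.trans (hi v hv).2) ?_
  intro U hU hne
  have hc := chk_all i (decide (x0 ∈ U)) (decide (x1 ∈ U)) (decide (x2 ∈ U))
    (decide (x3 ∈ U)) (decide (x4 ∈ U)) (decide (x5 ∈ U)) (decide (x6 ∈ U))
  rw [setOf7_eq] at hc
  generalize codeOf i.1 (decide (x0 ∈ U)) (decide (x1 ∈ U)) (decide (x2 ∈ U))
    (decide (x3 ∈ U)) (decide (x4 ∈ U)) (decide (x5 ∈ U)) (decide (x6 ∈ U)) = code at hc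
  simp only [chk, Bool.or_eq_true, Bool.and_eq_true] at hc
  rcases hc with hc | hc | ⟨h1, h2, h3, h4⟩
  · exfalso
    rw [List.any_eq_true] at hc
    obtain ⟨v, -, hv⟩ := hc
    rw [Bool.and_eq_true, decide_eq_true_eq] at hv
    have h0 := (hi v (hU hv.1)).1
    have h00 := Nat.eq_of_beq_eq_true hv.2
    omega
  · exfalso
    rw [all_iff] at hc
    obtain ⟨v, hv⟩ := hne
    have := hc v
    simp [hv] at this
  · rw [all_iff] at h1 h2 h3
    set I : Finset X := Finset.univ.filter (fun v => Nat.testBit code (idx v) = true) with hIdef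
    have hIm : ∀ v, v ∈ I ↔ Nat.testBit code (idx v) = true := by
      intro v; simp [hIdef]
    have hIU : I ⊆ U := by
      intro v hv
      have := h1 v
      rw [hIm] at hv
      rw [hv] at this
      simpa using this
    refine ⟨I, hIU, ?_, ?_⟩
    · intro u hu v hv
      have h := h2 u
      rw [all_iff] at h
      have h := h v
      rw [hIm] at hu hv
      rw [hu, hv] at h
      simpa using h
    · have hq : (code / 128) % 16 < 16 := Nat.mod_lt _ (by norm_num)
      refine red_sound _ (dec e U) ((code / 128) % 16) _ _ (A \ I) h4 ?_ ?_ ?_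
      · intro v hv
        rw [Finset.mem_sdiff, hIm] at hv
        have h5 := (hi v hv.1).1
        have h6 : Nat.beq (pos i.1 v) 0 = false := by
          rw [← Bool.not_eq_true]
          intro h
          have := Nat.eq_of_beq_eq_true h
          omega
        have h7 : Nat.testBit code (idx v) = false := by
          simpa using hv.2
        rw [h6, h7]
        rfl
      · intro v hv
        rw [Finset.mem_sdiff] at hv
        have h5 := (hi v hv.1).2
        simp only [dec]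
        by_cases hvU : v ∈ U
        · simp only [hvU, decide_true, Bool.toNat_true, if_true]; omega
        · simp only [hvU, decide_false, Bool.toNat_false, if_false]; omega
      · intro B hB hBd
        have hlt : ∑ v ∈ B, dec e U v < N := by
          have hBA : B ⊆ A := hB.trans Finset.sdiff_subset
          have h5 : ∑ v ∈ B, dec e U v ≤ ∑ v ∈ A, dec e U v :=
            Finset.sum_le_sum_of_subset hBA
          have h6 : ∑ v ∈ A, dec e U v < ∑ v ∈ A, e v := by
            obtain ⟨u, hu⟩ := hne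
            refine Finset.sum_lt_sum (fun v _ => ?_) ⟨u, hU hu, ?_⟩
            · simp only [dec]; omega
            · have := hi u (hU hu)
              simp only [dec, if_pos hu]; omega
          omega
        by_cases hq12 : (code / 128) % 16 < 12
        · exact ih _ hlt (dec e U) B le_rfl ⟨_, hq12⟩ hBd
        · -- a position beyond the list has only zero entries, so `B` is empty
          have hz : ∀ v, pos ((code / 128) % 16) v = 0 := by
            intro v
            have : posL.getD ((code / 128) % 16) [] = [] := by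
              rw [List.getD_eq_default]
              simp only [posL, List.length_cons, List.length_nil]
              omega
            simp only [pos, this, List.getD_nil]
          have hBe : B = ∅ := by
            rw [Finset.eq_empty_iff_forall_notMem]
            intro v hv
            have := (hBd v hv).1
            rw [hz v] at this
            omega
          rw [hBe]
          refine PW.of_forall (fun v hv => absurd hv (Finset.notMem_empty v)) ?_
          intro U' hU' hne'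
          rw [Finset.subset_empty] at hU'
          rw [hU'] at hne'
          exact absurd hne' Finset.not_nonempty_empty

/-- the number of tokens used in the gadget -/
def ftok : X → ℕ
  | x0 => 3 | x1 => 2 | x2 => 2 | x3 => 2 | x4 => 2 | x5 => 4 | x6 => 3

/-- Painter wins the painting game on the gadget. -/
theorem gadget_win : PW adj ftok Finset.univ := by
  refine sound _ ftok Finset.univ le_rfl ⟨0, by norm_num⟩ ?_
  intro v _
  cases v <;> decide

end Pool.Agent.Q32.Paint
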