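import Pool.Agent.Q32.PaintGadget

set_option autoImplicit false

/-!
# A graph that is 4-paintable but not (833, 208)-paintable

Two root vertices are joined to many copies of the gadget.
-/

namespace Pool.Agent.Q32.Paint

open X

/-- index set of the copies of the gadget -/
abbrev Idx : Type := Finset (Fin 833) × Finset (Fin 833)

/-- the vertex set -/
abbrev VG : Type := Bool ⊕ (Idx × X)

/-- adjacency to the two roots -/
def adjR : Bool → X → Bool
  | false, x5 => false
  | false, _ => true
  | true, x1 => true
  | true, x2 => true
  | true, x3 => true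
  | true, x4 => true
  | true, _ => false

/-- adjacency of the whole graph, as a relation -/
def adjG : VG → VG → Prop
  | Sum.inl _, Sum.inl _ => False
  | Sum.inl r, Sum.inr (_, v) => adjR r v = true
  | Sum.inr (_, v), Sum.inl r => adjR r v = true
  | Sum.inr (s, u), Sum.inr (t, v) => s = t ∧ adj u v = true

/-- the graph -/
def G : SimpleGraph VG where
  Adj := adjG
  symm := ⟨by
    rintro (r | ⟨s, u⟩) (r' | ⟨t, v⟩) h
    · exact h
    · exact h
    · exact h
    · exact ⟨h.1.symm, by rw [adj_symm]; exact h.2⟩⟩
  loopless := ⟨by
    rintro (r | ⟨s, u⟩) h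
    · exact h
    · have := h.2
      rw [adj_irrefl] at this
      exact Bool.false_ne_true this⟩

open Classical in
theorem sub_ind (t : VG → ℕ) (M : Set VG) (x : VG) :
    (t - M.indicator (fun _ => (1 : ℕ))) x = t x - (if x ∈ M then 1 else 0) := by
  rw [Pi.sub_apply, Set.indicator_apply]

theorem sum_lt_of {α : Type} [Fintype α] (f g : α → ℕ) (h : ∀ x, f x ≤ g x) (x : α)
    (hx : f x < g x) : ∑ y, f y < ∑ y, g y :=
  Finset.sum_lt_sum (fun y _ => h y) ⟨x, Finset.mem_univ _, hx⟩

/-- the least number of tokens that the roots may still cost -/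
def allow (n : VG → ℕ) (v : X) : ℕ :=
  (if adjR false v = true then n (Sum.inl false) else 0) +
    (if adjR true v = true then n (Sum.inl true) else 0)

/-- positions from which Painter wins, one colour per vertex -/
structure Good (t n : VG → ℕ) : Prop where
  n1 : ∀ x, n x ≤ 1
  root : ∀ r, n (Sum.inl r) ≤ t (Sum.inl r)
  cop : ∀ s, ∃ e : X → ℕ, PW adj e (Finset.univ.filter (fun v => n (Sum.inr (s, v)) = 1)) ∧
    ∀ v, n (Sum.inr (s, v)) = 1 → e v + allow n v ≤ t (Sum.inr (s, v))

open Classical in
theorem painter (W : (VG → ℕ) → (VG → ℕ) → Prop)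
    (hW : ∀ t n : VG → ℕ, (∀ v, n v ≤ t v) →
        (∀ M : Set VG, M.Nonempty → (∀ v ∈ M, 0 < n v) →
          ∃ I ⊆ M, G.IsIndepSet I ∧
            W (t - M.indicator (fun _ => (1 : ℕ))) (n - I.indicator (fun _ => (1 : ℕ)))) →
        W t n) :
    ∀ (N : ℕ) (t n : VG → ℕ), ∑ x, t x ≤ N → Good t n → W t n := by
  intro N
  induction N using Nat.strong_induction_on with
  | _ N ih =>
  intro t n hN hg
  have hle : ∀ x, n x ≤ t x := by
    rintro (r | ⟨s, v⟩)
    · exact hg.root r
    · by_cases h1 : n (Sum.inr (s, v)) = 1
      · obtain ⟨e, he1, he2⟩ := hg.cop s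
        have h2 := he1.pos v (by simp [h1])
        have h3 := he2 v h1
        omega
      · have := hg.n1 (Sum.inr (s, v))
        omega
  refine hW t n hle ?_
  intro M hMne hM
  choose e he1 he2 using hg.cop
  let U : Idx → Finset X := fun s => Finset.univ.filter (fun v =>
    (Sum.inr (s, v) : VG) ∈ M ∧ ∀ r, adjR r v = true → (Sum.inl r : VG) ∉ M)
  have hU : ∀ s, U s ⊆ Finset.univ.filter (fun v => n (Sum.inr (s, v)) = 1) := by
    intro s v hv
    simp only [U, Finset.mem_filter, Finset.mem_univ, true_and] at hv ⊢
    have h1 := hM _ hv.1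
    have h2 := hg.n1 (Sum.inr (s, v))
    omega
  choose I hI1 hI2 hI3 using fun s => (he1 s).step (U s) (hU s)
  let J : Set VG := fun x => match x with
    | Sum.inl r => (Sum.inl r : VG) ∈ M
    | Sum.inr (s, v) => v ∈ I s
  have hJr : ∀ r, (Sum.inl r : VG) ∈ J ↔ (Sum.inl r : VG) ∈ M := fun r => Iff.rfl
  have hJv : ∀ s v, (Sum.inr (s, v) : VG) ∈ J ↔ v ∈ I s := fun s v => Iff.rfl
  have hJM : J ⊆ M := by
    rintro (r | ⟨s, v⟩) hx
    · exact hx
    · have := hI1 s hx
      simp only [U, Finset.mem_filter] at this
      exact this.2.1
  have hnotroot : ∀ s v, v ∈ I s → ∀ r, adjR r v = true → (Sum.inl r : VG) ∉ M := by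
    intro s v hv
    have := hI1 s hv
    simp only [U, Finset.mem_filter] at this
    exact this.2.2
  refine ⟨J, hJM, ?_, ?_⟩
  · rintro (r | ⟨s, u⟩) hx (r' | ⟨s', v⟩) hy hne hadj
    · exact hadj
    · exact hnotroot s' v hy r hadj hx
    · exact hnotroot s u hx r' hadj hy
    · obtain ⟨hss, huv⟩ := hadj
      subst hss
      have := hI2 s u hx v hy
      rw [this] at huv
      exact Bool.false_ne_true huv
  · refine ih (∑ x, (t - M.indicator (fun _ => (1 : ℕ))) x) ?_ _ _ le_rfl ?_
    · refine lt_of_lt_of_le ?_ hN
      obtain ⟨x, hx⟩ := hMne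
      refine sum_lt_of _ _ (fun y => ?_) x ?_
      · rw [sub_ind]; omega
      · rw [sub_ind, if_pos hx]
        have h1 := hM x hx
        have h2 := hle x
        omega
    · have hroot : ∀ r, (n - J.indicator (fun _ => (1 : ℕ))) (Sum.inl r) =
          if (Sum.inl r : VG) ∈ M then 0 else n (Sum.inl r) := by
        intro r
        rw [sub_ind]
        have h1 := hg.n1 (Sum.inl r)
        by_cases h : (Sum.inl r : VG) ∈ M
        · rw [if_pos h, if_pos ((hJr r).mpr h)]; omega
        · rw [if_neg h, if_neg (fun h' => h ((hJr r).mp h'))]; omega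
      refine ⟨?_, ?_, ?_⟩
      · intro x
        rw [sub_ind]
        have := hg.n1 x
        omega
      · intro r
        rw [hroot, sub_ind]
        split_ifs with h
        · omega
        · have := hg.root r
          omega
      · intro s
        refine ⟨dec (e s) (U s), ?_, ?_⟩
        · refine (hI3 s).mono _ _ ?_ (fun v _ => le_refl _)
          intro v hv
          simp only [Finset.mem_filter, Finset.mem_univ, true_and, Finset.mem_sdiff] at hv ⊢
          rw [sub_ind] at hv
          have h1 := hg.n1 (Sum.inr (s, v))
          by_cases h : v ∈ I s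
          · rw [if_pos ((hJv s v).mpr h)] at hv; omega
          · rw [if_neg (fun h' => h ((hJv s v).mp h'))] at hv
            exact ⟨by omega, h⟩
        · intro v hv
          rw [sub_ind] at hv
          have h1 := hg.n1 (Sum.inr (s, v))
          have hn1 : n (Sum.inr (s, v)) = 1 := by omega
          have h2 := he2 s v hn1
          have h3 : 1 ≤ e s v := (he1 s).pos v (by simp [hn1])
          have hal : ∀ r, (n - J.indicator (fun _ => (1 : ℕ))) (Sum.inl r) ≤ n (Sum.inl r) := by
            intro r
            rw [hroot]
            split_ifs <;> omega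
          have hallow : allow (n - J.indicator (fun _ => (1 : ℕ))) v ≤ allow n v := by
            have ha := hal false
            have hb := hal true
            simp only [allow]
            split_ifs <;> omega
          rw [sub_ind]
          by_cases hvM : (Sum.inr (s, v) : VG) ∈ M
          · by_cases hvU : v ∈ U s
            · simp only [dec, if_pos hvU, if_pos hvM]
              omega
            · -- some root adjacent to `v` has just been coloured
              have h4 : ∃ r, adjR r v = true ∧ (Sum.inl r : VG) ∈ M := by
                by_contra hcon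
                apply hvU
                simp only [U, Finset.mem_filter, Finset.mem_univ, true_and]
                exact ⟨hvM, fun r hr hr' => hcon ⟨r, hr, hr'⟩⟩
              obtain ⟨r, hr, hrM⟩ := h4
              have h5 : allow (n - J.indicator (fun _ => (1 : ℕ))) v + 1 ≤ allow n v := by
                have ha := hal false
                have hb := hal true
                have hc := hM _ hrM
                have hd := hroot r
                rw [if_pos hrM] at hd
                simp only [allow]
                cases r
                · rw [if_pos hr, if_pos hr, hd]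
                  split_ifs <;> omega
                · rw [if_pos hr, if_pos hr, hd]
                  split_ifs <;> omega
              simp only [dec, if_neg hvU, if_pos hvM]
              omega
          · have h4 : dec (e s) (U s) v ≤ e s v := by simp only [dec]; omega
            rw [if_neg hvM]
            omega

theorem four_paintable (W : (VG → ℕ) → (VG → ℕ) → Prop)
    (hW : ∀ t n : VG → ℕ, (∀ v, n v ≤ t v) →
        (∀ M : Set VG, M.Nonempty → (∀ v ∈ M, 0 < n v) →
          ∃ I ⊆ M, G.IsIndepSet I ∧
            W (t - M.indicator (fun _ => (1 : ℕ))) (n - I.indicator (fun _ => (1 : ℕ)))) →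
        W t n) : W (fun _ => 4) (fun _ => 1) := by
  refine painter W hW _ _ _ le_rfl ⟨fun _ => le_refl _, fun _ => by norm_num, ?_⟩
  intro s
  refine ⟨ftok, ?_, ?_⟩
  · have : (Finset.univ.filter (fun _ : X => (1 : ℕ) = 1)) = Finset.univ := by simp
    rw [this]
    exact gadget_win
  · intro v _
    cases v <;> decide

end Pool.Agent.Q32.Paint
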