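import Pool.Agent.Q32.PaintGraph

set_option autoImplicit false

/-!
# The graph is not (833, 208)-paintable
-/

namespace Pool.Agent.Q32.Paint

open X

/-- Lister wins from the position with tokens `t` and demands `n` -/
inductive LW : (VG → ℕ) → (VG → ℕ) → Prop
  | dead (t n : VG → ℕ) (x : VG) (h : t x < n x) : LW t n
  | move (t n : VG → ℕ) (M : Set VG) (hne : M.Nonempty) (hM : ∀ x ∈ M, 0 < n x)
      (h : ∀ I, I ⊆ M → G.IsIndepSet I →
        LW (t - M.indicator (fun _ => (1 : ℕ))) (n - I.indicator (fun _ => (1 : ℕ)))) : LW t n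

/-- In the copy `s`, if the unfinished vertices have at most `τ` tokens and the demands weighted
with `y` exceed `C`, then Lister wins. -/
def Win (s : Idx) (τ y : X → ℕ) (C : ℕ) : Prop :=
  ∀ t n : VG → ℕ, (∀ v, 0 < n (Sum.inr (s, v)) → t (Sum.inr (s, v)) ≤ τ v) →
    C < ∑ v, y v * n (Sum.inr (s, v)) → LW t n

theorem Win.leaf (s : Idx) (τ y : X → ℕ) : Win s τ y (∑ v, y v * τ v) := by
  intro t n ht hC
  by_contra hL
  have h1 : ∀ v, n (Sum.inr (s, v)) ≤ t (Sum.inr (s, v)) := by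
    intro v
    by_contra h
    exact hL (LW.dead t n (Sum.inr (s, v)) (by omega))
  have h2 : ∑ v, y v * n (Sum.inr (s, v)) ≤ ∑ v, y v * τ v := by
    refine Finset.sum_le_sum fun v _ => ?_
    by_cases h0 : 0 < n (Sum.inr (s, v))
    · exact Nat.mul_le_mul_left _ ((h1 v).trans (ht v h0))
    · have : n (Sum.inr (s, v)) = 0 := by omega
      rw [this, Nat.mul_zero]
      exact Nat.zero_le _
  omega

theorem Win.mono {s : Idx} {τ y : X → ℕ} {C : ℕ} (h : Win s τ y C) {τ' : X → ℕ} {C' : ℕ}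
    (hτ : ∀ v, τ' v ≤ τ v) (hC : C ≤ C') : Win s τ' y C' := by
  intro t n ht hC'
  exact h t n (fun v hv => (ht v hv).trans (hτ v)) (by omega)

theorem Win.split {s : Idx} {τ y₁ y₂ y : X → ℕ} {C₁ C₂ : ℕ} (h₁ : Win s τ y₁ C₁)
    (h₂ : Win s τ y₂ C₂) (hy : ∀ v, y v = y₁ v + y₂ v) : Win s τ y (C₁ + C₂) := by
  intro t n ht hC
  have h : ∑ v, y v * n (Sum.inr (s, v)) =
      ∑ v, y₁ v * n (Sum.inr (s, v)) + ∑ v, y₂ v * n (Sum.inr (s, v)) := by
    rw [← Finset.sum_add_distrib]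
    refine Finset.sum_congr rfl fun v _ => ?_
    rw [hy v, Nat.add_mul]
  by_cases h3 : C₁ < ∑ v, y₁ v * n (Sum.inr (s, v))
  · exact h₁ t n ht h3
  · exact h₂ t n ht (by omega)

theorem Win.scale {s : Idx} {τ y y' : X → ℕ} {C : ℕ} (h : Win s τ y C) (j : ℕ)
    (hy : ∀ v, y' v = j * y v) : Win s τ y' (j * C) := by
  intro t n ht hC
  have h1 : ∑ v, y' v * n (Sum.inr (s, v)) = j * ∑ v, y v * n (Sum.inr (s, v)) := by
    rw [Finset.mul_sum]
    refine Finset.sum_congr rfl fun v _ => ?_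
    rw [hy v, Nat.mul_assoc]
  rw [h1] at hC
  exact h t n ht (lt_of_mul_lt_mul_left' hC)

open Classical in
/-- one round in which the set `U` of the copy `s` is presented -/
theorem Win.present {s : Idx} {τ τ' y : X → ℕ} {C : ℕ} (h : Win s τ' y C) (U : Finset X) (c : ℕ)
    (hc : ∀ I : Finset X, I ⊆ U → Ind adj I → ∑ v ∈ I, y v ≤ c)
    (hτ : ∀ v, τ v ≤ τ' v + (if v ∈ U then 1 else 0)) : Win s τ y (C + c) := by
  intro t n ht hC
  let M : Set VG := fun x => ∃ v, x = Sum.inr (s, v) ∧ v ∈ U ∧ 0 < n x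
  have hMv : ∀ v, (Sum.inr (s, v) : VG) ∈ M ↔ v ∈ U ∧ 0 < n (Sum.inr (s, v)) := by
    intro v
    constructor
    · rintro ⟨w, hw, h1, h2⟩
      have : v = w := by
        have := Sum.inr_injective hw
        exact congrArg Prod.snd this
      subst this
      exact ⟨h1, h2⟩
    · rintro ⟨h1, h2⟩
      exact ⟨v, rfl, h1, h2⟩
  by_cases hne : M.Nonempty
  · refine LW.move t n M hne (fun x hx => ?_) ?_
    · obtain ⟨v, -, -, hv⟩ := hx
      exact hv
    · intro I hI hind
      refine h _ _ ?_ ?_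
      · intro v hv
        rw [sub_ind] at hv
        rw [sub_ind]
        have h0 : 0 < n (Sum.inr (s, v)) := by omega
        have h1 := ht v h0
        have h2 := hτ v
        by_cases hvU : v ∈ U
        · rw [if_pos hvU] at h2
          rw [if_pos ((hMv v).mpr ⟨hvU, h0⟩)]
          omega
        · rw [if_neg hvU] at h2
          omega
      · let I' : Finset X := Finset.univ.filter (fun v => (Sum.inr (s, v) : VG) ∈ I)
        have hI'm : ∀ v, v ∈ I' ↔ (Sum.inr (s, v) : VG) ∈ I := by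
          intro v; simp [I']
        have h1 : ∑ v ∈ I', y v ≤ c := by
          refine hc I' ?_ ?_
          · intro v hv
            exact ((hMv v).mp (hI ((hI'm v).mp hv))).1
          · intro u hu v hv
            by_contra hcon
            have hadj : adj u v = true := by simpa using hcon
            have hne' : (Sum.inr (s, u) : VG) ≠ Sum.inr (s, v) := by
              intro heq
              have := congrArg Prod.snd (Sum.inr_injective heq)
              simp only at this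
              rw [this, adj_irrefl] at hadj
              exact Bool.false_ne_true hadj
            exact hind ((hI'm u).mp hu) ((hI'm v).mp hv) hne' ⟨rfl, hadj⟩
        have h2 : ∑ v ∈ I', y v = ∑ v, (if v ∈ I' then y v else 0) := by
          rw [Finset.sum_ite_mem, Finset.univ_inter]
        have h3 : ∑ v, y v * n (Sum.inr (s, v)) ≤
            ∑ v, y v * (n - I.indicator (fun _ => (1 : ℕ))) (Sum.inr (s, v)) +
              ∑ v, (if v ∈ I' then y v else 0) := by
          rw [← Finset.sum_add_distrib]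
          refine Finset.sum_le_sum fun v _ => ?_
          rw [sub_ind]
          by_cases hv : (Sum.inr (s, v) : VG) ∈ I
          · rw [if_pos hv, if_pos ((hI'm v).mpr hv)]
            have h0 := ((hMv v).mp (hI hv)).2
            obtain ⟨k, hk⟩ : ∃ k, n (Sum.inr (s, v)) = k + 1 := ⟨n (Sum.inr (s, v)) - 1, by omega⟩
            rw [hk, Nat.add_sub_cancel, Nat.mul_succ]
          · rw [if_neg hv, Nat.sub_zero]
            exact Nat.le_add_right _ _
        omega
  · refine h t n ?_ (by omega)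
    intro v hv
    have h1 := ht v hv
    have h2 := hτ v
    by_cases hvU : v ∈ U
    · exact absurd ⟨_, (hMv v).mpr ⟨hvU, hv⟩⟩ hne
    · rw [if_neg hvU] at h2
      omega

/-- `k` rounds in which the set `U` of the copy `s` is presented -/
theorem Win.presents {s : Idx} {y : X → ℕ} (U : Finset X) (c : ℕ)
    (hc : ∀ I : Finset X, I ⊆ U → Ind adj I → ∑ v ∈ I, y v ≤ c) :
    ∀ (k : ℕ) {τ τ' : X → ℕ} {C : ℕ}, Win s τ' y C →
    (∀ v, τ v ≤ τ' v + (if v ∈ U then k else 0)) → Win s τ y (C + k * c) := by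
  intro k
  induction k with
  | zero =>
    intro τ τ' C h hτ
    refine h.mono (fun v => ?_) (by omega)
    have := hτ v
    split_ifs at this <;> omega
  | succ k ih =>
    intro τ τ' C h hτ
    have h1 : Win s (fun v => τ' v + (if v ∈ U then 1 else 0)) y (C + c) :=
      h.present U c hc (fun v => le_refl _)
    have h2 := ih (τ := τ) h1 (fun v => by
      have := hτ v
      split_ifs at this ⊢ <;> omega)
    refine h2.mono (fun v => le_refl _) ?_
    rw [Nat.succ_mul]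
    omega

/-- tokens: `104` times the given number, plus one -/
def tok (h : X → ℕ) : X → ℕ := fun v => 104 * h v + 1

/-- a function given by its list of values -/
def vec (a0 a1 a2 a3 a4 a5 a6 : ℕ) : X → ℕ
  | x0 => a0 | x1 => a1 | x2 => a2 | x3 => a3 | x4 => a4 | x5 => a5 | x6 => a6

theorem Win.pres {s : Idx} {h' y : X → ℕ} {C : ℕ} (H : Win s (tok h') y C) (h : X → ℕ)
    (U : Finset X) (r c : ℕ)
    (hc : ∀ I : Finset X, I ⊆ U → Ind adj I → ∑ v ∈ I, y v ≤ c)
    (hh : ∀ v, h v ≤ h' v + (if v ∈ U then r else 0)) : Win s (tok h) y (C + 104 * r * c) := by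
  refine Win.presents U c hc (104 * r) H ?_
  intro v
  have := hh v
  simp only [tok]
  split_ifs at this ⊢ <;> omega

instance (I : Finset X) : Decidable (Ind adj I) := by unfold Ind; infer_instance

theorem Win.leaf' (s : Idx) (h y : X → ℕ) (C : ℕ) (hC : ∑ v, y v * (104 * h v + 1) ≤ C) :
    Win s (tok h) y C := (Win.leaf s (tok h) y).mono (fun _ => le_refl _) hC

theorem base1 (s : Idx) : Win s (tok (vec 4 3 3 3 2 7 4)) (vec 1 0 1 1 0 1 1) 733 := by
  have h0 := Win.leaf' s (vec 0 3 0 0 2 0 0) (vec 1 0 1 1 0 1 1) 5 (by decide)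
  have h1 := h0.pres (vec 1 3 0 0 2 1 1) {x0, x5, x6} 1 1 (by decide) (by decide)
  have h2 := h1.pres (vec 1 3 3 0 2 4 4) {x2, x5, x6} 3 1 (by decide) (by decide)
  exact h2.pres (vec 4 3 3 3 2 7 4) {x0, x3, x5} 3 1 (by decide) (by decide)

theorem base2 (s : Idx) : Win s (tok (vec 3 2 3 3 1 7 3)) (vec 0 0 0 0 1 0 0) 105 :=
  Win.leaf' s _ _ 105 (by decide)

theorem base3 (s : Idx) : Win s (tok (vec 3 2 3 3 1 7 3)) (vec 1 1 1 1 1 1 1) 839 := by
  have h0 := Win.leaf' s (vec 0 0 0 0 0 0 0) (vec 1 1 1 1 1 1 1) 7 (by decide)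
  have h1 := h0.pres (vec 0 1 0 0 1 0 0) {x1, x4} 1 1 (by decide) (by decide)
  have h2 := h1.pres (vec 0 2 0 0 1 1 0) {x1, x5} 1 1 (by decide) (by decide)
  have h3 := h2.pres (vec 3 2 0 3 1 4 0) {x0, x3, x5} 3 1 (by decide) (by decide)
  exact h3.pres (vec 3 2 3 3 1 7 3) {x2, x5, x6} 3 1 (by decide) (by decide)

theorem node1 (s : Idx) : Win s (tok (vec 4 3 3 3 2 7 4)) (vec 1 1 1 1 2 1 1) 1152 := by
  have h0 : Win s (tok (vec 3 2 3 3 1 7 3)) (vec 1 1 1 1 2 1 1) (105 + 839) :=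
    (base2 s).split (base3 s) (by decide)
  exact h0.pres (vec 4 3 3 3 2 7 4) {x0, x1, x4, x6} 1 2 (by decide) (by decide)

theorem child1 (s : Idx) : Win s (tok (vec 5 3 3 3 3 7 5)) (vec 2 1 2 2 2 2 2) 2093 := by
  have h0 : Win s (tok (vec 4 3 3 3 2 7 4)) (vec 2 1 2 2 2 2 2) (733 + 1152) :=
    (base1 s).split (node1 s) (by decide)
  exact h0.pres (vec 5 3 3 3 3 7 5) {x0, x4, x6} 1 2 (by decide) (by decide)

theorem base4 (s : Idx) : Win s (tok (vec 4 2 2 2 2 6 4)) (vec 0 1 0 0 1 0 0) 210 := by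
  have h0 := Win.leaf' s (vec 4 0 2 2 0 6 4) (vec 0 1 0 0 1 0 0) 2 (by decide)
  exact h0.pres (vec 4 2 2 2 2 6 4) {x1, x4} 2 1 (by decide) (by decide)

theorem base5 (s : Idx) : Win s (tok (vec 4 2 2 2 2 6 4)) (vec 1 1 0 0 0 1 1) 628 := by
  have h0 := Win.leaf' s (vec 0 0 2 2 2 0 0) (vec 1 1 0 0 0 1 1) 4 (by decide)
  have h1 := h0.pres (vec 0 2 2 2 2 2 0) {x1, x5} 2 1 (by decide) (by decide)
  exact h1.pres (vec 4 2 2 2 2 6 4) {x0, x5, x6} 4 1 (by decide) (by decide)

theorem node2 (s : Idx) : Win s (tok (vec 5 2 3 3 3 6 5)) (vec 1 2 0 0 1 1 1) 942 := by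
  have h0 : Win s (tok (vec 4 2 2 2 2 6 4)) (vec 1 2 0 0 1 1 1) (210 + 628) :=
    (base4 s).split (base5 s) (by decide)
  exact h0.pres (vec 5 2 3 3 3 6 5) {x0, x2, x3, x4, x6} 1 1 (by decide) (by decide)

theorem base6 (s : Idx) : Win s (tok (vec 5 1 2 2 3 5 5)) (vec 1 0 0 0 0 1 1) 523 := by
  have h0 := Win.leaf' s (vec 0 1 2 2 3 0 0) (vec 1 0 0 0 0 1 1) 3 (by decide)
  exact h0.pres (vec 5 1 2 2 3 5 5) {x0, x5, x6} 5 1 (by decide) (by decide)

theorem base7 (s : Idx) : Win s (tok (vec 5 1 2 2 3 5 5)) (vec 1 1 1 1 1 1 1) 839 := by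
  have h0 := Win.leaf' s (vec 0 0 0 0 0 0 0) (vec 1 1 1 1 1 1 1) 7 (by decide)
  have h1 := h0.pres (vec 2 0 0 2 0 2 0) {x0, x3, x5} 2 1 (by decide) (by decide)
  have h2 := h1.pres (vec 2 0 2 2 0 4 2) {x2, x5, x6} 2 1 (by decide) (by decide)
  have h3 := h2.pres (vec 5 0 2 2 3 4 5) {x0, x4, x6} 3 1 (by decide) (by decide)
  exact h3.pres (vec 5 1 2 2 3 5 5) {x1, x5} 1 1 (by decide) (by decide)

theorem node3 (s : Idx) : Win s (tok (vec 5 2 3 3 3 6 5)) (vec 3 1 1 1 1 3 3) 2197 := by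
  have h0 : Win s (tok (vec 5 1 2 2 3 5 5)) (vec 2 0 0 0 0 2 2) (2 * 523) :=
    (base6 s).scale 2 (by decide)
  have h1 : Win s (tok (vec 5 1 2 2 3 5 5)) (vec 3 1 1 1 1 3 3) (2 * 523 + 839) :=
    h0.split (base7 s) (by decide)
  exact h1.pres (vec 5 2 3 3 3 6 5) {x1, x2, x3, x5} 1 3 (by decide) (by decide)

theorem child2 (s : Idx) : Win s (tok (vec 5 3 3 3 3 7 5)) (vec 5 5 1 1 3 5 5) 4601 := by
  have h0 : Win s (tok (vec 5 2 3 3 3 6 5)) (vec 2 4 0 0 2 2 2) (2 * 942) :=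
    (node2 s).scale 2 (by decide)
  have h1 : Win s (tok (vec 5 2 3 3 3 6 5)) (vec 5 5 1 1 3 5 5) (2 * 942 + 2197) :=
    h0.split (node3 s) (by decide)
  exact h1.pres (vec 5 3 3 3 3 7 5) {x1, x5} 1 5 (by decide) (by decide)

/-- the certificate for the whole gadget -/
theorem gadget_lister (s : Idx) :
    Win s (tok (vec 6 4 4 4 4 8 6)) (vec 17 11 13 13 15 17 17) 21423 := by
  have h0 : Win s (tok (vec 5 3 3 3 3 7 5)) (vec 12 6 12 12 12 12 12) (6 * 2093) :=
    (child1 s).scale 6 (by decide)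
  have h1 : Win s (tok (vec 5 3 3 3 3 7 5)) (vec 17 11 13 13 15 17 17) (6 * 2093 + 4601) :=
    h0.split (child2 s) (by decide)
  exact h1.pres (vec 6 4 4 4 4 8 6) Finset.univ 1 41 (by decide +kernel) (by decide)

end Pool.Agent.Q32.Paint
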