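import Pool.Agent.Q32.PaintLister

set_option autoImplicit false

/-!
# Lister's play on the two roots
-/

namespace Pool.Agent.Q32.Paint

open X

/-- the component of the index that belongs to a root -/
def pr : Bool → Idx → Finset (Fin 833)
  | false, s => s.1
  | true, s => s.2

/-- Lister presents the root `r` together with the neighbours of `r` in the copies whose index
contains the number of the round. -/
theorem phase (r : Bool) (F : Set Idx) (β : X → ℕ) (hβ : ∀ v, 208 ≤ β v) (T N : ℕ)
    (fin : ∀ R : Finset (Fin 833), R.card = 208 → ∀ t n : VG → ℕ,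
      (∀ s ∈ F, pr r s = R → ∀ v,
        t (Sum.inr (s, v)) + (if adjR r v = true then 208 else 0) ≤ β v ∧
          n (Sum.inr (s, v)) = 208) →
      t (Sum.inl (!r)) = T → n (Sum.inl (!r)) = N → LW t n) :
    ∀ (k j : ℕ), j + k = 833 → ∀ (R : Finset (Fin 833)), (∀ i ∈ R, i.1 < j) → R.card ≤ 208 →
    ∀ t n : VG → ℕ, t (Sum.inl r) ≤ k → n (Sum.inl r) + R.card = 208 →
      (∀ s ∈ F, (∀ i : Fin 833, i.1 < j → (i ∈ pr r s ↔ i ∈ R)) → ∀ v,
        t (Sum.inr (s, v)) + (if adjR r v = true then R.card else 0) ≤ β v ∧
          n (Sum.inr (s, v)) = 208) →
      t (Sum.inl (!r)) = T → n (Sum.inl (!r)) = N → LW t n := by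
  intro k
  induction k with
  | zero =>
    intro j hj R hRj hR t n ht hn hs hT hN
    by_cases hc : R.card = 208
    · refine fin R hc t n (fun s hsF hsR v => ?_) hT hN
      have := hs s hsF (fun i _ => by rw [hsR]) v
      rw [hc] at this
      exact this
    · exact LW.dead t n (Sum.inl r) (by omega)
  | succ k ih =>
    intro j hj R hRj hR t n ht hn hs hT hN
    by_cases hc : R.card = 208
    · refine fin R hc t n (fun s hsF hsR v => ?_) hT hN
      have := hs s hsF (fun i _ => by rw [hsR]) v
      rw [hc] at this
      exact this
    · have hj' : j < 833 := by omega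
      let i0 : Fin 833 := ⟨j, hj'⟩
      let M : Set VG := fun x => match x with
        | Sum.inl q => q = r
        | Sum.inr (s, v) => s ∈ F ∧ (∀ i : Fin 833, i.1 < j → (i ∈ pr r s ↔ i ∈ R)) ∧
            i0 ∈ pr r s ∧ adjR r v = true
      have hMr : (Sum.inl r : VG) ∈ M := rfl
      have hMr' : (Sum.inl (!r) : VG) ∉ M := by
        intro h
        have h' : (!r) = r := h
        cases r <;> exact absurd h' (by decide)
      have hMv : ∀ s v, (Sum.inr (s, v) : VG) ∈ M ↔ (s ∈ F ∧
          (∀ i : Fin 833, i.1 < j → (i ∈ pr r s ↔ i ∈ R)) ∧ i0 ∈ pr r s ∧ adjR r v = true) :=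
        fun s v => Iff.rfl
      refine LW.move t n M ⟨_, hMr⟩ ?_ ?_
      · rintro (q | ⟨s, v⟩) hx
        · have hq : q = r := hx
          subst hq
          omega
        · obtain ⟨h1, h2, -, -⟩ := hx
          have := (hs s h1 h2 v).2
          omega
      · intro I hI hind
        have hT' : (t - M.indicator (fun _ => (1 : ℕ))) (Sum.inl (!r)) = T := by
          classical
          rw [sub_ind, if_neg hMr']; omega
        have hN' : (n - I.indicator (fun _ => (1 : ℕ))) (Sum.inl (!r)) = N := by
          classical
          rw [sub_ind, if_neg (fun h => hMr' (hI h))]; omega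
        have ht' : (t - M.indicator (fun _ => (1 : ℕ))) (Sum.inl r) ≤ k := by
          classical
          rw [sub_ind, if_pos hMr]; omega
        by_cases hrI : (Sum.inl r : VG) ∈ I
        · -- the root is coloured
          have hi0 : i0 ∉ R := fun h => lt_irrefl j (hRj i0 h)
          have hcard : (insert i0 R).card = R.card + 1 := Finset.card_insert_of_notMem hi0
          refine ih (j + 1) (by omega) (insert i0 R) ?_ (by omega) _ _ ht' ?_ ?_ hT' hN'
          · intro i hi
            rcases Finset.mem_insert.mp hi with rfl | hi
            · exact Nat.lt_succ_self j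
            · exact Nat.lt_succ_of_lt (hRj i hi)
          · classical
            rw [sub_ind, if_pos hrI, hcard]
            omega
          · intro s hsF hpre v
            have hpre' : ∀ i : Fin 833, i.1 < j → (i ∈ pr r s ↔ i ∈ R) := by
              intro i hi
              rw [hpre i (Nat.lt_succ_of_lt hi), Finset.mem_insert]
              constructor
              · rintro (h | h)
                · exfalso
                  rw [h] at hi
                  exact lt_irrefl j hi
                · exact h
              · exact fun h => Or.inr h
            have hi0' : i0 ∈ pr r s := by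
              rw [hpre i0 (Nat.lt_succ_self j)]
              exact Finset.mem_insert_self _ _
            have hold := hs s hsF hpre' v
            have hnI : (Sum.inr (s, v) : VG) ∉ I := by
              intro h
              have hadj : adjR r v = true := ((hMv s v).mp (hI h)).2.2.2
              exact hind hrI h (by simp) hadj
            classical
            rw [sub_ind, sub_ind, if_neg hnI, hcard]
            by_cases hadj : adjR r v = true
            · rw [if_pos ((hMv s v).mpr ⟨hsF, hpre', hi0', hadj⟩), if_pos hadj]
              rw [if_pos hadj] at hold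
              have := hβ v
              omega
            · rw [if_neg hadj]
              rw [if_neg hadj] at hold
              have hnM : (Sum.inr (s, v) : VG) ∉ M := fun h => hadj ((hMv s v).mp h).2.2.2
              rw [if_neg hnM]
              omega
        · -- the root is not coloured
          refine ih (j + 1) (by omega) R ?_ hR _ _ ht' ?_ ?_ hT' hN'
          · intro i hi
            exact Nat.lt_succ_of_lt (hRj i hi)
          · classical
            rw [sub_ind, if_neg hrI]
            omega
          · intro s hsF hpre v
            have hi0 : i0 ∉ R := fun h => lt_irrefl j (hRj i0 h)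
            have hpre' : ∀ i : Fin 833, i.1 < j → (i ∈ pr r s ↔ i ∈ R) :=
              fun i hi => hpre i (Nat.lt_succ_of_lt hi)
            have hi0' : i0 ∉ pr r s := by
              rw [hpre i0 (Nat.lt_succ_self j)]
              exact hi0
            have hold := hs s hsF hpre' v
            have hnM : (Sum.inr (s, v) : VG) ∉ M := fun h => hi0' ((hMv s v).mp h).2.2.1
            classical
            rw [sub_ind, sub_ind, if_neg hnM, if_neg (fun h => hnM (hI h))]
            exact hold

/-- Lister wins the `(833, 208)`-painting game. -/
theorem lister_wins : LW (fun _ => 833) (fun _ => 208) := by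
  refine phase false Set.univ (fun _ => 833) (fun _ => by norm_num) 833 208 ?_ 833 0 (by norm_num)
    ∅ (fun i hi => absurd hi (Finset.notMem_empty i)) (by simp) _ _ le_rfl (by simp) ?_ rfl rfl
  · intro R₁ hR₁ t n h1 ht hn
    refine phase true {s | s.1 = R₁} (fun v => 833 - (if adjR false v = true then 208 else 0))
      (fun v => by split_ifs <;> norm_num) (t (Sum.inl false)) (n (Sum.inl false)) ?_ 833 0
      (by norm_num) ∅ (fun i hi => absurd hi (Finset.notMem_empty i)) (by simp) t n
      (le_of_eq ht) (by rw [Finset.card_empty]; exact hn) ?_ rfl rfl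
    · intro R₂ hR₂ t' n' h2 _ _
      have h3 := h2 (R₁, R₂) rfl rfl
      refine gadget_lister (R₁, R₂) t' n' (fun v _ => ?_) ?_
      · have h4 := (h3 v).1
        revert h4
        cases v <;> simp [adjR, tok, vec]
      · have h4 : ∀ v, n' (Sum.inr ((R₁, R₂), v)) = 208 := fun v => (h3 v).2
        simp only [h4]
        decide
    · intro s hs _ v
      have h2 := h1 s (Set.mem_univ _) hs v
      refine ⟨?_, h2.2⟩
      have h3 := h2.1
      rw [Finset.card_empty]
      split_ifs at h3 ⊢ <;> omega
  · intro s _ _ v
    exact ⟨by simp, rfl⟩

end Pool.Agent.Q32.Paint
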