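import Mathlib

set_option autoImplicit false

/-!
# Winning positions of Painter in the painting game with one colour per vertex

A position is a token function `e : X → ℕ` together with the set `A` of the vertices that are still
uncoloured.
-/

namespace Pool.Agent.Q32.Paint

variable {X : Type} [DecidableEq X]

/-- one token is taken from each vertex of `U` -/
def dec (e : X → ℕ) (U : Finset X) : X → ℕ := fun v => e v - (if v ∈ U then 1 else 0)

/-- `I` contains no two adjacent vertices -/
def Ind (adj : X → X → Bool) (I : Finset X) : Prop := ∀ u ∈ I, ∀ v ∈ I, adj u v = false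

/-- Painter wins from the position with tokens `e` and uncoloured set `A` -/
inductive PW (adj : X → X → Bool) : (X → ℕ) → Finset X → Prop
  | mk (e : X → ℕ) (A : Finset X) (resp : Finset X → Finset X)
      (h1 : ∀ v ∈ A, 1 ≤ e v)
      (h2 : ∀ U, U ⊆ A → U.Nonempty → resp U ⊆ U)
      (h3 : ∀ U, U ⊆ A → U.Nonempty → Ind adj (resp U))
      (h4 : ∀ U, U ⊆ A → U.Nonempty → PW adj (dec e U) (A \ resp U)) : PW adj e A

theorem PW.of_forall {adj : X → X → Bool} {e : X → ℕ} {A : Finset X} (h1 : ∀ v ∈ A, 1 ≤ e v)
    (h : ∀ U, U ⊆ A → U.Nonempty → ∃ I, I ⊆ U ∧ Ind adj I ∧ PW adj (dec e U) (A \ I)) :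
    PW adj e A := by
  classical
  choose! r hr1 hr2 hr3 using h
  exact PW.mk e A r h1 hr1 hr2 hr3

theorem PW.pos {adj : X → X → Bool} {e : X → ℕ} {A : Finset X} (h : PW adj e A) :
    ∀ v ∈ A, 1 ≤ e v := by
  cases h with
  | mk _ _ r h1 h2 h3 h4 => exact h1

theorem PW.step {adj : X → X → Bool} {e : X → ℕ} {A : Finset X} (h : PW adj e A)
    (U : Finset X) (hU : U ⊆ A) :
    ∃ I, I ⊆ U ∧ Ind adj I ∧ PW adj (dec e U) (A \ I) := by
  by_cases hne : U.Nonempty
  · cases h with
    | mk _ _ r h1 h2 h3 h4 => exact ⟨r U, h2 U hU hne, h3 U hU hne, h4 U hU hne⟩
  · rw [Finset.not_nonempty_iff_eq_empty] at hne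
    subst hne
    refine ⟨∅, Finset.Subset.refl _, fun u hu => absurd hu (Finset.notMem_empty u), ?_⟩
    have h1 : dec e ∅ = e := by
      funext v; simp [dec]
    rw [h1, Finset.sdiff_empty]
    exact h

/-- more tokens and fewer vertices only help Painter -/
theorem PW.mono {adj : X → X → Bool} {e : X → ℕ} {A : Finset X} (h : PW adj e A) :
    ∀ (e' : X → ℕ) (A' : Finset X), A' ⊆ A → (∀ v ∈ A', e v ≤ e' v) → PW adj e' A' := by
  induction h with
  | mk e A r h1 h2 h3 h4 ih =>
    intro e' A' hA he
    refine PW.mk e' A' r (fun v hv => (h1 v (hA hv)).trans (he v hv))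
      (fun U hU hne => h2 U (hU.trans hA) hne) (fun U hU hne => h3 U (hU.trans hA) hne) ?_
    intro U hU hne
    refine ih U (hU.trans hA) hne _ _ (Finset.sdiff_subset_sdiff hA (Finset.Subset.refl _)) ?_
    intro v hv
    have := he v (Finset.mem_sdiff.mp hv).1
    simp only [dec]
    omega

/-- a vertex with more tokens than uncoloured neighbours can be ignored -/
theorem PW.insert_free {adj : X → X → Bool} (hs : ∀ u v, adj u v = adj v u)
    (hirr : ∀ u, adj u u = false) {e : X → ℕ} {B : Finset X} (h : PW adj e B) (w : X) :
    ∀ (e' : X → ℕ) (A : Finset X), A.erase w ⊆ B → (∀ u ∈ A.erase w, e u ≤ e' u) →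
      (A.filter (fun u => adj w u = true)).card < e' w → PW adj e' A := by
  induction h with
  | mk e B r h1 h2 h3 h4 ih =>
    intro e' A hB he hw
    by_cases hwA : w ∉ A
    · rw [Finset.erase_eq_of_notMem hwA] at hB he
      exact (PW.mk e B r h1 h2 h3 h4).mono e' A hB he
    rw [not_not] at hwA
    refine PW.of_forall ?_ ?_
    · intro v hv
      by_cases hvw : v = w
      · subst hvw; omega
      · have hv' : v ∈ A.erase w := Finset.mem_erase.mpr ⟨hvw, hv⟩
        exact (h1 v (hB hv')).trans (he v hv')
    · intro U hU hne
      by_cases hwU : w ∈ U
      · by_cases hU' : (U.erase w).Nonempty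
        · have hUB : U.erase w ⊆ B := (Finset.erase_subset_erase w hU).trans hB
          have hI := h2 _ hUB hU'
          have hind := h3 _ hUB hU'
          have hP := h4 _ hUB hU'
          by_cases hnb : ∃ u ∈ r (U.erase w), adj w u = true
          · -- some neighbour of `w` is coloured
            refine ⟨r (U.erase w), hI.trans (Finset.erase_subset _ _), hind, ?_⟩
            refine ih _ hUB hU' _ _ ?_ ?_ ?_
            · intro v hv
              rw [Finset.mem_erase, Finset.mem_sdiff] at hv
              rw [Finset.mem_sdiff]
              exact ⟨hB (Finset.mem_erase.mpr ⟨hv.1, hv.2.1⟩), hv.2.2⟩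
            · intro v hv
              rw [Finset.mem_erase, Finset.mem_sdiff] at hv
              have := he v (Finset.mem_erase.mpr ⟨hv.1, hv.2.1⟩)
              have h5 : v ∈ U ↔ v ∈ U.erase w := by
                rw [Finset.mem_erase]
                exact ⟨fun h => ⟨hv.1, h⟩, fun h => h.2⟩
              simp only [dec, h5]
              omega
            · obtain ⟨u, hu, hadj⟩ := hnb
              have h6 : ((A \ r (U.erase w)).filter (fun u => adj w u = true)) ⊂
                  A.filter (fun u => adj w u = true) := by
                rw [Finset.ssubset_iff_of_subset]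
                · refine ⟨u, ?_, ?_⟩
                  · rw [Finset.mem_filter]
                    exact ⟨hU (Finset.mem_of_mem_erase (hI hu)), hadj⟩
                  · rw [Finset.mem_filter, Finset.mem_sdiff]
                    rintro ⟨⟨-, h⟩, -⟩
                    exact h hu
                · exact Finset.filter_subset_filter _ Finset.sdiff_subset
              have h7 := Finset.card_lt_card h6
              simp only [dec, if_pos hwU]
              omega
          · -- no neighbour of `w` is coloured: colour `w` too
            replace hnb : ∀ u ∈ r (U.erase w), adj w u ≠ true := fun u hu hh => hnb ⟨u, hu, hh⟩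
            refine ⟨insert w (r (U.erase w)), ?_, ?_, ?_⟩
            · intro v hv
              rcases Finset.mem_insert.mp hv with rfl | hv
              · exact hwU
              · exact Finset.mem_of_mem_erase (hI hv)
            · intro u hu v hv
              rcases Finset.mem_insert.mp hu with rfl | hu
              · rcases Finset.mem_insert.mp hv with rfl | hv
                · exact hirr _
                · simpa using hnb v hv
              · rcases Finset.mem_insert.mp hv with rfl | hv
                · rw [hs]; simpa using hnb u hu
                · exact hind u hu v hv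
            · refine hP.mono _ _ ?_ ?_
              · intro v hv
                rw [Finset.mem_sdiff, Finset.mem_insert, not_or] at hv
                rw [Finset.mem_sdiff]
                exact ⟨hB (Finset.mem_erase.mpr ⟨hv.2.1, hv.1⟩), hv.2.2⟩
              · intro v hv
                rw [Finset.mem_sdiff, Finset.mem_insert, not_or] at hv
                have := he v (Finset.mem_erase.mpr ⟨hv.2.1, hv.1⟩)
                have h5 : v ∈ U ↔ v ∈ U.erase w := by
                  rw [Finset.mem_erase]
                  exact ⟨fun h => ⟨hv.2.1, h⟩, fun h => h.2⟩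
                simp only [dec, h5]
                omega
        · -- `U = {w}`
          rw [Finset.not_nonempty_iff_eq_empty] at hU'
          refine ⟨{w}, Finset.singleton_subset_iff.mpr hwU, ?_, ?_⟩
          · intro u hu v hv
            rw [Finset.mem_singleton] at hu hv
            rw [hu, hv]; exact hirr _
          · refine (PW.mk e B r h1 h2 h3 h4).mono _ _ ?_ ?_
            · intro v hv
              rw [Finset.mem_sdiff, Finset.mem_singleton] at hv
              exact hB (Finset.mem_erase.mpr ⟨hv.2, hv.1⟩)
            · intro v hv
              rw [Finset.mem_sdiff, Finset.mem_singleton] at hv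
              have := he v (Finset.mem_erase.mpr ⟨hv.2, hv.1⟩)
              have h5 : v ∉ U := by
                intro h
                have : v ∈ U.erase w := Finset.mem_erase.mpr ⟨hv.2, h⟩
                rw [hU'] at this
                exact Finset.notMem_empty v this
              simp only [dec, if_neg h5]
              omega
      · have hUB : U ⊆ B := by
          intro v hv
          refine hB (Finset.mem_erase.mpr ⟨?_, hU hv⟩)
          rintro rfl; exact hwU hv
        refine ⟨r U, h2 _ hUB hne, h3 _ hUB hne, ?_⟩
        refine ih U hUB hne _ _ ?_ ?_ ?_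
        · intro v hv
          rw [Finset.mem_erase, Finset.mem_sdiff] at hv
          rw [Finset.mem_sdiff]
          exact ⟨hB (Finset.mem_erase.mpr ⟨hv.1, hv.2.1⟩), hv.2.2⟩
        · intro v hv
          rw [Finset.mem_erase, Finset.mem_sdiff] at hv
          have := he v (Finset.mem_erase.mpr ⟨hv.1, hv.2.1⟩)
          simp only [dec]
          omega
        · have h6 : ((A \ r U).filter (fun u => adj w u = true)) ⊆
              A.filter (fun u => adj w u = true) :=
            Finset.filter_subset_filter _ Finset.sdiff_subset
          have h7 := Finset.card_le_card h6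
          simp only [dec, if_neg hwU]
          omega

end Pool.Agent.Q32.Paint
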