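import Pool.Agent.Q32.RacgDefs

/-!
Right-angled Coxeter groups by presentations, and the facts on `D_∞^n` used for MP_6a2cdd_al.
-/

namespace Q32.Racg

variable {V : Type*}

theorem gen_sq (Γ : SimpleGraph V) (u : V) : gen Γ u * gen Γ u = 1 := by
  have : (PresentedGroup.mk (rels Γ)) (FreeGroup.of u ^ 2) = 1 :=
    PresentedGroup.one_of_mem (Or.inl ⟨u, rfl⟩)
  rw [pow_two, map_mul] at this
  exact this

theorem gen_comm (Γ : SimpleGraph V) {u v : V} (h : Γ.Adj u v) :
    gen Γ u * gen Γ v = gen Γ v * gen Γ u := by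
  have : (PresentedGroup.mk (rels Γ))
      (FreeGroup.of u * FreeGroup.of v * (FreeGroup.of u)⁻¹ * (FreeGroup.of v)⁻¹) = 1 :=
    PresentedGroup.one_of_mem (Or.inr ⟨u, v, h, rfl⟩)
  rw [map_mul, map_mul, map_mul, map_inv, map_inv, mul_inv_eq_one, mul_inv_eq_iff_eq_mul] at this
  exact this

/-- Universal property. -/
def lift {G : Type*} [Group G] (Γ : SimpleGraph V) (f : V → G) (h1 : ∀ u, f u * f u = 1)
    (h2 : ∀ u v, Γ.Adj u v → f u * f v = f v * f u) : RACG Γ →* G :=
  PresentedGroup.toGroup (f := f) (by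
    rintro r (⟨u, rfl⟩ | ⟨u, v, h, rfl⟩)
    · simp [pow_two, h1]
    · rw [map_mul, map_mul, map_mul, map_inv, map_inv, mul_inv_eq_one, mul_inv_eq_iff_eq_mul]
      simpa using h2 u v h)

theorem lift_gen {G : Type*} [Group G] (Γ : SimpleGraph V) (f : V → G)
    (h1 : ∀ u, f u * f u = 1) (h2 : ∀ u v, Γ.Adj u v → f u * f v = f v * f u) (u : V) :
    lift Γ f h1 h2 (gen Γ u) = f u := PresentedGroup.toGroup.of _

theorem closure_gen (Γ : SimpleGraph V) : Subgroup.closure (Set.range (gen Γ)) = ⊤ :=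
  PresentedGroup.closure_range_of _

theorem hom_ext {G : Type*} [Group G] {Γ : SimpleGraph V} {φ ψ : RACG Γ →* G}
    (h : ∀ u, φ (gen Γ u) = ψ (gen Γ u)) : φ = ψ := PresentedGroup.ext h

/-! ### The infinite dihedral group -/

/-- The graph with two vertices and no edge. -/
abbrev G2 : SimpleGraph Bool := ⊥

/-- The infinite dihedral group. -/
abbrev D : Type := RACG G2

/-- The generator `a`. -/
def a : D := gen G2 false

/-- The generator `b`. -/
def b : D := gen G2 true

theorem aa : a * a = 1 := gen_sq _ _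
theorem bb : b * b = 1 := gen_sq _ _
theorem ainv : a⁻¹ = a := inv_eq_of_mul_eq_one_left aa
theorem binv : b⁻¹ = b := inv_eq_of_mul_eq_one_left bb

/-- The parity. -/
def par : D →* Multiplicative (ZMod 2) :=
  lift G2 (fun _ => Multiplicative.ofAdd 1) (by intro; decide) (by intro u v h; exact absurd h id)

/-- The exponent of `b`. -/
def parb : D →* Multiplicative (ZMod 2) :=
  lift G2 (fun c => Multiplicative.ofAdd (if c then 1 else 0)) (by intro u; cases u <;> decide)
    (by intro u v h; exact absurd h id)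

/-- The action on `ℤ`. -/
def act : D →* Equiv.Perm ℤ :=
  lift G2 (fun c => if c then Equiv.subLeft 1 else Equiv.neg ℤ)
    (by intro u; cases u <;> ext x <;> simp)
    (by intro u v h; exact absurd h id)

theorem par_gen (c : Bool) : par (gen G2 c) = Multiplicative.ofAdd 1 := lift_gen _ _ _ _ _

theorem parb_gen (c : Bool) :
    parb (gen G2 c) = Multiplicative.ofAdd (if c then 1 else 0) := lift_gen _ _ _ _ _

theorem act_a : act a = Equiv.neg ℤ := lift_gen _ _ _ _ _
theorem act_b : act b = Equiv.subLeft 1 := lift_gen _ _ _ _ _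

/-- The translation. -/
def t : D := b * a

theorem act_t (m : ℕ) (x : ℤ) : (act t ^ m) x = x + m := by
  induction m with
  | zero => simp
  | succ m ih =>
    rw [pow_succ', Equiv.Perm.mul_apply, ih, t, map_mul, act_a, act_b]
    simp only [Equiv.Perm.coe_mul, Function.comp_apply, Equiv.neg_apply, Equiv.subLeft_apply]
    push_cast; ring

theorem t_pow_eq_one (m : ℕ) (h : t ^ m = 1) : m = 0 := by
  have := congrArg (fun g => act g 0) h
  simp only [map_pow, map_one, Equiv.Perm.coe_one, id_eq] at this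
  rw [act_t] at this
  omega

theorem t_zpow_eq_one (m : ℤ) (h : t ^ m = 1) : m = 0 := by
  obtain ⟨k, rfl | rfl⟩ := m.eq_nat_or_neg
  · have := t_pow_eq_one k (by exact_mod_cast h)
    omega
  · rw [zpow_neg, inv_eq_one] at h
    have := t_pow_eq_one k (by exact_mod_cast h)
    omega

theorem a_t : a * t = t⁻¹ * a := by
  rw [t, mul_inv_rev, ainv, binv, mul_assoc]

theorem a_t_zpow (m : ℤ) : a * t ^ m = t ^ (-m) * a := by
  have h : a * t * a⁻¹ = t⁻¹ := by rw [a_t]; simp
  have : a * t ^ m * a⁻¹ = t ^ (-m) := by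
    rw [← conj_zpow, h, inv_zpow, zpow_neg]
  rw [← this]; simp

/-- Normal form in the infinite dihedral group. -/
theorem normal_form (g : D) : ∃ m : ℤ, g = t ^ m ∨ g = t ^ m * a := by
  have hg : g ∈ Subgroup.closure (Set.range (gen G2)) := by rw [closure_gen]; trivial
  have hb : b = t * a := by rw [t, mul_assoc, aa, mul_one]
  induction hg using Subgroup.closure_induction_right with
  | one => exact ⟨0, Or.inl (by simp)⟩
  | mul_right x _ y hy ih =>
    obtain ⟨c, rfl⟩ := hy
    have hc : gen G2 c = a ∨ gen G2 c = b := by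
      cases c
      · exact Or.inl rfl
      · exact Or.inr rfl
    obtain ⟨m, rfl | rfl⟩ := ih <;> rcases hc with hc | hc <;> rw [hc]
    · exact ⟨m, Or.inr rfl⟩
    · exact ⟨m + 1, Or.inr (by rw [hb, ← mul_assoc, zpow_add_one])⟩
    · exact ⟨m, Or.inl (by rw [mul_assoc, aa, mul_one])⟩
    · refine ⟨m - 1, Or.inl ?_⟩
      rw [hb, mul_assoc, ← mul_assoc a, a_t, mul_assoc, aa, mul_one, zpow_sub_one]
  | mul_inv_cancel x _ y hy ih =>
    obtain ⟨c, rfl⟩ := hy
    have hc : (gen G2 c)⁻¹ = a ∨ (gen G2 c)⁻¹ = b := by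
      cases c
      · exact Or.inl ainv
      · exact Or.inr binv
    obtain ⟨m, rfl | rfl⟩ := ih <;> rcases hc with hc | hc <;> rw [hc]
    · exact ⟨m, Or.inr rfl⟩
    · exact ⟨m + 1, Or.inr (by rw [hb, ← mul_assoc, zpow_add_one])⟩
    · exact ⟨m, Or.inl (by rw [mul_assoc, aa, mul_one])⟩
    · refine ⟨m - 1, Or.inl ?_⟩
      rw [hb, mul_assoc, ← mul_assoc a, a_t, mul_assoc, aa, mul_one, zpow_sub_one]

theorem par_t : par t = 1 := by
  rw [t, map_mul, a, b, par_gen, par_gen]; decide

theorem par_t_zpow (m : ℤ) : par (t ^ m) = 1 := by rw [map_zpow, par_t, one_zpow]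

theorem par_a : par a = Multiplicative.ofAdd 1 := par_gen _

theorem even_form {g : D} (h : par g = 1) : ∃ m : ℤ, g = t ^ m := by
  obtain ⟨m, rfl | rfl⟩ := normal_form g
  · exact ⟨m, rfl⟩
  · rw [map_mul, par_t_zpow, one_mul, par_a] at h
    exact absurd h (by decide)

theorem even_comm {g h : D} (hg : par g = 1) (hh : par h = 1) : g * h = h * g := by
  obtain ⟨m, rfl⟩ := even_form hg
  obtain ⟨k, rfl⟩ := even_form hh
  rw [← zpow_add, ← zpow_add, add_comm]

theorem even_sq {g : D} (hg : par g = 1) (h : g * g = 1) : g = 1 := by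
  obtain ⟨m, rfl⟩ := even_form hg
  rw [← zpow_add] at h
  have := t_zpow_eq_one _ h
  have : m = 0 := by omega
  rw [this, zpow_zero]

/-! ### The complete multipartite graph `K_{2,…,2}` -/

/-- The complete `n`-partite graph with parts of size two. -/
def cross (n : ℕ) : SimpleGraph (Fin n × Bool) where
  Adj u v := u.1 ≠ v.1
  symm := ⟨fun _ _ h => Ne.symm h⟩
  loopless := ⟨fun _ h => h rfl⟩

/-- `C(K_{2,…,2}) → D^n`. -/
def toPi (n : ℕ) : RACG (cross n) →* (Fin n → D) :=
  lift (cross n) (fun u => Pi.mulSingle u.1 (gen G2 u.2))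
    (by
      rintro ⟨i, c⟩
      rw [← Pi.mulSingle_mul, gen_sq, Pi.mulSingle_one])
    (by
      rintro ⟨i, c⟩ ⟨j, d⟩ h
      exact Pi.mulSingle_commute h _ _)

/-- The inclusion of the `i`-th factor. -/
def incl (n : ℕ) (i : Fin n) : D →* RACG (cross n) :=
  lift G2 (fun c => gen (cross n) (i, c)) (fun _ => gen_sq _ _)
    (by intro u v h; exact absurd h id)

theorem incl_gen (n : ℕ) (i : Fin n) (c : Bool) :
    incl n i (gen G2 c) = gen (cross n) (i, c) := lift_gen _ _ _ _ _

theorem toPi_gen (n : ℕ) (i : Fin n) (c : Bool) :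
    toPi n (gen (cross n) (i, c)) = Pi.mulSingle i (gen G2 c) := lift_gen _ _ _ _ _

theorem incl_comm' (n : ℕ) {i j : Fin n} (h : i ≠ j) (x y : D) :
    Commute (incl n i x) (incl n j y) := by
  have hx : x ∈ Subgroup.closure (Set.range (gen G2)) := by rw [closure_gen]; trivial
  have hy : y ∈ Subgroup.closure (Set.range (gen G2)) := by rw [closure_gen]; trivial
  have step : ∀ c, Commute (incl n i (gen G2 c)) (incl n j y) := by
    intro c
    induction hy using Subgroup.closure_induction with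
    | mem y hy =>
      obtain ⟨d, rfl⟩ := hy
      rw [incl_gen, incl_gen]
      exact gen_comm _ h
    | one => simp
    | mul y z _ _ h1 h2 => rw [map_mul]; exact h1.mul_right h2
    | inv y _ h1 => rw [map_inv]; exact h1.inv_right
  induction hx using Subgroup.closure_induction with
  | mem x hx =>
    obtain ⟨c, rfl⟩ := hx
    exact step c
  | one => simp
  | mul y z _ _ h1 h2 => rw [map_mul]; exact h1.mul_left h2
  | inv y _ h1 => rw [map_inv]; exact h1.inv_left

theorem incl_comm (n : ℕ) :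
    Pairwise fun i j => ∀ x y : D, Commute (incl n i x) (incl n j y) :=
  fun _ _ h => incl_comm' n h

/-- `D^n → C(K_{2,…,2})`. -/
def ofPi (n : ℕ) : (Fin n → D) →* RACG (cross n) :=
  MonoidHom.noncommPiCoprod (incl n) (incl_comm n)

theorem ofPi_toPi (n : ℕ) (g : RACG (cross n)) : ofPi n (toPi n g) = g := by
  have : (ofPi n).comp (toPi n) = MonoidHom.id _ := by
    refine hom_ext ?_
    rintro ⟨i, c⟩
    rw [MonoidHom.comp_apply, toPi_gen, ofPi, MonoidHom.noncommPiCoprod_mulSingle, incl_gen]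
    rfl
  exact DFunLike.congr_fun this g

theorem toPi_injective (n : ℕ) : Function.Injective (toPi n) :=
  Function.LeftInverse.injective (ofPi_toPi n)

end Q32.Racg
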