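import Mathlib

/-!
Right-angled Coxeter groups by presentations.
-/

namespace Q32.Racg

variable {V : Type*}

/-- The relators `u²` and `[u,v]` for edges `{u,v}`. -/
def rels (Γ : SimpleGraph V) : Set (FreeGroup V) :=
  {r | (∃ u, r = FreeGroup.of u ^ 2) ∨
    ∃ u v, Γ.Adj u v ∧
      r = FreeGroup.of u * FreeGroup.of v * (FreeGroup.of u)⁻¹ * (FreeGroup.of v)⁻¹}

/-- The right-angled Coxeter group of a graph. -/
abbrev RACG (Γ : SimpleGraph V) : Type _ := PresentedGroup (rels Γ)

/-- The standard generators. -/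
def gen (Γ : SimpleGraph V) (u : V) : RACG Γ := PresentedGroup.of u

end Q32.Racg
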