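import Pool.Agent.Q32.Word

/-!
Schreier graphs, balls, and copies of balls of the Cayley graph.
-/

namespace Q32.Sch

variable {G : Type*} [Group G]

/-- The set of right cosets `H g`. -/
abbrev Cosets (H : Subgroup G) : Type _ := Quotient (QuotientGroup.rightRel H)

/-- The right coset `H g`. -/
def coset (H : Subgroup G) (g : G) : Cosets H := Quotient.mk _ g

/-- Right multiplication `(H g, s) ↦ H g s`. -/
def rmul {H : Subgroup G} (v : Cosets H) (s : G) : Cosets H :=
  Quotient.map' (· * s) (fun x y h => by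
    rw [QuotientGroup.rightRel_apply] at h ⊢
    simpa [mul_assoc] using h) v

/-- The underlying simple graph of the Schreier graph `Γ(G,H)`: it joins `v` and `v s`, for
`s ∈ S`. -/
def graph (S : Set G) (H : Subgroup G) : SimpleGraph (Cosets H) :=
  SimpleGraph.fromRel fun u v => ∃ s ∈ S, v = rmul u s

/-- The ball of radius `r` about `v` in the Schreier graph `Γ(G,H)`. -/
def ball (S : Set G) (H : Subgroup G) (v : Cosets H) (r : ℕ) : Set (Cosets H) :=
  {u | ∃ p : (graph S H).Walk v u, p.length ≤ r}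

/-- `v` is a copy of the ball of radius `n` of the Cayley graph `Γ(G,{1})` in the ball of radius
`R` about the root of `Γ(G,H)`: the ball of radius `n` about `v` is contained in the latter, and it
is isomorphic, as a rooted labelled graph, to the ball of radius `n` about the identity. -/
def IsCopy (S : Set G) (H : Subgroup G) (n R : ℕ) (v : Cosets H) : Prop :=
  ball S H v n ⊆ ball S H (coset H 1) R ∧
  ∃ φ : ball S H v n ≃ ball S (⊥ : Subgroup G) (coset ⊥ 1) n,
    (∀ u : ball S H v n, (u : Cosets H) = v → (φ u : Cosets (⊥ : Subgroup G)) = coset ⊥ 1) ∧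
    ∀ u u' : ball S H v n, ∀ s ∈ S,
      rmul (u : Cosets H) s = u' ↔ rmul (φ u : Cosets (⊥ : Subgroup G)) s = φ u'

/-- `H` is confined: there is a finite set `P ∌ 1` that meets every conjugate of `H`. -/
def IsConfined (H : Subgroup G) : Prop :=
  ∃ P : Finset G, (1 : G) ∉ P ∧ ∀ g : G, ∃ p ∈ P, g⁻¹ * p * g ∈ H

variable {H : Subgroup G}

theorem rmul_coset (g s : G) : rmul (coset H g) s = coset H (g * s) := rfl

theorem coset_eq {g g' : G} : coset H g = coset H g' ↔ g' * g⁻¹ ∈ H := by
  unfold coset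
  rw [Quotient.eq]
  exact QuotientGroup.rightRel_apply

theorem rmul_mul (v : Cosets H) (s t : G) : rmul v (s * t) = rmul (rmul v s) t := by
  induction v using Quotient.inductionOn with
  | h g =>
    change coset H (g * (s * t)) = coset H (g * s * t)
    rw [mul_assoc]

theorem rmul_one (v : Cosets H) : rmul v 1 = v := by
  induction v using Quotient.inductionOn with
  | h g =>
    change coset H (g * 1) = coset H g
    rw [mul_one]

theorem walk_of_list (S : Set G) (v : Cosets H) (l : List G) (hl : ∀ x ∈ l, x ∈ S ∨ x⁻¹ ∈ S) :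
    ∃ p : (graph S H).Walk v (rmul v l.prod), p.length ≤ l.length := by
  induction l using List.reverseRecOn with
  | nil =>
    rw [List.prod_nil, rmul_one]
    exact ⟨SimpleGraph.Walk.nil, le_rfl⟩
  | append_singleton l x ih =>
    obtain ⟨p, hp⟩ := ih fun y hy => hl y (by simp [hy])
    rw [List.prod_append, List.prod_singleton, rmul_mul, List.length_append,
      List.length_singleton]
    have hx := hl x (by simp)
    by_cases h : rmul v l.prod = rmul (rmul v l.prod) x
    · rw [← h]
      exact ⟨p, by omega⟩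
    · have hadj : (graph S H).Adj (rmul v l.prod) (rmul (rmul v l.prod) x) := by
        refine ⟨h, ?_⟩
        rcases hx with hx | hx
        · exact Or.inl ⟨x, hx, rfl⟩
        · refine Or.inr ⟨x⁻¹, hx, ?_⟩
          rw [← rmul_mul, mul_inv_cancel, rmul_one]
      refine ⟨p.concat hadj, ?_⟩
      rw [SimpleGraph.Walk.length_concat]
      omega

theorem list_of_walk (S : Set G) {v u : Cosets H} (p : (graph S H).Walk v u) :
    ∃ l : List G, (∀ x ∈ l, x ∈ S ∨ x⁻¹ ∈ S) ∧ l.length = p.length ∧ u = rmul v l.prod := by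
  induction p with
  | nil => exact ⟨[], by simp, rfl, by rw [List.prod_nil, rmul_one]⟩
  | @cons a b c hadj p ih =>
    obtain ⟨l, hl, hlen, hc⟩ := ih
    have hb : ∃ x : G, (x ∈ S ∨ x⁻¹ ∈ S) ∧ b = rmul a x := by
      rcases hadj with ⟨_, ⟨s, hs, h⟩ | ⟨s, hs, h⟩⟩
      · exact ⟨s, Or.inl hs, h⟩
      · refine ⟨s⁻¹, Or.inr (by simpa using hs), ?_⟩
        rw [h, ← rmul_mul, mul_inv_cancel, rmul_one]
    obtain ⟨x, hx, hb⟩ := hb
    refine ⟨x :: l, ?_, ?_, ?_⟩
    · intro y hy
      rcases List.mem_cons.1 hy with rfl | hy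
      · exact hx
      · exact hl y hy
    · rw [List.length_cons, hlen, SimpleGraph.Walk.length_cons]
    · rw [List.prod_cons, rmul_mul, ← hb, hc]

/-- In a copy of a ball, distinct short words lead to distinct vertices. -/
theorem IsCopy.inj {S : Set G} {n R : ℕ} {v : Cosets H} (h : IsCopy S H n R v)
    {l l' : List G} (hl : ∀ x ∈ l, x ∈ S ∨ x⁻¹ ∈ S) (hl' : ∀ x ∈ l', x ∈ S ∨ x⁻¹ ∈ S)
    (hn : l.length ≤ n) (hn' : l'.length ≤ n) (heq : rmul v l.prod = rmul v l'.prod) :
    l.prod = l'.prod := by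
  obtain ⟨_, φ, hφ1, hφ2⟩ := h
  have key : ∀ l : List G, (∀ x ∈ l, x ∈ S ∨ x⁻¹ ∈ S) → l.length ≤ n →
      ∀ u : ball S H v n, (u : Cosets H) = rmul v l.prod →
        (φ u : Cosets (⊥ : Subgroup G)) = coset ⊥ l.prod := by
    intro l
    induction l using List.reverseRecOn with
    | nil =>
      intro _ _ u hu
      rw [List.prod_nil, rmul_one] at hu
      rw [List.prod_nil]
      exact hφ1 u hu
    | append_singleton l x ih =>
      intro hl hn u hu
      have hl0 : ∀ y ∈ l, y ∈ S ∨ y⁻¹ ∈ S := fun y hy => hl y (by simp [hy])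
      rw [List.length_append, List.length_singleton] at hn
      obtain ⟨p, hp⟩ := walk_of_list S v l hl0
      have hmem : rmul v l.prod ∈ ball S H v n := ⟨p, by omega⟩
      have h1 := ih hl0 (by omega) ⟨_, hmem⟩ rfl
      rw [List.prod_append, List.prod_singleton, rmul_mul] at hu
      rw [List.prod_append, List.prod_singleton, ← rmul_coset, ← h1]
      rcases hl x (by simp) with hx | hx
      · exact ((hφ2 ⟨_, hmem⟩ u x hx).1 hu.symm).symm
      · have h2 : rmul (u : Cosets H) x⁻¹ = (⟨_, hmem⟩ : ball S H v n) := by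
          rw [hu, ← rmul_mul, mul_inv_cancel, rmul_one]
        have h3 := (hφ2 u ⟨_, hmem⟩ x⁻¹ hx).1 h2
        rw [← h3, ← rmul_mul, inv_mul_cancel, rmul_one]
  obtain ⟨p, hp⟩ := walk_of_list S v l hl
  have hmem : rmul v l.prod ∈ ball S H v n := ⟨p, by omega⟩
  have h1 := key l hl hn ⟨_, hmem⟩ rfl
  have h2 := key l' hl' hn' ⟨_, hmem⟩ heq
  have h3 := h1.symm.trans h2
  rw [coset_eq, Subgroup.mem_bot, mul_inv_eq_one] at h3
  exact h3.symm

/-- If a conjugate `g⁻¹ H g` contains a nontrivial element of length at most `2 n`, then `H g` is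
not a copy of the ball of radius `n`. -/
theorem not_copy {S : Set G} {n R : ℕ} {g f : G} (hf : f ≠ 1) (hH : g * f * g⁻¹ ∈ H)
    {l : List G} (hl : ∀ x ∈ l, x ∈ S ∨ x⁻¹ ∈ S) (hprod : l.prod = f) (hlen : l.length ≤ 2 * n) :
    ¬ IsCopy S H n R (coset H g) := by
  intro h
  let l1 := l.take n
  let l2 := ((l.drop n).map fun x => x⁻¹).reverse
  have hl1 : ∀ x ∈ l1, x ∈ S ∨ x⁻¹ ∈ S := fun x hx => hl x (List.mem_of_mem_take hx)
  have hl2 : ∀ x ∈ l2, x ∈ S ∨ x⁻¹ ∈ S := by
    intro x hx
    simp only [l2, List.mem_reverse, List.mem_map] at hx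
    obtain ⟨y, hy, rfl⟩ := hx
    rcases hl y (List.mem_of_mem_drop hy) with h | h
    · exact Or.inr (by simpa using h)
    · exact Or.inl h
  have e : l1.prod * l2.prod⁻¹ = f := by
    have h2 : l2.prod = (l.drop n).prod⁻¹ := (List.prod_inv_reverse _).symm
    rw [h2, inv_inv, ← hprod, ← List.prod_append, List.take_append_drop]
  have hn1 : l1.length ≤ n := by simp only [l1, List.length_take]; omega
  have hn2 : l2.length ≤ n := by
    simp only [l2, List.length_reverse, List.length_map, List.length_drop]; omega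
  have heq : rmul (coset H g) l1.prod = rmul (coset H g) l2.prod := by
    rw [rmul_coset, rmul_coset, coset_eq]
    have : g * l2.prod * (g * l1.prod)⁻¹ = (g * f * g⁻¹)⁻¹ := by
      rw [← e]; group
    rw [this]
    exact H.inv_mem hH
  have := h.inj hl1 hl2 hn1 hn2 heq
  apply hf
  rw [← e, this, mul_inv_cancel]

end Q32.Sch
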