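import Pool.Agent.Q32.Cay

/-!
Word lengths in `ℤ × ℤ/2n` for the generators `(1,0), (1,1), (0,1)`.
-/

namespace Q32.Shadow

open Q32

/-- The group `ℤ × ℤ/2n`, written multiplicatively. -/
abbrev Grp (n : ℕ) : Type := Multiplicative (ℤ × ZMod (2 * n))

/-- The generating set `(1,0), (1,1), (0,1)`. -/
def gens (n : ℕ) : Set (Grp n) :=
  {Multiplicative.ofAdd (1, 0), Multiplicative.ofAdd (1, 1), Multiplicative.ofAdd (0, 1)}

/-- The element `(k, z)`. -/
def el (n : ℕ) (k z : ℤ) : Grp n := Multiplicative.ofAdd (k, (z : ZMod (2 * n)))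

theorem el_mul (n : ℕ) (k z k' z' : ℤ) : el n k z * el n k' z' = el n (k + k') (z + z') := by
  simp [el, ← ofAdd_add]

theorem el_inv (n : ℕ) (k z : ℤ) : (el n k z)⁻¹ = el n (-k) (-z) := by
  simp [el, ← ofAdd_neg]

theorem el_one (n : ℕ) : el n 0 0 = 1 := by
  simp only [el, Int.cast_zero]; rfl

theorem el_pow (n : ℕ) (k z : ℤ) (m : ℕ) : (el n k z) ^ m = el n (m * k) (m * z) := by
  simp [el, ← ofAdd_nsmul]

theorem gens_eq (n : ℕ) : gens n = {el n 1 0, el n 1 1, el n 0 1} := by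
  simp [gens, el]

theorem exists_el (n : ℕ) (g : Grp n) : ∃ k z : ℤ, g = el n k z := by
  obtain ⟨z, hz⟩ := ZMod.intCast_surjective (Multiplicative.toAdd g).2
  refine ⟨(Multiplicative.toAdd g).1, z, ?_⟩
  simp only [el, hz]; rfl

theorem el_zpow (n : ℕ) (k z : ℤ) (m : ℤ) : (el n k z) ^ m = el n (m * k) (m * z) := by
  simp [el, ← ofAdd_zsmul]

theorem closure_gens (n : ℕ) : Subgroup.closure (gens n) = ⊤ := by
  rw [eq_top_iff]
  intro g _
  obtain ⟨k, z, rfl⟩ := exists_el n g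
  have h1 : el n 1 0 ∈ Subgroup.closure (gens n) :=
    Subgroup.subset_closure (by simp [gens_eq])
  have h2 : el n 0 1 ∈ Subgroup.closure (gens n) :=
    Subgroup.subset_closure (by simp [gens_eq])
  have : el n k z = (el n 1 0) ^ k * (el n 0 1) ^ z := by
    rw [el_zpow, el_zpow, el_mul]; simp
  rw [this]
  exact Subgroup.mul_mem _ (Subgroup.zpow_mem _ h1 _) (Subgroup.zpow_mem _ h2 _)

/-- Lifts of walks. -/
theorem lift_walk (n : ℕ) {g h : Grp n} (p : (cay (gens n)).Walk g h) :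
    ∃ k z : ℤ, h = g * el n k z ∧ |k| ≤ p.length ∧ |z| ≤ p.length ∧ |k - z| ≤ p.length := by
  induction p with
  | nil => exact ⟨0, 0, by simp [el_one], by simp, by simp, by simp⟩
  | @cons u v w hadj p ih =>
    obtain ⟨k, z, hk, h1, h2, h3⟩ := ih
    have hstep : ∃ a b : ℤ, v = u * el n a b ∧ |a| ≤ 1 ∧ |b| ≤ 1 ∧ |a - b| ≤ 1 := by
      obtain ⟨_, s, hs, hv⟩ := hadj
      rw [gens_eq] at hs
      have hcase : ∃ a b : ℤ, s = el n a b ∧ |a| ≤ 1 ∧ |b| ≤ 1 ∧ |a - b| ≤ 1 := by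
        simp only [Set.mem_insert_iff, Set.mem_singleton_iff] at hs
        rcases hs with rfl | rfl | rfl
        · exact ⟨1, 0, rfl, by norm_num, by norm_num, by norm_num⟩
        · exact ⟨1, 1, rfl, by norm_num, by norm_num, by norm_num⟩
        · exact ⟨0, 1, rfl, by norm_num, by norm_num, by norm_num⟩
      obtain ⟨a, b, rfl, ha, hb, hab⟩ := hcase
      rcases hv with hv | hv
      · exact ⟨a, b, hv, ha, hb, hab⟩
      · refine ⟨-a, -b, ?_, by rwa [abs_neg], by rwa [abs_neg], ?_⟩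
        · rw [← el_inv, hv]; simp
        · rw [show -a - -b = -(a - b) by ring, abs_neg]; exact hab
    obtain ⟨a, b, hv, ha, hb, hab⟩ := hstep
    refine ⟨a + k, b + z, ?_, ?_, ?_, ?_⟩
    · rw [hk, hv, mul_assoc, el_mul]
    · rw [SimpleGraph.Walk.length_cons]; push_cast
      have := abs_add_le a k; omega
    · rw [SimpleGraph.Walk.length_cons]; push_cast
      have := abs_add_le b z; omega
    · rw [SimpleGraph.Walk.length_cons]; push_cast
      have := abs_add_le (a - b) (k - z)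
      rw [show a - b + (k - z) = a + k - (b + z) by ring] at this; omega

theorem el_eq_iff (n : ℕ) (k z k' z' : ℤ) :
    el n k z = el n k' z' ↔ k = k' ∧ ((2 * n : ℕ) : ℤ) ∣ z' - z := by
  unfold el
  rw [Multiplicative.ofAdd.injective.eq_iff, Prod.mk.injEq, ZMod.intCast_eq_intCast_iff_dvd_sub]

theorem wlen_abc (n : ℕ) (a b c : ℕ) :
    wlen (gens n) (el n (a + b) (b + c)) ≤ a + b + c := by
  have hS := closure_gens n
  have e : el n (a + b) (b + c) = (el n 1 0) ^ a * (el n 1 1) ^ b * (el n 0 1) ^ c := by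
    rw [el_pow, el_pow, el_pow, el_mul, el_mul]; simp
  rw [e]
  have h1 : wlen (gens n) (el n 1 0) ≤ 1 := wlen_le_one (by simp [gens_eq])
  have h2 : wlen (gens n) (el n 1 1) ≤ 1 := wlen_le_one (by simp [gens_eq])
  have h3 : wlen (gens n) (el n 0 1) ≤ 1 := wlen_le_one (by simp [gens_eq])
  have k1 := (wlen_pow_le hS (el n 1 0) a).trans (Nat.mul_le_mul_left a h1)
  have k2 := (wlen_pow_le hS (el n 1 1) b).trans (Nat.mul_le_mul_left b h2)
  have k3 := (wlen_pow_le hS (el n 0 1) c).trans (Nat.mul_le_mul_left c h3)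
  have k4 := wlen_mul_le hS ((el n 1 0) ^ a * (el n 1 1) ^ b) ((el n 0 1) ^ c)
  have k5 := wlen_mul_le hS ((el n 1 0) ^ a) ((el n 1 1) ^ b)
  omega

theorem wlen_neg_el (n : ℕ) (k z : ℤ) :
    wlen (gens n) (el n (-k) (-z)) = wlen (gens n) (el n k z) := by
  rw [← el_inv]; exact wlen_inv (closure_gens n) _

/-- For `|k| ≥ 2n - 1` the length of `(k,z)` is at most `|k|`. -/
theorem wlen_far (n : ℕ) (hn : 1 ≤ n) (k z : ℤ) (hk : 2 * (n : ℤ) - 1 ≤ |k|) :
    (wlen (gens n) (el n k z) : ℤ) ≤ |k| := by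
  wlog h : 0 ≤ k generalizing k z with H
  · rw [← wlen_neg_el, ← abs_neg]
    exact H (-k) (-z) (by rwa [abs_neg]) (by omega)
  obtain ⟨k, rfl⟩ := Int.eq_ofNat_of_zero_le h
  rw [abs_of_nonneg h] at hk ⊢
  have hpos : (0 : ℤ) < ((2 * n : ℕ) : ℤ) := by push_cast; omega
  obtain ⟨b, hb⟩ := Int.eq_ofNat_of_zero_le (Int.emod_nonneg z hpos.ne')
  have hlt := Int.emod_lt_of_pos z hpos
  have hbk : b ≤ k := by rw [hb] at hlt; push_cast at hlt; omega
  have e : el n k z = el n ((k - b : ℕ) + b) (b + (0 : ℕ)) := by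
    rw [el_eq_iff]
    refine ⟨by push_cast [hbk]; ring, ?_⟩
    have h2 := Int.emod_add_mul_ediv z ((2 * n : ℕ) : ℤ)
    refine ⟨-(z / ((2 * n : ℕ) : ℤ)), ?_⟩
    rw [hb] at h2
    push_cast at h2 ⊢
    linarith
  rw [e]
  have := wlen_abc n (k - b) b 0
  simp only [add_zero] at this
  calc (wlen (gens n) (el n ((k - b : ℕ) + b) (b + (0 : ℕ))) : ℤ) ≤ ((k - b + b : ℕ) : ℤ) := by
        exact_mod_cast this
    _ = k := by rw [Nat.sub_add_cancel hbk]

/-- The length of `(k,z)` is at most `|k| + n`. -/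
theorem wlen_le (n : ℕ) (hn : 1 ≤ n) (k z : ℤ) :
    (wlen (gens n) (el n k z) : ℤ) ≤ |k| + n := by
  have hS := closure_gens n
  have hpos : (0 : ℤ) < ((2 * n : ℕ) : ℤ) := by push_cast; omega
  -- the cyclic part
  have key : ∀ z : ℤ, (wlen (gens n) (el n 0 z) : ℤ) ≤ n := by
    intro z
    obtain ⟨b, hb⟩ := Int.eq_ofNat_of_zero_le (Int.emod_nonneg z hpos.ne')
    have hlt := Int.emod_lt_of_pos z hpos
    have h2 := Int.emod_add_mul_ediv z ((2 * n : ℕ) : ℤ)
    rw [hb] at h2 hlt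
    rcases Nat.lt_or_ge n b with hlt2 | hle
    · -- use `-(2n - b)`
      have e : el n 0 z = el n (-((0 : ℕ) + (0 : ℕ))) (-((0 : ℕ) + (2 * n - b : ℕ))) := by
        rw [el_eq_iff]
        refine ⟨by simp, ?_⟩
        refine ⟨-(z / ((2 * n : ℕ) : ℤ)) - 1, ?_⟩
        push_cast at hlt h2 ⊢
        have hb2 : b ≤ 2 * n := by omega
        push_cast [Nat.cast_sub hb2]
        linarith
      rw [e, wlen_neg_el]
      have := wlen_abc n 0 0 (2 * n - b)
      have h3 : wlen (gens n) (el n ((0 : ℕ) + (0 : ℕ)) ((0 : ℕ) + (2 * n - b : ℕ))) ≤ n := by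
        refine this.trans ?_
        push_cast at hlt; omega
      exact_mod_cast h3
    · have e : el n 0 z = el n ((0 : ℕ) + (0 : ℕ)) ((0 : ℕ) + (b : ℕ)) := by
        rw [el_eq_iff]
        refine ⟨by simp, ?_⟩
        refine ⟨-(z / ((2 * n : ℕ) : ℤ)), ?_⟩
        push_cast at h2 ⊢
        linarith
      rw [e]
      have := wlen_abc n 0 0 b
      have h3 : wlen (gens n) (el n ((0 : ℕ) + (0 : ℕ)) ((0 : ℕ) + (b : ℕ))) ≤ n := by
        refine this.trans ?_
        omega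
      exact_mod_cast h3
  have key2 : (wlen (gens n) (el n k 0) : ℤ) ≤ |k| := by
    wlog h : 0 ≤ k generalizing k with H
    · rw [← wlen_neg_el, neg_zero, ← abs_neg]
      exact H (-k) (by omega)
    obtain ⟨k, rfl⟩ := Int.eq_ofNat_of_zero_le h
    rw [abs_of_nonneg h]
    have := wlen_abc n k 0 0
    simpa using this
  have e : el n k z = el n k 0 * el n 0 z := by rw [el_mul]; simp
  have h1 := wlen_mul_le hS (el n k 0) (el n 0 z)
  rw [← e] at h1
  have := key z
  push_cast at *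
  omega

theorem dvd_n (n : ℕ) (hn : 1 ≤ n) (z : ℤ) (h : ((2 * n : ℕ) : ℤ) ∣ z - n) : (n : ℤ) ≤ |z| := by
  obtain ⟨c, hc⟩ := h
  have hz : z = n * (2 * c + 1) := by push_cast at hc; linarith
  rw [hz, abs_mul, abs_of_nonneg (by omega : (0 : ℤ) ≤ n)]
  have : (1 : ℤ) ≤ |2 * c + 1| := by
    rcases le_or_gt 0 c with h | h
    · rw [abs_of_nonneg (by omega)]; omega
    · rw [abs_of_neg (by omega)]; omega
  nlinarith

/-- The length of `(0,n)` is `n`. -/
theorem wlen_top (n : ℕ) (hn : 1 ≤ n) : wlen (gens n) (el n 0 n) = n := by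
  refine le_antisymm ?_ ?_
  · have := wlen_abc n 0 0 n
    simpa using this
  · obtain ⟨p, hp⟩ := (cay_connected (closure_gens n)).exists_walk_length_eq_dist 1 (el n 0 n)
    obtain ⟨k, z, h, _, h2, _⟩ := lift_walk n p
    rw [one_mul, el_eq_iff] at h
    have := dvd_n n hn z h.2
    rw [wlen, ← hp]
    omega

/-- Elements on a geodesic to `(0,n)` lie in the finite factor. -/
theorem on_geod (n : ℕ) (hn : 1 ≤ n) (y : Grp n)
    (hy : wlen (gens n) y + (cay (gens n)).dist y (el n 0 n) = n) : ∃ z, y = el n 0 z := by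
  obtain ⟨p, hp⟩ := (cay_connected (closure_gens n)).exists_walk_length_eq_dist 1 y
  obtain ⟨q, hq⟩ := (cay_connected (closure_gens n)).exists_walk_length_eq_dist y (el n 0 n)
  obtain ⟨k, z, h, h1, h2, h3⟩ := lift_walk n p
  obtain ⟨k', z', h', h1', h2', h3'⟩ := lift_walk n q
  rw [one_mul] at h
  subst h
  rw [el_mul, el_eq_iff] at h'
  have hd := dvd_n n hn (z + z') h'.2
  have hk : k' = -k := by omega
  subst hk
  have hlen : (p.length : ℤ) + q.length = n := by
    rw [hp, hq]; rw [wlen] at hy; exact_mod_cast hy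
  have a1 : |z + z' - k| ≤ n := by
    have := abs_add_le (-(k - z)) z'
    rw [abs_neg, show -(k - z) + z' = z + z' - k by ring] at this
    omega
  have a2 : |z + z' + k| ≤ n := by
    have := abs_add_le z (-(-k - z'))
    rw [abs_neg, show z + -(-k - z') = z + z' + k by ring] at this
    omega
  have hk0 : k = 0 := by
    rw [abs_le] at a1 a2
    rcases le_abs.1 hd with h | h <;> omega
  exact ⟨z, by rw [hk0]⟩

end Q32.Shadow
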