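import Pool.Agent.Q32.ThFDefs
import Pool.Agent.Q32.Schreier

/-!
Thompson's group `F`: explicit elements and Lipschitz bounds.
-/

namespace Q32.ThF

/-- Every element of `F` is Lipschitz. -/
theorem Breaks.lipschitz {f : U ≃o U} {D : Finset U} (hD : Breaks f D) (a b : U) (hab : a ≤ b) :
    ∃ L : ℕ, ∀ x y : U, a ≤ x → x ≤ y → y ≤ b → (f y : ℝ) - f x ≤ 2 ^ L * ((y : ℝ) - x) := by
  classical
  induction hN : (D.filter fun d => a < d ∧ d < b).card using
    Nat.strong_induction_on generalizing a b with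
  | _ N ih =>
    by_cases h : ∀ d ∈ D, ¬ (a < d ∧ d < b)
    · obtain ⟨k, c, hkc⟩ := hD.2 a b hab h
      refine ⟨k.toNat, fun x y hax hxy hyb => ?_⟩
      rw [hkc x hax (hxy.trans hyb), hkc y (hax.trans hxy) hyb]
      have h1 : (2 : ℝ) ^ k ≤ 2 ^ k.toNat := by
        rw [← zpow_natCast]
        exact zpow_le_zpow_right₀ (by norm_num) (Int.self_le_toNat k)
      have h2 : (0 : ℝ) ≤ (y : ℝ) - x := sub_nonneg.2 hxy
      have : (2 : ℝ) ^ k * y + c - (2 ^ k * x + c) = 2 ^ k * ((y : ℝ) - x) := by ring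
      rw [this]
      exact mul_le_mul_of_nonneg_right h1 h2
    · push Not at h
      obtain ⟨e, heD, hae, heb⟩ := h
      have hc1 : (D.filter fun d => a < d ∧ d < e).card < N := by
        rw [← hN]
        refine Finset.card_lt_card ?_
        rw [Finset.ssubset_iff_subset_ne]
        refine ⟨fun d hd => ?_, fun heq => ?_⟩
        · rw [Finset.mem_filter] at hd ⊢
          exact ⟨hd.1, hd.2.1, hd.2.2.trans heb⟩
        · have : e ∈ D.filter fun d => a < d ∧ d < e := by
            rw [heq]; exact Finset.mem_filter.2 ⟨heD, hae, heb⟩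
          exact lt_irrefl e (Finset.mem_filter.1 this).2.2
      have hc2 : (D.filter fun d => e < d ∧ d < b).card < N := by
        rw [← hN]
        refine Finset.card_lt_card ?_
        rw [Finset.ssubset_iff_subset_ne]
        refine ⟨fun d hd => ?_, fun heq => ?_⟩
        · rw [Finset.mem_filter] at hd ⊢
          exact ⟨hd.1, hae.trans hd.2.1, hd.2.2⟩
        · have : e ∈ D.filter fun d => e < d ∧ d < b := by
            rw [heq]; exact Finset.mem_filter.2 ⟨heD, hae, heb⟩
          exact lt_irrefl e (Finset.mem_filter.1 this).2.1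
      obtain ⟨L1, h1⟩ := ih _ hc1 a e hae.le rfl
      obtain ⟨L2, h2⟩ := ih _ hc2 e b heb.le rfl
      have m1 : (2 : ℝ) ^ L1 ≤ 2 ^ (max L1 L2) := pow_le_pow_right₀ (by norm_num) (le_max_left _ _)
      have m2 : (2 : ℝ) ^ L2 ≤ 2 ^ (max L1 L2) :=
        pow_le_pow_right₀ (by norm_num) (le_max_right _ _)
      refine ⟨max L1 L2, fun x y hax hxy hyb => ?_⟩
      have hxy' : (0 : ℝ) ≤ (y : ℝ) - x := sub_nonneg.2 hxy
      rcases le_total y e with hye | hey
      · exact (h1 x y hax hxy hye).trans (mul_le_mul_of_nonneg_right m1 hxy')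
      · rcases le_total x e with hxe | hex
        · have a1 := h1 x e hax hxe le_rfl
          have a2 := h2 e y le_rfl hey hyb
          have b1 : (0 : ℝ) ≤ (e : ℝ) - x := sub_nonneg.2 hxe
          have b2 : (0 : ℝ) ≤ (y : ℝ) - e := sub_nonneg.2 hey
          have c1 := mul_le_mul_of_nonneg_right m1 b1
          have c2 := mul_le_mul_of_nonneg_right m2 b2
          have : (2 : ℝ) ^ (max L1 L2) * ((y : ℝ) - x) =
            2 ^ (max L1 L2) * ((e : ℝ) - x) + 2 ^ (max L1 L2) * ((y : ℝ) - e) := by ring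
          linarith
        · exact (h2 x y hex hxy hyb).trans (mul_le_mul_of_nonneg_right m2 hxy')

/-- `f` is `2 ^ L`-Lipschitz. -/
def Lip (f : U ≃o U) (L : ℕ) : Prop :=
  ∀ x y : U, x ≤ y → (f y : ℝ) - f x ≤ 2 ^ L * ((y : ℝ) - x)

theorem exists_lip (f : F) : ∃ L : ℕ, Lip (f : U ≃o U) L := by
  obtain ⟨D, hD⟩ := f.2
  obtain ⟨L, hL⟩ := hD.lipschitz ⟨0, by simp⟩ ⟨1, by simp⟩ (by
    rw [Subtype.mk_le_mk]; norm_num)
  exact ⟨L, fun x y hxy => hL x y x.2.1 hxy y.2.2⟩

theorem Lip.mono {f : U ≃o U} {L L' : ℕ} (h : Lip f L) (hL : L ≤ L') : Lip f L' := by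
  intro x y hxy
  refine (h x y hxy).trans (mul_le_mul_of_nonneg_right ?_ (sub_nonneg.2 hxy))
  exact pow_le_pow_right₀ (by norm_num) hL

theorem Lip.mul {f g : U ≃o U} {L M : ℕ} (hf : Lip f L) (hg : Lip g M) : Lip (f * g) (L + M) := by
  intro x y hxy
  have h1 := hf (g x) (g y) (g.monotone hxy)
  have h2 := mul_le_mul_of_nonneg_left (hg x y hxy) (by positivity : (0 : ℝ) ≤ 2 ^ L)
  rw [pow_add, mul_assoc]
  exact h1.trans h2

theorem lip_one : Lip (1 : U ≃o U) 0 := by
  intro x y _
  simp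

/-! ### Explicit elements -/

/-- The increasing bijection `min (2x) (x + 1/4) ((x+1)/2)` of the line. -/
noncomputable def hR (x : ℝ) : ℝ := min (2 * x) (min (x + 1 / 4) ((x + 1) / 2))

/-- Its inverse. -/
noncomputable def hRi (x : ℝ) : ℝ := max (x / 2) (max (x - 1 / 4) (2 * x - 1))

theorem hR_strictMono : StrictMono hR := by
  intro x y hxy
  exact min_lt_min (by linarith) (min_lt_min (by linarith) (by linarith))

theorem hR_hRi (x : ℝ) : hR (hRi x) = x := by
  unfold hR hRi
  rcases le_total x (1 / 2) with h | h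
  · rw [max_eq_left (a := x / 2) (by
      refine max_le ?_ ?_ <;> linarith)]
    rw [min_eq_left]
    · ring
    · refine le_min ?_ ?_ <;> linarith
  · rcases le_total x (3 / 4) with h' | h'
    · rw [max_eq_left (a := x - 1 / 4) (by linarith), max_eq_right (by linarith),
        min_eq_left (a := x - 1 / 4 + 1 / 4) (by linarith), min_eq_right (by linarith)]
      ring
    · rw [max_eq_right (a := x - 1 / 4) (by linarith), max_eq_right (by linarith),
        min_eq_right (a := 2 * x - 1 + 1 / 4) (by linarith), min_eq_right (by linarith)]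
      ring

/-- The increasing bijection of the line supported in `(1/2, 3/4)`. -/
noncomputable def bR (x : ℝ) : ℝ :=
  max x (min (2 * x - 1 / 2) (min (x + 1 / 16) (x / 2 + 3 / 8)))

/-- Its inverse. -/
noncomputable def bRi (x : ℝ) : ℝ :=
  min x (max (x / 2 + 1 / 4) (max (x - 1 / 16) (2 * x - 3 / 4)))

theorem bR_strictMono : StrictMono bR := by
  intro x y hxy
  exact max_lt_max hxy (min_lt_min (by linarith) (min_lt_min (by linarith) (by linarith)))

theorem bR_bRi (x : ℝ) : bR (bRi x) = x := by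
  rcases le_total x (1 / 2) with h | h
  · have e : bRi x = x := by
      unfold bRi
      exact min_eq_left (le_max_of_le_left (by linarith))
    rw [e, bR]
    exact max_eq_left ((min_le_left _ _).trans (by linarith))
  · rcases le_total x (3 / 4) with h4 | h4
    · rcases le_total x (5 / 8) with h2 | h2
      · have e : bRi x = x / 2 + 1 / 4 := by
          unfold bRi
          rw [max_eq_left (a := x / 2 + 1 / 4) (by refine max_le ?_ ?_ <;> linarith)]
          exact min_eq_right (by linarith)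
        rw [e, bR, min_eq_left (by refine le_min ?_ ?_ <;> linarith),
          max_eq_right (by linarith)]
        ring
      · rcases le_total x (11 / 16) with h3 | h3
        · have e : bRi x = x - 1 / 16 := by
            unfold bRi
            rw [max_eq_left (a := x - 1 / 16) (by linarith),
              max_eq_right (a := x / 2 + 1 / 4) (by linarith)]
            exact min_eq_right (by linarith)
          rw [e, bR, min_eq_left (a := x - 1 / 16 + 1 / 16) (by linarith),
            min_eq_right (by linarith), max_eq_right (by linarith)]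
          ring
        · have e : bRi x = 2 * x - 3 / 4 := by
            unfold bRi
            rw [max_eq_right (a := x - 1 / 16) (by linarith),
              max_eq_right (a := x / 2 + 1 / 4) (by linarith)]
            exact min_eq_right (by linarith)
          rw [e, bR, min_eq_right (a := 2 * x - 3 / 4 + 1 / 16) (by linarith),
            min_eq_right (by linarith), max_eq_right (by linarith)]
          ring
    · have e : bRi x = x := by
        unfold bRi
        exact min_eq_left (le_max_of_le_right (le_max_of_le_right (by linarith)))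
      rw [e, bR]
      exact max_eq_left (((min_le_right _ _).trans (min_le_right _ _)).trans (by linarith))

theorem hR_mem {x : ℝ} (hx : x ∈ Set.Icc (0 : ℝ) 1) : hR x ∈ Set.Icc (0 : ℝ) 1 := by
  obtain ⟨h0, h1⟩ := hx
  refine ⟨?_, ?_⟩
  · unfold hR; refine le_min ?_ (le_min ?_ ?_) <;> linarith
  · unfold hR; exact ((min_le_right _ _).trans (min_le_right _ _)).trans (by linarith)

theorem hRi_mem {x : ℝ} (hx : x ∈ Set.Icc (0 : ℝ) 1) : hRi x ∈ Set.Icc (0 : ℝ) 1 := by
  obtain ⟨h0, h1⟩ := hx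
  refine ⟨?_, ?_⟩
  · unfold hRi; exact le_max_of_le_left (by linarith)
  · unfold hRi; refine max_le ?_ (max_le ?_ ?_) <;> linarith

theorem bR_mem {x : ℝ} (hx : x ∈ Set.Icc (0 : ℝ) 1) : bR x ∈ Set.Icc (0 : ℝ) 1 := by
  obtain ⟨h0, h1⟩ := hx
  refine ⟨?_, ?_⟩
  · unfold bR; exact le_max_of_le_left h0
  · unfold bR; exact max_le h1 (((min_le_right _ _).trans (min_le_right _ _)).trans (by linarith))

theorem bRi_mem {x : ℝ} (hx : x ∈ Set.Icc (0 : ℝ) 1) : bRi x ∈ Set.Icc (0 : ℝ) 1 := by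
  obtain ⟨h0, h1⟩ := hx
  refine ⟨?_, ?_⟩
  · unfold bRi; exact le_min h0 (le_max_of_le_left (by linarith))
  · unfold bRi; exact (min_le_left _ _).trans h1

/-- The generator pushing towards `1`, as an order automorphism of `[0,1]`. -/
noncomputable def hU : U ≃o U :=
  StrictMono.orderIsoOfRightInverse (fun x : U => (⟨hR x, hR_mem x.2⟩ : U))
    (fun _ _ h => hR_strictMono h) (fun x : U => (⟨hRi x, hRi_mem x.2⟩ : U))
    (fun x => Subtype.ext (hR_hRi x))

/-- The bump, as an order automorphism of `[0,1]`. -/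
noncomputable def bU : U ≃o U :=
  StrictMono.orderIsoOfRightInverse (fun x : U => (⟨bR x, bR_mem x.2⟩ : U))
    (fun _ _ h => bR_strictMono h) (fun x : U => (⟨bRi x, bRi_mem x.2⟩ : U))
    (fun x => Subtype.ext (bR_bRi x))

theorem hU_apply (x : U) : (hU x : ℝ) = hR x := rfl
theorem bU_apply (x : U) : (bU x : ℝ) = bR x := rfl

theorem isDyadic_div (a : ℤ) (m : ℕ) : IsDyadic ((a : ℝ) / 2 ^ m) := ⟨a, m, rfl⟩

theorem hU_mem : hU ∈ F := by
  classical
  refine ⟨{⟨1 / 4, by norm_num⟩, ⟨1 / 2, by norm_num⟩}, ?_, ?_⟩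
  · intro d hd
    simp only [Finset.mem_insert, Finset.mem_singleton] at hd
    rcases hd with rfl | rfl
    · exact ⟨1, 2, by norm_num⟩
    · exact ⟨1, 1, by norm_num⟩
  · intro x y hxy hno
    have h1 := hno ⟨1 / 4, by norm_num⟩ (by simp)
    have h2 := hno ⟨1 / 2, by norm_num⟩ (by simp)
    have h1' : ¬ ((x : ℝ) < 1 / 4 ∧ 1 / 4 < (y : ℝ)) := h1
    have h2' : ¬ ((x : ℝ) < 1 / 2 ∧ 1 / 2 < (y : ℝ)) := h2
    have hxy' : (x : ℝ) ≤ y := hxy
    by_cases c1 : (y : ℝ) ≤ 1 / 4
    · refine ⟨1, 0, fun z hz1 hz2 => ?_⟩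
      have hz2' : (z : ℝ) ≤ y := hz2
      rw [hU_apply, hR, min_eq_left]
      · norm_num
      · refine le_min ?_ ?_ <;> linarith
    · by_cases c2 : (y : ℝ) ≤ 1 / 2
      · have hx : 1 / 4 ≤ (x : ℝ) := by
          by_contra h
          exact h1' ⟨by linarith, by linarith⟩
        refine ⟨0, 1 / 4, fun z hz1 hz2 => ?_⟩
        have hz2' : (z : ℝ) ≤ y := hz2
        have hz1' : (x : ℝ) ≤ z := hz1
        rw [hU_apply, hR, min_eq_left (a := (z : ℝ) + 1 / 4) (by linarith),
          min_eq_right (by linarith)]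
        norm_num
      · have hx : 1 / 2 ≤ (x : ℝ) := by
          by_contra h
          exact h2' ⟨by linarith, by linarith⟩
        refine ⟨-1, 1 / 2, fun z hz1 hz2 => ?_⟩
        have hz1' : (x : ℝ) ≤ z := hz1
        rw [hU_apply, hR, min_eq_right (a := (z : ℝ) + 1 / 4) (by linarith),
          min_eq_right (by linarith)]
        norm_num
        ring

theorem bU_mem : bU ∈ F := by
  classical
  refine ⟨{⟨1 / 2, by norm_num⟩, ⟨9 / 16, by norm_num⟩, ⟨5 / 8, by norm_num⟩,
    ⟨3 / 4, by norm_num⟩}, ?_, ?_⟩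
  · intro d hd
    simp only [Finset.mem_insert, Finset.mem_singleton] at hd
    rcases hd with rfl | rfl | rfl | rfl
    · exact ⟨1, 1, by norm_num⟩
    · exact ⟨9, 4, by norm_num⟩
    · exact ⟨5, 3, by norm_num⟩
    · exact ⟨3, 2, by norm_num⟩
  · intro x y hxy hno
    have h1 : ¬ ((x : ℝ) < 1 / 2 ∧ 1 / 2 < (y : ℝ)) := hno ⟨1 / 2, by norm_num⟩ (by simp)
    have h2 : ¬ ((x : ℝ) < 9 / 16 ∧ 9 / 16 < (y : ℝ)) := hno ⟨9 / 16, by norm_num⟩ (by simp)
    have h3 : ¬ ((x : ℝ) < 5 / 8 ∧ 5 / 8 < (y : ℝ)) := hno ⟨5 / 8, by norm_num⟩ (by simp)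
    have h4 : ¬ ((x : ℝ) < 3 / 4 ∧ 3 / 4 < (y : ℝ)) := hno ⟨3 / 4, by norm_num⟩ (by simp)
    have hxy' : (x : ℝ) ≤ y := hxy
    by_cases c1 : (y : ℝ) ≤ 1 / 2
    · refine ⟨0, 0, fun z hz1 hz2 => ?_⟩
      have hz2' : (z : ℝ) ≤ y := hz2
      rw [bU_apply, bR, max_eq_left ((min_le_left _ _).trans (by linarith))]
      norm_num
    · by_cases c2 : (y : ℝ) ≤ 9 / 16
      · have hx : 1 / 2 ≤ (x : ℝ) := by
          by_contra h
          exact h1 ⟨by linarith, by linarith⟩
        refine ⟨1, -1 / 2, fun z hz1 hz2 => ?_⟩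
        have hz2' : (z : ℝ) ≤ y := hz2
        have hz1' : (x : ℝ) ≤ z := hz1
        rw [bU_apply, bR, min_eq_left (by refine le_min ?_ ?_ <;> linarith),
          max_eq_right (by linarith)]
        norm_num
        ring
      · by_cases c3 : (y : ℝ) ≤ 5 / 8
        · have hx : 9 / 16 ≤ (x : ℝ) := by
            by_contra h
            exact h2 ⟨by linarith, by linarith⟩
          refine ⟨0, 1 / 16, fun z hz1 hz2 => ?_⟩
          have hz2' : (z : ℝ) ≤ y := hz2
          have hz1' : (x : ℝ) ≤ z := hz1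
          rw [bU_apply, bR, min_eq_left (a := (z : ℝ) + 1 / 16) (by linarith),
            min_eq_right (by linarith), max_eq_right (by linarith)]
          norm_num
        · by_cases c4 : (y : ℝ) ≤ 3 / 4
          · have hx : 5 / 8 ≤ (x : ℝ) := by
              by_contra h
              exact h3 ⟨by linarith, by linarith⟩
            refine ⟨-1, 3 / 8, fun z hz1 hz2 => ?_⟩
            have hz2' : (z : ℝ) ≤ y := hz2
            have hz1' : (x : ℝ) ≤ z := hz1
            rw [bU_apply, bR, min_eq_right (a := (z : ℝ) + 1 / 16) (by linarith),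
              min_eq_right (by linarith), max_eq_right (by linarith)]
            norm_num
            ring
          · have hx : 3 / 4 ≤ (x : ℝ) := by
              by_contra h
              exact h4 ⟨by linarith, by linarith⟩
            refine ⟨0, 0, fun z hz1 hz2 => ?_⟩
            have hz1' : (x : ℝ) ≤ z := hz1
            rw [bU_apply, bR, max_eq_left
              (((min_le_right _ _).trans (min_le_right _ _)).trans (by linarith))]
            norm_num

/-- `h ∈ F`. -/
noncomputable def h : F := ⟨hU, hU_mem⟩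

/-- `b ∈ F`. -/
noncomputable def b : F := ⟨bU, bU_mem⟩

/-! ### Dynamics -/

/-- The action of `F` on `[0,1]`. -/
def ap (g : F) (x : U) : U := (g : U ≃o U) x

theorem ap_one (x : U) : ap 1 x = x := rfl
theorem ap_mul (g g' : F) (x : U) : ap (g * g') x = ap g (ap g' x) := rfl
theorem ap_inv_ap (g : F) (x : U) : ap g⁻¹ (ap g x) = x := by
  rw [← ap_mul, inv_mul_cancel, ap_one]
theorem ap_ap_inv (g : F) (x : U) : ap g (ap g⁻¹ x) = x := by
  rw [← ap_mul, mul_inv_cancel, ap_one]

theorem ap_lt (g : F) {x y : U} : ap g x < ap g y ↔ x < y := (g : U ≃o U).lt_iff_lt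

/-- The points `1 - 2 ^ (-(i+1))`. -/
noncomputable def pt (i : ℕ) : U := ap (h ^ i) ⟨1 / 2, by norm_num⟩

theorem hR_big {x : ℝ} (hx : 1 / 2 ≤ x) : hR x = (x + 1) / 2 := by
  rw [hR, min_eq_right (a := x + 1 / 4) (by linarith), min_eq_right (by linarith)]

theorem pt_eq (i : ℕ) : (pt i : ℝ) = 1 - 1 / 2 ^ (i + 1) := by
  induction i with
  | zero =>
    change (1 / 2 : ℝ) = _
    norm_num
  | succ i ih =>
    have e : pt (i + 1) = ap h (pt i) := by
      rw [pt, pow_succ', ap_mul]; rfl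
    have h0 : (pt (i + 1) : ℝ) = hR (pt i) := by rw [e]; rfl
    have hpos : (0 : ℝ) < 2 ^ (i + 1) := by positivity
    have h2 : (1 : ℝ) / 2 ^ (i + 1) ≤ 1 / 2 := by
      rw [div_le_div_iff₀ hpos (by norm_num)]
      have : (1 : ℝ) ≤ 2 ^ i := one_le_pow₀ (by norm_num)
      rw [pow_succ]; linarith
    rw [h0, hR_big (by rw [ih]; linarith), ih, pow_succ (2 : ℝ) (i + 1)]
    field_simp
    ring

theorem pt_succ (i : ℕ) : pt (i + 1) = ap (h ^ i) ⟨3 / 4, by norm_num⟩ := by
  rw [pt, pow_succ, ap_mul]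
  congr 1
  apply Subtype.ext
  change hR (1 / 2) = 3 / 4
  rw [hR_big (by norm_num)]
  norm_num

/-- The bump supported in `(pt i, pt (i+1))`. -/
noncomputable def bump (i : ℕ) : F := h ^ i * b * (h ^ i)⁻¹

theorem b_supp {x : U} (hx : ap b x ≠ x) : (⟨1 / 2, by norm_num⟩ : U) < x ∧
    x < (⟨3 / 4, by norm_num⟩ : U) := by
  constructor
  · by_contra hlt
    apply hx
    have h1 : (x : ℝ) ≤ 1 / 2 := not_lt.1 hlt
    apply Subtype.ext
    change bR x = x
    rw [bR, max_eq_left ((min_le_left _ _).trans (by linarith))]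
  · by_contra hlt
    apply hx
    have h1 : 3 / 4 ≤ (x : ℝ) := not_lt.1 hlt
    apply Subtype.ext
    change bR x = x
    rw [bR, max_eq_left (((min_le_right _ _).trans (min_le_right _ _)).trans (by linarith))]

theorem bump_supp {i : ℕ} {x : U} (hx : ap (bump i) x ≠ x) : pt i < x ∧ x < pt (i + 1) := by
  have h1 : ap b (ap (h ^ i)⁻¹ x) ≠ ap (h ^ i)⁻¹ x := by
    intro heq
    apply hx
    rw [bump, ap_mul, ap_mul, heq, ap_ap_inv]
  obtain ⟨h2, h3⟩ := b_supp h1
  rw [pt_succ]
  have h4 := (ap_lt (h ^ i)).2 h2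
  have h5 := (ap_lt (h ^ i)).2 h3
  rw [ap_ap_inv] at h4 h5
  exact ⟨h4, h5⟩

theorem b_ne_one : b ≠ 1 := by
  intro heq
  have h1 : ap b ⟨9 / 16, by norm_num⟩ = ⟨9 / 16, by norm_num⟩ := by rw [heq]; rfl
  have h2 : bR (9 / 16) = 9 / 16 := congrArg Subtype.val h1
  rw [bR] at h2
  norm_num at h2

theorem bump_ne_one (i : ℕ) : bump i ≠ 1 := by
  intro heq
  rw [bump, mul_inv_eq_one] at heq
  exact b_ne_one (by simpa using heq)

/-- Orbits of `h` converge to `1`. -/
theorem one_sub_h (x : U) (D : ℕ) :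
    1 - (ap (h ^ D) x : ℝ) ≤ (1 - (x : ℝ) / 2) ^ D := by
  have key : ∀ D : ℕ, (x : ℝ) ≤ (ap (h ^ D) x : ℝ) ∧
      1 - (ap (h ^ D) x : ℝ) ≤ (1 - (x : ℝ) / 2) ^ D * (1 - x) := by
    intro D
    induction D with
    | zero => rw [pow_zero]; exact ⟨le_rfl, by rw [pow_zero, one_mul]; exact le_rfl⟩
    | succ D ih =>
      obtain ⟨i1, i2⟩ := ih
      rw [pow_succ', ap_mul]
      set y := ap (h ^ D) x with hy
      have hx0 : (0 : ℝ) ≤ x := x.2.1
      have hy1 : (y : ℝ) ≤ 1 := y.2.2
      have hx1 : (x : ℝ) ≤ 1 := x.2.2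
      change (x : ℝ) ≤ hR y ∧ 1 - hR y ≤ _
      have hyR : (y : ℝ) ≤ hR y := by
        unfold hR; refine le_min ?_ (le_min ?_ ?_) <;> linarith
      have hstep : 1 - hR y ≤ (1 - (y : ℝ) / 2) * (1 - y) := by
        unfold hR
        rcases min_choice (2 * (y : ℝ)) (min ((y : ℝ) + 1 / 4) (((y : ℝ) + 1) / 2)) with e | e
        · rw [e]; nlinarith
        · rw [e]
          rcases min_choice ((y : ℝ) + 1 / 4) (((y : ℝ) + 1) / 2) with e | e
          · rw [e]; nlinarith [sq_nonneg ((y : ℝ) - 1 / 2)]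
          · rw [e]; nlinarith
      refine ⟨i1.trans hyR, hstep.trans ?_⟩
      calc (1 - (y : ℝ) / 2) * (1 - y) ≤ (1 - (x : ℝ) / 2) * (1 - y) :=
            mul_le_mul_of_nonneg_right (by linarith) (by linarith)
        _ ≤ (1 - (x : ℝ) / 2) * ((1 - (x : ℝ) / 2) ^ D * (1 - x)) :=
            mul_le_mul_of_nonneg_left i2 (by linarith)
        _ = (1 - (x : ℝ) / 2) ^ (D + 1) * (1 - x) := by ring
  have h1 := (key D).2
  have hx0 : (0 : ℝ) ≤ x := x.2.1
  have hx1 : (x : ℝ) ≤ 1 := x.2.2
  refine h1.trans ?_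
  have : (0 : ℝ) ≤ (1 - (x : ℝ) / 2) ^ D := pow_nonneg (by linarith) _
  nlinarith

end Q32.ThF
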