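import Mathlib

/-!
Thompson's group `F` as a subgroup of the order automorphisms of `[0,1]`.
-/

namespace Q32.ThF

/-- The unit interval. -/
abbrev U : Type := Set.Icc (0 : ℝ) 1

/-- Dyadic rationals. -/
def IsDyadic (x : ℝ) : Prop := ∃ (a : ℤ) (m : ℕ), x = a / 2 ^ m

/-- `f` is affine on `[x,y]`, with slope an integer power of two. -/
def AffineOn (f : U ≃o U) (x y : U) : Prop :=
  ∃ (k : ℤ) (c : ℝ), ∀ z : U, x ≤ z → z ≤ y → (f z : ℝ) = 2 ^ k * (z : ℝ) + c

/-- `f` is piecewise linear with breakpoints in the finite set `D` of dyadic rationals and with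
slopes integer powers of two. -/
def Breaks (f : U ≃o U) (D : Finset U) : Prop :=
  (∀ d ∈ D, IsDyadic (d : ℝ)) ∧
    ∀ x y : U, x ≤ y → (∀ d ∈ D, ¬ (x < d ∧ d < y)) → AffineOn f x y

theorem IsDyadic.zpow_mul {x : ℝ} (hx : IsDyadic x) (k : ℤ) : IsDyadic (2 ^ k * x) := by
  obtain ⟨a, m, rfl⟩ := hx
  obtain ⟨n, rfl | rfl⟩ := k.eq_nat_or_neg
  · refine ⟨a * 2 ^ n, m, ?_⟩
    rw [zpow_natCast]; push_cast; ring
  · refine ⟨a, n + m, ?_⟩
    rw [zpow_neg, zpow_natCast, pow_add]
    field_simp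

theorem IsDyadic.add {x y : ℝ} (hx : IsDyadic x) (hy : IsDyadic y) : IsDyadic (x + y) := by
  obtain ⟨a, m, rfl⟩ := hx
  obtain ⟨b, n, rfl⟩ := hy
  refine ⟨a * 2 ^ n + b * 2 ^ m, m + n, ?_⟩
  push_cast
  rw [pow_add]
  field_simp

theorem IsDyadic.neg {x : ℝ} (hx : IsDyadic x) : IsDyadic (-x) := by
  obtain ⟨a, m, rfl⟩ := hx
  exact ⟨-a, m, by push_cast; ring⟩

theorem IsDyadic.sub {x y : ℝ} (hx : IsDyadic x) (hy : IsDyadic y) : IsDyadic (x - y) := by
  rw [sub_eq_add_neg]; exact hx.add hy.neg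

theorem isDyadic_zero : IsDyadic 0 := ⟨0, 0, by simp⟩

theorem map_zero' (f : U ≃o U) : f ⟨0, by simp⟩ = ⟨0, by simp⟩ := f.map_bot

theorem map_one' (f : U ≃o U) : f ⟨1, by simp⟩ = ⟨1, by simp⟩ := f.map_top

theorem U_nonneg (z : U) : (⟨0, by simp⟩ : U) ≤ z := z.2.1

/-- The largest breakpoint below `z`, or `0`. -/
theorem exists_last (D : Finset U) (z : U)
    (h : ¬ ∀ d ∈ D, ¬ ((⟨0, by simp⟩ : U) < d ∧ d < z)) :
    ∃ e ∈ D, (⟨0, by simp⟩ : U) < e ∧ e < z ∧ (∀ d ∈ D, ¬ (e < d ∧ d < z)) ∧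
      (D.filter fun d => (⟨0, by simp⟩ : U) < d ∧ d < e).card <
        (D.filter fun d => (⟨0, by simp⟩ : U) < d ∧ d < z).card := by
  push Not at h
  obtain ⟨d0, hd0, h0⟩ := h
  have hne : (D.filter fun d => (⟨0, by simp⟩ : U) < d ∧ d < z).Nonempty :=
    ⟨d0, Finset.mem_filter.2 ⟨hd0, h0⟩⟩
  obtain ⟨e, he, hmax⟩ := Finset.exists_max_image _ id hne
  rw [Finset.mem_filter] at he
  refine ⟨e, he.1, he.2.1, he.2.2, ?_, ?_⟩
  · rintro d hd ⟨h1, h2⟩
    have := hmax d (Finset.mem_filter.2 ⟨hd, lt_trans he.2.1 h1, h2⟩)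
    exact absurd h1 (not_lt.2 this)
  · refine Finset.card_lt_card ?_
    rw [Finset.ssubset_iff_subset_ne]
    refine ⟨?_, ?_⟩
    · intro d hd
      rw [Finset.mem_filter] at hd ⊢
      exact ⟨hd.1, hd.2.1, lt_trans hd.2.2 he.2.2⟩
    · intro heq
      have : e ∈ D.filter fun d => (⟨0, by simp⟩ : U) < d ∧ d < e := by
        rw [heq]; exact Finset.mem_filter.2 he
      exact lt_irrefl e (Finset.mem_filter.1 this).2.2

/-- A piecewise linear map as above preserves the set of dyadic rationals. -/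
theorem Breaks.dyadic_iff {f : U ≃o U} {D : Finset U} (hD : Breaks f D) (z : U) :
    IsDyadic (z : ℝ) ↔ IsDyadic (f z : ℝ) := by
  induction hN : (D.filter fun d => (⟨0, by simp⟩ : U) < d ∧ d < z).card using
    Nat.strong_induction_on generalizing z with
  | _ N ih =>
    by_cases h : ∀ d ∈ D, ¬ ((⟨0, by simp⟩ : U) < d ∧ d < z)
    · obtain ⟨k, c, hkc⟩ := hD.2 ⟨0, by simp⟩ z (U_nonneg z) h
      have h0 := hkc ⟨0, by simp⟩ le_rfl (U_nonneg z)
      have hz := hkc z (U_nonneg z) le_rfl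
      rw [map_zero'] at h0
      simp only [mul_zero, zero_add] at h0
      rw [← h0, add_zero] at hz
      constructor
      · intro hd; rw [hz]; exact hd.zpow_mul k
      · intro hd
        have := hd.zpow_mul (-k)
        rw [hz, ← mul_assoc, ← zpow_add₀ (by norm_num)] at this
        simpa using this
    · obtain ⟨e, heD, _, hez, hno, hcard⟩ := exists_last D z h
      have he : IsDyadic (e : ℝ) := hD.1 e heD
      have hfe := (ih _ (by rw [← hN]; exact hcard) e rfl).1 he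
      obtain ⟨k, c, hkc⟩ := hD.2 e z hez.le hno
      have h1 := hkc e le_rfl hez.le
      have h2 := hkc z hez.le le_rfl
      have h3 : (f z : ℝ) = f e + 2 ^ k * (z - e) := by rw [h1, h2]; ring
      have h4 : (z : ℝ) = e + 2 ^ (-k) * (f z - f e) := by
        have : (2 : ℝ) ^ (-k) * 2 ^ k = 1 := by rw [← zpow_add₀ (by norm_num)]; simp
        rw [h3]
        linear_combination (-(z : ℝ) + e) * this
      constructor
      · intro hd; rw [h3]; exact hfe.add ((hd.sub he).zpow_mul k)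
      · intro hd; rw [h4]; exact he.add ((hd.sub hfe).zpow_mul (-k))

/-- **Thompson's group `F`**: the orientation-preserving piecewise linear homeomorphisms of
`[0,1]` with finitely many breakpoints, all dyadic, and with slopes integer powers of two. -/
def F : Subgroup (U ≃o U) where
  carrier := {f | ∃ D : Finset U, Breaks f D}
  mul_mem' := by
    classical
    rintro f g ⟨D, hD⟩ ⟨E, hE⟩
    refine ⟨E ∪ D.image fun d => g⁻¹ d, ?_, ?_⟩
    · intro d hd
      rcases Finset.mem_union.1 hd with hd | hd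
      · exact hE.1 d hd
      · obtain ⟨d', hd', rfl⟩ := Finset.mem_image.1 hd
        rw [hE.dyadic_iff]
        have : g (g⁻¹ d') = d' := g.apply_symm_apply d'
        rw [this]
        exact hD.1 d' hd'
    · intro x y hxy hno
      obtain ⟨k, c, hkc⟩ := hE.2 x y hxy fun d hd => hno d (Finset.mem_union_left _ hd)
      obtain ⟨k', c', hkc'⟩ := hD.2 (g x) (g y) (g.monotone hxy) (by
        rintro d hd ⟨h1, h2⟩
        refine hno (g⁻¹ d) (Finset.mem_union_right _ (Finset.mem_image_of_mem _ hd)) ⟨?_, ?_⟩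
        · exact (OrderIso.lt_symm_apply g).2 h1
        · exact (OrderIso.symm_apply_lt g).2 h2)
      refine ⟨k' + k, 2 ^ k' * c + c', fun z h1 h2 => ?_⟩
      have e1 := hkc z h1 h2
      have e2 := hkc' (g z) (g.monotone h1) (g.monotone h2)
      change ((f (g z) : U) : ℝ) = _
      rw [e2, e1, zpow_add₀ (by norm_num)]
      ring
  one_mem' := ⟨∅, by simp, fun x y _ _ => ⟨0, 0, fun z _ _ => by
    change (z : ℝ) = _
    simp⟩⟩
  inv_mem' := by
    classical
    rintro f ⟨D, hD⟩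
    refine ⟨D.image f, ?_, ?_⟩
    · intro d hd
      obtain ⟨d', hd', rfl⟩ := Finset.mem_image.1 hd
      exact (hD.dyadic_iff d').1 (hD.1 d' hd')
    · intro x y hxy hno
      obtain ⟨k, c, hkc⟩ := hD.2 (f.symm x) (f.symm y) (f.symm.monotone hxy) (by
        rintro d hd ⟨h1, h2⟩
        exact hno (f d) (Finset.mem_image_of_mem _ hd)
          ⟨(OrderIso.symm_apply_lt f).1 h1, (OrderIso.lt_symm_apply f).1 h2⟩)
      refine ⟨-k, -(2 ^ (-k) * c), fun z h1 h2 => ?_⟩
      have e := hkc (f.symm z) (f.symm.monotone h1) (f.symm.monotone h2)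
      rw [f.apply_symm_apply] at e
      change ((f.symm z : U) : ℝ) = _
      have : (2 : ℝ) ^ (-k) * 2 ^ k = 1 := by rw [← zpow_add₀ (by norm_num)]; simp
      rw [e]
      linear_combination (-((f.symm z : U) : ℝ)) * this

end Q32.ThF
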