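import Mathlib

/-!
Word length of a group with respect to a symmetric generating set, defined by lists.
-/

namespace Q32

variable {G : Type*} [Group G]

/-- The least length of a word in `S` representing `g`. -/
noncomputable def wl (S : Set G) (g : G) : ℕ :=
  sInf {n | ∃ l : List G, (∀ s ∈ l, s ∈ S) ∧ l.prod = g ∧ l.length = n}

theorem wl_le {S : Set G} {l : List G} (h : ∀ s ∈ l, s ∈ S) : wl S l.prod ≤ l.length :=
  Nat.sInf_le ⟨l, h, rfl, rfl⟩

theorem exists_list {S : Set G} (hS : Subgroup.closure S = ⊤) (hinv : ∀ s ∈ S, s⁻¹ ∈ S) (g : G) :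
    ∃ l : List G, (∀ s ∈ l, s ∈ S) ∧ l.prod = g := by
  have hg : g ∈ Subgroup.closure S := by simp [hS]
  induction hg using Subgroup.closure_induction_right with
  | one => exact ⟨[], by simp, by simp⟩
  | mul_right x _ y hy ih =>
    obtain ⟨l, hl, hp⟩ := ih
    refine ⟨l ++ [y], ?_, by simp [hp]⟩
    intro s hs
    simp only [List.mem_append, List.mem_singleton] at hs
    rcases hs with hs | rfl
    · exact hl s hs
    · exact hy
  | mul_inv_cancel x _ y hy ih =>
    obtain ⟨l, hl, hp⟩ := ih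
    refine ⟨l ++ [y⁻¹], ?_, by simp [hp]⟩
    intro s hs
    simp only [List.mem_append, List.mem_singleton] at hs
    rcases hs with hs | rfl
    · exact hl s hs
    · exact hinv y hy

theorem exists_geod {S : Set G} (hS : Subgroup.closure S = ⊤) (hinv : ∀ s ∈ S, s⁻¹ ∈ S) (g : G) :
    ∃ l : List G, (∀ s ∈ l, s ∈ S) ∧ l.prod = g ∧ l.length = wl S g := by
  obtain ⟨l, hl, hp⟩ := exists_list hS hinv g
  exact Nat.sInf_mem (s := {n | ∃ l : List G, (∀ s ∈ l, s ∈ S) ∧ l.prod = g ∧ l.length = n})
    ⟨l.length, l, hl, hp, rfl⟩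

theorem wl_one (S : Set G) : wl S 1 = 0 := by
  have := wl_le (S := S) (l := []) (by simp)
  simpa using this

theorem wl_eq_zero {S : Set G} (hS : Subgroup.closure S = ⊤) (hinv : ∀ s ∈ S, s⁻¹ ∈ S) {g : G} :
    wl S g = 0 ↔ g = 1 := by
  constructor
  · intro h
    obtain ⟨l, _, hp, hl⟩ := exists_geod hS hinv g
    rw [h, List.length_eq_zero_iff] at hl
    rw [← hp, hl, List.prod_nil]
  · rintro rfl; exact wl_one S

theorem wl_mul_le {S : Set G} (hS : Subgroup.closure S = ⊤) (hinv : ∀ s ∈ S, s⁻¹ ∈ S) (g h : G) :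
    wl S (g * h) ≤ wl S g + wl S h := by
  obtain ⟨l, hl, hp, hlen⟩ := exists_geod hS hinv g
  obtain ⟨l', hl', hp', hlen'⟩ := exists_geod hS hinv h
  rw [← hlen, ← hlen', ← List.length_append, ← hp, ← hp', ← List.prod_append]
  refine wl_le ?_
  intro s hs
  rcases List.mem_append.1 hs with hs | hs
  · exact hl s hs
  · exact hl' s hs

theorem wl_inv_le {S : Set G} (hS : Subgroup.closure S = ⊤) (hinv : ∀ s ∈ S, s⁻¹ ∈ S) (g : G) :
    wl S g⁻¹ ≤ wl S g := by
  obtain ⟨l, hl, hp, hlen⟩ := exists_geod hS hinv g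
  rw [← hlen, ← hp, List.prod_inv_reverse]
  have := wl_le (S := S) (l := (l.map fun x => x⁻¹).reverse) (by
    intro s hs
    simp only [List.mem_reverse, List.mem_map] at hs
    obtain ⟨a, ha, rfl⟩ := hs
    exact hinv a (hl a ha))
  simpa using this

theorem wl_inv {S : Set G} (hS : Subgroup.closure S = ⊤) (hinv : ∀ s ∈ S, s⁻¹ ∈ S) (g : G) :
    wl S g⁻¹ = wl S g := by
  refine le_antisymm (wl_inv_le hS hinv g) ?_
  have := wl_inv_le hS hinv g⁻¹
  simpa using this

theorem wl_ball_finite {S : Set G} (hfin : S.Finite) (hS : Subgroup.closure S = ⊤)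
    (hinv : ∀ s ∈ S, s⁻¹ ∈ S) (n : ℕ) : {g : G | wl S g ≤ n}.Finite := by
  induction n with
  | zero =>
    refine (Set.finite_singleton (1 : G)).subset ?_
    intro g hg
    exact (wl_eq_zero hS hinv).1 (Nat.le_zero.1 hg)
  | succ n ih =>
    refine (((ih.prod hfin).image fun p : G × G => p.1 * p.2).union
      (Set.finite_singleton (1 : G))).subset ?_
    intro g hg
    obtain ⟨l, hl, hp, hlen⟩ := exists_geod hS hinv g
    rcases List.eq_nil_or_concat l with rfl | ⟨l', s, rfl⟩
    · right
      rw [← hp]; simp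
    · left
      refine ⟨(l'.prod, s), ⟨?_, hl s (by simp)⟩, ?_⟩
      · have h1 : wl S l'.prod ≤ l'.length := wl_le fun s hs => hl s (by simp [hs])
        simp only [List.concat_eq_append, List.length_append, List.length_cons,
          List.length_nil] at hlen
        simp only [Set.mem_setOf_eq] at hg ⊢
        omega
      · rw [← hp]; simp

/-- In an infinite finitely generated group there are elements of every length. -/
theorem exists_wl_eq [Infinite G] {S : Set G} (hfin : S.Finite) (hS : Subgroup.closure S = ⊤)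
    (hinv : ∀ s ∈ S, s⁻¹ ∈ S) (n : ℕ) : ∃ g : G, wl S g = n := by
  obtain ⟨g, hg⟩ := (wl_ball_finite hfin hS hinv n).infinite_compl.nonempty
  simp only [Set.mem_compl_iff, Set.mem_setOf_eq, not_le] at hg
  obtain ⟨l, hl, hp, hlen⟩ := exists_geod hS hinv g
  refine ⟨(l.take n).prod, ?_⟩
  have h1 : wl S (l.take n).prod ≤ (l.take n).length :=
    wl_le fun s hs => hl s (List.mem_of_mem_take hs)
  have h2 : wl S (l.drop n).prod ≤ (l.drop n).length :=
    wl_le fun s hs => hl s (List.mem_of_mem_drop hs)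
  have h3 := wl_mul_le hS hinv (l.take n).prod (l.drop n).prod
  rw [← List.prod_append, List.take_append_drop, hp] at h3
  rw [List.length_take] at h1
  rw [List.length_drop] at h2
  omega

end Q32
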